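import Mathlib

/-!
# Finite graphs without induced five-cycles and bulls: basic tools

A pair of complementary relations is used so that complementation is a symmetry of the whole
set-up.
-/

namespace Pool.Agent.R40.FiveSC

open Finset

/-- adjacency `A` and nonadjacency of distinct vertices `B` -/
structure Pr (V : Type) where
  A : V → V → Prop
  B : V → V → Prop
  sA : ∀ {u v}, A u v → A v u
  sB : ∀ {u v}, B u v → B v u
  iA : ∀ u, ¬ A u u
  iB : ∀ u, ¬ B u u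
  ex : ∀ {u v}, A u v → B u v → False
  tri : ∀ u v, u ≠ v → A u v ∨ B u v

variable {V : Type}

/-- complement -/
def Pr.dual (P : Pr V) : Pr V :=
  ⟨P.B, P.A, P.sB, P.sA, P.iB, P.iA, fun h1 h2 => P.ex h2 h1, fun u v h => (P.tri u v h).symm⟩

theorem Pr.neA (P : Pr V) {u v : V} (h : P.A u v) : u ≠ v := by
  rintro rfl; exact P.iA _ h

theorem Pr.neB (P : Pr V) {u v : V} (h : P.B u v) : u ≠ v := by
  rintro rfl; exact P.iB _ h

/-- `w` is adjacent to `x` but not to `y`, so `x ≠ y` -/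
theorem Pr.neAB (P : Pr V) {u v w : V} (h : P.A w u) (h' : P.B w v) : u ≠ v := by
  rintro rfl; exact P.ex h h'

theorem Pr.orAB (P : Pr V) {u v w : V} (h : P.A w u) (h' : P.B w v) : P.A u v ∨ P.B u v :=
  P.tri _ _ (P.neAB h h')

/-- induced path on four vertices -/
def P4 (P : Pr V) (a b c d : V) : Prop :=
  P.A a b ∧ P.A b c ∧ P.A c d ∧ P.B a c ∧ P.B b d ∧ P.B a d

theorem P4.dual {P : Pr V} {a b c d : V} (h : P4 P a b c d) : P4 P.dual b d a c :=
  ⟨h.2.2.2.2.1, P.sB h.2.2.2.2.2, h.2.2.2.1, P.sA h.1, P.sA h.2.2.1, h.2.1⟩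

theorem P4.undual {P : Pr V} {a b c d : V} (h : P4 P.dual a b c d) : P4 P b d a c := by
  have := h.dual
  exact this

theorem P4.rev {P : Pr V} {a b c d : V} (h : P4 P a b c d) : P4 P d c b a :=
  ⟨P.sA h.2.2.1, P.sA h.2.1, P.sA h.1, P.sB h.2.2.2.2.1, P.sB h.2.2.2.1, P.sB h.2.2.2.2.2⟩

/-- the standing hypotheses: no induced five-cycle, no induced bull, both diameters at most two,
every vertex is the only common neighbour of a nonadjacent pair or the only common nonneighbour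
of an adjacent pair, no proper homogeneous set -/
structure Ok [Fintype V] (P : Pr V) : Prop where
  c5 : ∀ a b c d e, P.A a b → P.A b c → P.A c d → P.A d e → P.A e a →
    P.B a c → P.B b d → P.B c e → P.B d a → P.B e b → False
  bull : ∀ a b c d e, P.A a b → P.A b c → P.A c a → P.A a d → P.A b e →
    P.B a e → P.B b d → P.B c d → P.B c e → P.B d e → False
  cn : ∀ u v, P.B u v → ∃ w, P.A w u ∧ P.A w v
  cc : ∀ u v, P.A u v → ∃ w, P.B w u ∧ P.B w v
  priv : ∀ v, (∃ a b, P.B a b ∧ P.A v a ∧ P.A v b ∧ ∀ w, P.A w a → P.A w b → w = v) ∨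
    (∃ a b, P.A a b ∧ P.B v a ∧ P.B v b ∧ ∀ w, P.B w a → P.B w b → w = v)
  prime : ∀ W : Finset V, 2 ≤ W.card → (∃ u, u ∉ W) →
    ∃ v, v ∉ W ∧ (∃ x ∈ W, P.A v x) ∧ (∃ y ∈ W, P.B v y)

variable [Fintype V] {P : Pr V}

theorem Ok.dual (h : Ok P) : Ok P.dual where
  c5 a b c d e h1 h2 h3 h4 h5 h6 h7 h8 h9 h10 :=
    h.c5 a c e b d h6 h8 h10 h7 h9 (P.sB h5) (P.sB h2) (P.sB h4) (P.sB h1) (P.sB h3)
  bull a b c d e h1 h2 h3 h4 h5 h6 h7 h8 h9 h10 :=
    h.bull d e c b a h10 (P.sA h9) h8 (P.sA h7) (P.sA h6) (P.sB h4) (P.sB h5) (P.sB h2) h3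
      (P.sB h1)
  cn := h.cc
  cc := h.cn
  priv v := (h.priv v).symm
  prime W h1 h2 := by
    obtain ⟨v, hv, hx, hy⟩ := h.prime W h1 h2
    exact ⟨v, hv, hy, hx⟩

/-- attachments to a path with an anticentre -/
theorem att (h : Ok P) {a x p q r s : V} (hp : P4 P p q r s) (ap : P.B a p) (aq : P.B a q)
    (ar : P.B a r) (as : P.B a s) (ax : P.A a x) :
    (P.A x p → P.A x q → P.A x r ∧ P.A x s) ∧ (P.A x r → P.A x s → P.A x p ∧ P.A x q) ∧
    (P.A x q → P.A x r → P.A x p ∧ P.A x s) ∧ (P.A x p → P.A x s → P.A x q ∧ P.A x r) := by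
  obtain ⟨pq, qr, rs, pr, qs, ps⟩ := hp
  have tp := P.orAB ax ap
  have tq := P.orAB ax aq
  have tr := P.orAB ax ar
  have ts := P.orAB ax as
  have xa := P.sA ax
  -- s1 s2 -> s3
  have e12 : P.A x p → P.A x q → P.A x r := by
    intro h1 h2
    rcases tr with h3 | h3
    · exact h3
    · exact (h.bull x q p a r h2 (P.sA pq) (P.sA h1) xa qr h3 (P.sB aq) (P.sB ap) pr ar).elim
  have e34 : P.A x r → P.A x s → P.A x q := by
    intro h1 h2
    rcases tq with h3 | h3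
    · exact h3
    · exact (h.bull x r s a q h1 rs (P.sA h2) xa (P.sA qr) h3 (P.sB ar) (P.sB as) (P.sB qs)
        aq).elim
  have e23s : P.A x q → P.A x r → P.A x s := by
    intro h1 h2
    rcases ts with h3 | h3
    · exact h3
    · exact (h.bull x r q a s h2 (P.sA qr) (P.sA h1) xa rs h3 (P.sB ar) (P.sB aq) qs as).elim
  have e23p : P.A x q → P.A x r → P.A x p := by
    intro h1 h2
    rcases tp with h3 | h3
    · exact h3
    · exact (h.bull x q r a p h1 qr (P.sA h2) xa (P.sA pq) h3 (P.sB aq) (P.sB ar) (P.sB pr)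
        ap).elim
  have e14 : P.A x p → P.A x s → P.A x q ∨ P.A x r := by
    intro h1 h2
    rcases tq with h3 | h3
    · exact Or.inl h3
    rcases tr with h4 | h4
    · exact Or.inr h4
    exact (h.c5 x p q r s h1 pq qr rs (P.sA h2) h3 pr qs (P.sB h4) (P.sB ps)).elim
  refine ⟨fun h1 h2 => ?_, fun h1 h2 => ?_, fun h1 h2 => ⟨e23p h1 h2, e23s h1 h2⟩,
    fun h1 h2 => ?_⟩
  · have h3 := e12 h1 h2
    exact ⟨h3, e23s h2 h3⟩
  · have h3 := e34 h1 h2
    exact ⟨e23p h3 h1, h3⟩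
  · rcases e14 h1 h2 with h3 | h3
    · exact ⟨h3, e12 h1 h3⟩
    · exact ⟨e34 h3 h2, h3⟩

/-- (R1) -/
theorem r1 (h : Ok P) {c x y m n : V} (cx : P.A c x) (cy : P.A c y) (cm : P.B c m) (cn : P.B c n)
    (xm : P.A x m) (xn : P.B x n) (yn : P.A y n) (ym : P.B y m) :
    (P.A m n → P.A x y) ∧ (P.B m n → P.B x y) := by
  have hxy : P.A x y ∨ P.B x y := P.orAB (P.sA xm) (P.sB ym)
  constructor
  · intro mn
    rcases hxy with h1 | h1
    · exact h1
    · exact (h.c5 c x m n y cx xm mn (P.sA yn) (P.sA cy) cm xn (P.sB ym) (P.sB cn)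
        (P.sB h1)).elim
  · intro mn
    rcases hxy with h1 | h1
    · exact (h.bull x y c m n h1 (P.sA cy) cx xm yn xn ym cm cn mn).elim
    · exact h1

/-- (R2) -/
theorem r2 (h : Ok P) {c m x y z : V} (cm : P.B c m) (cx : P.A c x) (cy : P.A c y)
    (cz : P.A c z) (xm : P.A x m) (ym : P.B y m) (zm : P.B z m) (zx : P.A z x) (yx : P.B y x)
    (hyz : y ≠ z) : P.A y z := by
  rcases P.tri y z hyz with h1 | h1
  · exact h1
  · exact (h.bull c x z y m cx (P.sA zx) (P.sA cz) cy xm cm (P.sB yx) (P.sB h1) zm ym).elim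

/-- (R3) -/
theorem r3 (h : Ok P) {a x k l w : V} (ax : P.A a x) (ak : P.B a k) (al : P.B a l)
    (aw : P.B a w) (xk : P.A x k) (xl : P.A x l) (xw : P.B x w) (kl : P.A k l) (wk : P.A w k) :
    P.A w l := by
  rcases P.tri w l (fun e => P.ex xl (e ▸ xw)) with h1 | h1
  · exact h1
  · exact (h.bull x k l a w xk kl (P.sA xl) (P.sA ax) (P.sA wk) xw (P.sB ak) (P.sB al)
      (P.sB h1) aw).elim

/-- a path on four vertices with anticentre `a`: some neighbour of `a` is complete to it -/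
theorem l1p (h : Ok P) {a p q r s : V} (hp : P4 P p q r s) (ap : P.B a p) (aq : P.B a q)
    (ar : P.B a r) (as : P.B a s) :
    ∃ x, P.A a x ∧ P.A x p ∧ P.A x q ∧ P.A x r ∧ P.A x s := by
  by_contra hcon
  push Not at hcon
  have hp' := hp
  obtain ⟨pq, qr, rs, pr, qs, ps⟩ := hp'
  have nf : ∀ x, P.A a x → ¬ (P.A x p ∧ P.A x q ∧ P.A x r ∧ P.A x s) :=
    fun x hx hh => hcon x hx hh.1 hh.2.1 hh.2.2.1 hh.2.2.2
  have n12 : ∀ x, P.A a x → P.A x p → P.B x q := by
    intro x hx h1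
    rcases P.orAB hx aq with h2 | h2
    · have := (att h hp ap aq ar as hx).1 h1 h2
      exact (nf x hx ⟨h1, h2, this.1, this.2⟩).elim
    · exact h2
  have n14 : ∀ x, P.A a x → P.A x p → P.B x s := by
    intro x hx h1
    rcases P.orAB hx as with h2 | h2
    · have := (att h hp ap aq ar as hx).2.2.2 h1 h2
      exact (nf x hx ⟨h1, this.1, this.2, h2⟩).elim
    · exact h2
  obtain ⟨x1, h1a, h1p⟩ := h.cn a p ap
  obtain ⟨x2, h2a, h2q⟩ := h.cn a q aq
  obtain ⟨x4, h4a, h4s⟩ := h.cn a s as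
  replace h1a := P.sA h1a
  replace h2a := P.sA h2a
  replace h4a := P.sA h4a
  have h1q := n12 x1 h1a h1p
  have h1s := n14 x1 h1a h1p
  have key : ∀ x, P.A a x → P.A x s → P.B x q ∧ P.B x1 x ∧ P.B x p := by
    intro x hx h1
    have hxp : P.B x p := by
      rcases P.orAB hx ap with h2 | h2
      · exact (P.ex h1 (n14 x hx h2)).elim
      · exact h2
    have hb := (r1 h h1a hx ap as h1p h1s h1 hxp).2 ps
    refine ⟨?_, hb, hxp⟩
    rcases P.orAB hx aq with h2 | h2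
    · exact (P.ex ((r1 h h1a hx ap aq h1p h1q h2 hxp).1 pq) hb).elim
    · exact h2
  obtain ⟨h4q, h14, h4p⟩ := key x4 h4a h4s
  have h2s : P.B x2 s := by
    rcases P.orAB h2a as with h2 | h2
    · exact (P.ex h2q (key x2 h2a h2).1).elim
    · exact h2
  have h2p : P.B x2 p := by
    rcases P.orAB h2a ap with h2 | h2
    · exact (P.ex h2q (n12 x2 h2a h2)).elim
    · exact h2
  have h12 := (r1 h h1a h2a ap aq h1p h1q h2q h2p).1 pq
  have h24 := (r1 h h2a h4a aq as h2q h2s h4s h4q).2 qs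
  exact h.bull x1 a x2 p x4 (P.sA h1a) h2a (P.sA h12) h1p h4a h14 ap h2p h24 (P.sB h4p)

/-- every cut of `K` is crossed by an induced path on four vertices -/
def PC (P : Pr V) (K : Finset V) : Prop :=
  ∀ f : V → Prop, (∃ x ∈ K, f x) → (∃ y ∈ K, ¬ f y) →
    ∃ a b c d, P4 P a b c d ∧ a ∈ K ∧ b ∈ K ∧ c ∈ K ∧ d ∈ K ∧
      (f a ∨ f b ∨ f c ∨ f d) ∧ (¬ f a ∨ ¬ f b ∨ ¬ f c ∨ ¬ f d)

omit [Fintype V] in
theorem PC.dual {K : Finset V} (h : PC P K) : PC P.dual K := by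
  intro f hx hy
  obtain ⟨a, b, c, d, h1, ha, hb, hc, hd, h2, h3⟩ := h f hx hy
  exact ⟨b, d, a, c, h1.dual, hb, hd, ha, hc, by tauto, by tauto⟩

omit [Fintype V] in
theorem PC.p4 [DecidableEq V] {a b c d : V} (h : P4 P a b c d) : PC P {a, b, c, d} := by
  intro f hx hy
  refine ⟨a, b, c, d, h, by simp, by simp, by simp, by simp, ?_, ?_⟩
  · simpa using hx
  · simpa using hy

/-- a vertex mixed on an induced path lies on an induced path with three of its vertices -/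
theorem mixP (h : Ok P) {v a b c d : V} (hp : P4 P a b c d) (va : v ≠ a) (vb : v ≠ b)
    (vc : v ≠ c) (vd : v ≠ d) (h1 : P.A v a ∨ P.A v b ∨ P.A v c ∨ P.A v d)
    (h2 : P.B v a ∨ P.B v b ∨ P.B v c ∨ P.B v d) :
    ∃ x y z, (x = a ∨ x = b ∨ x = c ∨ x = d) ∧ (y = a ∨ y = b ∨ y = c ∨ y = d) ∧
      (z = a ∨ z = b ∨ z = c ∨ z = d) ∧ (P4 P v x y z ∨ P4 P x v y z) := by
  have hp' := hp
  obtain ⟨ab, bc, cd, ac, bd, ad⟩ := hp'
  rcases P.tri v a va with ha | ha <;> rcases P.tri v b vb with hb | hb <;>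
    rcases P.tri v c vc with hc | hc <;> rcases P.tri v d vd with hd | hd
  · exfalso
    rcases h2 with h2 | h2 | h2 | h2
    · exact P.ex ha h2
    · exact P.ex hb h2
    · exact P.ex hc h2
    · exact P.ex hd h2
  · exact ⟨a, c, d, by simp, by simp, by simp, Or.inr ⟨P.sA ha, hc, cd, ac, hd, ad⟩⟩
  · exact ⟨a, d, c, by simp, by simp, by simp,
      Or.inr ⟨P.sA ha, hd, P.sA cd, ad, hc, ac⟩⟩
  · exact ⟨b, c, d, by simp, by simp, by simp, Or.inl ⟨hb, bc, cd, hc, bd, hd⟩⟩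
  · exact ⟨d, a, b, by simp, by simp, by simp,
      Or.inr ⟨P.sA hd, ha, ab, P.sB ad, hb, P.sB bd⟩⟩
  · exact ⟨a, c, d, by simp, by simp, by simp, Or.inr ⟨P.sA ha, hc, cd, ac, hd, ad⟩⟩
  · exact (h.c5 v a b c d ha ab bc cd (P.sA hd) hb ac bd (P.sB hc) (P.sB ad)).elim
  · exact ⟨a, b, c, by simp, by simp, by simp, Or.inl ⟨ha, ab, bc, hb, ac, hc⟩⟩
  · exact ⟨d, b, a, by simp, by simp, by simp,
      Or.inr ⟨P.sA hd, hb, P.sA ab, P.sB bd, ha, P.sB ad⟩⟩
  · exact (h.bull b c v a d bc (P.sA hc) hb (P.sA ab) cd bd (P.sB ac) ha hd ad).elim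
  · exact ⟨d, b, a, by simp, by simp, by simp,
      Or.inr ⟨P.sA hd, hb, P.sA ab, P.sB bd, ha, P.sB ad⟩⟩
  · exact ⟨b, c, d, by simp, by simp, by simp, Or.inl ⟨hb, bc, cd, hc, bd, hd⟩⟩
  · exact ⟨c, b, a, by simp, by simp, by simp,
      Or.inl ⟨hc, P.sA bc, P.sA ab, hb, P.sB ac, ha⟩⟩
  · exact ⟨c, b, a, by simp, by simp, by simp,
      Or.inl ⟨hc, P.sA bc, P.sA ab, hb, P.sB ac, ha⟩⟩
  · exact ⟨d, c, b, by simp, by simp, by simp,
      Or.inl ⟨hd, P.sA cd, P.sA bc, hc, P.sB bd, hb⟩⟩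
  · exfalso
    rcases h1 with h1 | h1 | h1 | h1
    · exact P.ex h1 ha
    · exact P.ex h1 hb
    · exact P.ex h1 hc
    · exact P.ex h1 hd

theorem PC.add [DecidableEq V] (h : Ok P) {K : Finset V} (hK : PC P K) {v a b c d : V}
    (hv : v ∉ K) (hp : P4 P a b c d) (ha : a ∈ K) (hb : b ∈ K) (hc : c ∈ K) (hd : d ∈ K)
    (h1 : P.A v a ∨ P.A v b ∨ P.A v c ∨ P.A v d)
    (h2 : P.B v a ∨ P.B v b ∨ P.B v c ∨ P.B v d) : PC P (insert v K) := by
  have ne : ∀ {u}, u ∈ K → v ≠ u := fun hu e => hv (e ▸ hu)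
  obtain ⟨x, y, z, hx, hy, hz, hq⟩ := mixP h hp (ne ha) (ne hb) (ne hc) (ne hd) h1 h2
  have xK : x ∈ K := by rcases hx with rfl | rfl | rfl | rfl <;> assumption
  have yK : y ∈ K := by rcases hy with rfl | rfl | rfl | rfl <;> assumption
  have zK : z ∈ K := by rcases hz with rfl | rfl | rfl | rfl <;> assumption
  intro f hf hg
  by_cases h3 : (∃ u ∈ K, f u) ∧ (∃ u ∈ K, ¬ f u)
  · obtain ⟨a', b', c', d', h4, h5, h6, h7, h8, h9, h10⟩ := hK f h3.1 h3.2
    exact ⟨a', b', c', d', h4, mem_insert_of_mem h5, mem_insert_of_mem h6,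
      mem_insert_of_mem h7, mem_insert_of_mem h8, h9, h10⟩
  · have cross : (f v ∧ ¬ f x) ∨ (¬ f v ∧ f x) := by
      by_cases fx : f x
      · right
        refine ⟨fun fv => ?_, fx⟩
        obtain ⟨u, hu, hfu⟩ := hg
        rcases mem_insert.1 hu with rfl | hu
        · exact hfu fv
        · exact h3 ⟨⟨x, xK, fx⟩, ⟨u, hu, hfu⟩⟩
      · left
        refine ⟨?_, fx⟩
        by_contra fv
        obtain ⟨u, hu, hfu⟩ := hf
        rcases mem_insert.1 hu with rfl | hu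
        · exact fv hfu
        · exact h3 ⟨⟨u, hu, hfu⟩, ⟨x, xK, fx⟩⟩
    rcases hq with hq | hq
    · refine ⟨v, x, y, z, hq, mem_insert_self _ _, mem_insert_of_mem xK, mem_insert_of_mem yK,
        mem_insert_of_mem zK, ?_, ?_⟩
      · rcases cross with ⟨c1, c2⟩ | ⟨c1, c2⟩
        · exact Or.inl c1
        · exact Or.inr (Or.inl c2)
      · rcases cross with ⟨c1, c2⟩ | ⟨c1, c2⟩
        · exact Or.inr (Or.inl c2)
        · exact Or.inl c1
    · refine ⟨x, v, y, z, hq, mem_insert_of_mem xK, mem_insert_self _ _, mem_insert_of_mem yK,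
        mem_insert_of_mem zK, ?_, ?_⟩
      · rcases cross with ⟨c1, c2⟩ | ⟨c1, c2⟩
        · exact Or.inr (Or.inl c1)
        · exact Or.inl c2
      · rcases cross with ⟨c1, c2⟩ | ⟨c1, c2⟩
        · exact Or.inl c2
        · exact Or.inr (Or.inl c1)

omit [Fintype V] in
theorem PC.union [DecidableEq V] {K : Finset V} (hK : PC P K) {a b c d k : V}
    (hp : P4 P a b c d) (hk : k ∈ K) (hk' : k = a ∨ k = b ∨ k = c ∨ k = d) :
    PC P (K ∪ {a, b, c, d}) := by
  intro f hf hg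
  by_cases h3 : (∃ u ∈ K, f u) ∧ (∃ u ∈ K, ¬ f u)
  · obtain ⟨a', b', c', d', h4, h5, h6, h7, h8, h9, h10⟩ := hK f h3.1 h3.2
    exact ⟨a', b', c', d', h4, mem_union_left _ h5, mem_union_left _ h6,
      mem_union_left _ h7, mem_union_left _ h8, h9, h10⟩
  · refine ⟨a, b, c, d, hp, mem_union_right _ (by simp), mem_union_right _ (by simp),
      mem_union_right _ (by simp), mem_union_right _ (by simp), ?_, ?_⟩
    · by_contra hno
      push Not at hno
      obtain ⟨n1, n2, n3, n4⟩ := hno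
      have hnk : ¬ f k := by rcases hk' with rfl | rfl | rfl | rfl <;> assumption
      obtain ⟨u, hu, hfu⟩ := hf
      rcases mem_union.1 hu with hu | hu
      · exact h3 ⟨⟨u, hu, hfu⟩, ⟨k, hk, hnk⟩⟩
      · simp only [mem_insert, mem_singleton] at hu
        rcases hu with rfl | rfl | rfl | rfl <;> contradiction
    · by_contra hno
      push Not at hno
      obtain ⟨n1, n2, n3, n4⟩ := hno
      have hnk : f k := by rcases hk' with rfl | rfl | rfl | rfl <;> assumption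
      obtain ⟨u, hu, hfu⟩ := hg
      rcases mem_union.1 hu with hu | hu
      · exact h3 ⟨⟨k, hk, hnk⟩, ⟨u, hu, hfu⟩⟩
      · simp only [mem_insert, mem_singleton] at hu
        rcases hu with rfl | rfl | rfl | rfl <;> contradiction

end Pool.Agent.R40.FiveSC
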