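import Mathlib
import Pool.Agent.R40.FiveSCa

/-!
# No induced path on four vertices has a centre or an anticentre
-/

namespace Pool.Agent.R40.FiveSC

open Finset

variable {V : Type} [Fintype V] {P : Pr V}

omit [Fintype V] in
/-- a vertex mixed on an induced path separates two consecutive vertices -/
theorem mixEdge {v a b c d : V} (hp : P4 P a b c d) (va : v ≠ a) (vb : v ≠ b)
    (vc : v ≠ c) (vd : v ≠ d) (h1 : P.A v a ∨ P.A v b ∨ P.A v c ∨ P.A v d)
    (h2 : P.B v a ∨ P.B v b ∨ P.B v c ∨ P.B v d) :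
    ∃ k l, (k = a ∨ k = b ∨ k = c ∨ k = d) ∧ (l = a ∨ l = b ∨ l = c ∨ l = d) ∧
      P.A k l ∧ P.A v k ∧ P.B v l := by
  obtain ⟨ab, bc, cd, ac, bd, ad⟩ := hp
  rcases P.tri v a va with ha | ha <;> rcases P.tri v b vb with hb | hb
  · rcases P.tri v c vc with hc | hc
    · rcases P.tri v d vd with hd | hd
      · exfalso
        rcases h2 with h2 | h2 | h2 | h2
        · exact P.ex ha h2
        · exact P.ex hb h2
        · exact P.ex hc h2
        · exact P.ex hd h2
      · exact ⟨c, d, by simp, by simp, cd, hc, hd⟩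
    · exact ⟨b, c, by simp, by simp, bc, hb, hc⟩
  · exact ⟨a, b, by simp, by simp, ab, ha, hb⟩
  · exact ⟨b, a, by simp, by simp, P.sA ab, hb, ha⟩
  · rcases P.tri v c vc with hc | hc
    · exact ⟨c, b, by simp, by simp, P.sA bc, hc, hb⟩
    · rcases P.tri v d vd with hd | hd
      · exact ⟨d, c, by simp, by simp, P.sA cd, hd, hc⟩
      · exfalso
        rcases h1 with h1 | h1 | h1 | h1
        · exact P.ex h1 ha
        · exact P.ex h1 hb
        · exact P.ex h1 hc
        · exact P.ex h1 hd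

/-- (L1) a connected-by-paths set with anticentre `a` has a centre adjacent to `a` -/
theorem l1w (h : Ok P) {a : V} {W : Finset V} (hW : PC P W) (h2 : 2 ≤ W.card)
    (ha : ∀ w ∈ W, P.B a w) : ∃ x, P.A a x ∧ ∀ w ∈ W, P.A x w := by
  classical
  -- an induced path in `W`
  obtain ⟨w0, hw0, w1, hw1, hne⟩ : ∃ x ∈ W, ∃ y ∈ W, x ≠ y := by
    obtain ⟨x, hx, y, hy, hxy⟩ := Finset.one_lt_card.1 (by omega : 1 < W.card)
    exact ⟨x, hx, y, hy, hxy⟩
  obtain ⟨p, q, r, s, hp, pW, qW, rW, sW, -, -⟩ := hW (fun x => x = w0) ⟨w0, hw0, rfl⟩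
    ⟨w1, hw1, fun e => hne e.symm⟩
  obtain ⟨x0, h0a, h0p, h0q, h0r, h0s⟩ := l1p h hp (ha p pW) (ha q qW) (ha r rW) (ha s sW)
  -- candidates
  let T : Finset (Finset V) := W.powerset.filter
    (fun K => PC P K ∧ K.Nonempty ∧ ∃ x, P.A a x ∧ ∀ k ∈ K, P.A x k)
  have hT : T.Nonempty := by
    refine ⟨{p, q, r, s}, ?_⟩
    simp only [T, mem_filter, mem_powerset]
    refine ⟨?_, PC.p4 hp, ⟨p, by simp⟩, x0, h0a, ?_⟩
    · intro u hu
      simp only [mem_insert, mem_singleton] at hu
      rcases hu with rfl | rfl | rfl | rfl <;> assumption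
    · intro u hu
      simp only [mem_insert, mem_singleton] at hu
      rcases hu with rfl | rfl | rfl | rfl <;> assumption
  obtain ⟨K, hKT, hKmax⟩ := Finset.exists_max_image T Finset.card hT
  simp only [T, mem_filter, mem_powerset] at hKT
  obtain ⟨hKW, hPC, hKne, x, hax, hxK⟩ := hKT
  -- it must be everything
  by_cases hKeq : K = W
  · exact ⟨x, hax, hKeq ▸ hxK⟩
  exfalso
  obtain ⟨u0, hu0W, hu0K⟩ : ∃ u ∈ W, u ∉ K := by
    by_contra hcon
    push Not at hcon
    exact hKeq (Finset.Subset.antisymm hKW hcon)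
  -- step 1: vertices outside are not mixed
  have step1 : ∀ w ∈ W, w ∉ K → ∀ k ∈ K, ∀ l ∈ K, P.A w k → P.B w l → False := by
    intro w hw hwK k hk l hl wk wl
    obtain ⟨a', b', c', d', hq, ha', hb', hc', hd', h5, h6⟩ := hPC (fun u => P.A w u)
      ⟨k, hk, wk⟩ ⟨l, hl, fun e => P.ex e wl⟩
    have ne : ∀ {u}, u ∈ K → w ≠ u := fun hu e => hwK (e ▸ hu)
    have h6' : P.B w a' ∨ P.B w b' ∨ P.B w c' ∨ P.B w d' := by
      rcases h6 with h6 | h6 | h6 | h6
      · exact Or.inl ((P.tri _ _ (ne ha')).resolve_left h6)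
      · exact Or.inr (Or.inl ((P.tri _ _ (ne hb')).resolve_left h6))
      · exact Or.inr (Or.inr (Or.inl ((P.tri _ _ (ne hc')).resolve_left h6)))
      · exact Or.inr (Or.inr (Or.inr ((P.tri _ _ (ne hd')).resolve_left h6)))
    rcases P.orAB hax (ha w hw) with hxw | hxw
    · have hmem : insert w K ∈ T := by
        simp only [T, mem_filter, mem_powerset]
        refine ⟨?_, hPC.add h hwK hq ha' hb' hc' hd' h5 h6', ⟨w, mem_insert_self _ _⟩, x, hax,
          ?_⟩
        · intro u hu
          rcases mem_insert.1 hu with rfl | hu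
          · exact hw
          · exact hKW hu
        · intro u hu
          rcases mem_insert.1 hu with rfl | hu
          · exact hxw
          · exact hxK u hu
      have := hKmax _ hmem
      rw [card_insert_of_notMem hwK] at this
      omega
    · obtain ⟨k', l', hk', hl', kl, wk', wl'⟩ := mixEdge hq (ne ha') (ne hb') (ne hc') (ne hd')
        h5 h6'
      have k'K : k' ∈ K := by rcases hk' with rfl | rfl | rfl | rfl <;> assumption
      have l'K : l' ∈ K := by rcases hl' with rfl | rfl | rfl | rfl <;> assumption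
      exact P.ex (r3 h hax (ha _ (hKW k'K)) (ha _ (hKW l'K)) (ha w hw) (hxK _ k'K) (hxK _ l'K)
        hxw kl wk') wl'
  have hom : ∀ w ∈ W, w ∉ K → ∀ k ∈ K, ∀ l ∈ K, P.A w k → P.A w l := by
    intro w hw hwK k hk l hl wk
    rcases P.tri w l (fun e => hwK (e ▸ hl)) with h1 | h1
    · exact h1
    · exact (step1 w hw hwK k hk l hl wk h1).elim
  have homB : ∀ w ∈ W, w ∉ K → ∀ k ∈ K, ∀ l ∈ K, P.B w k → P.B w l := by
    intro w hw hwK k hk l hl wk
    rcases P.tri w l (fun e => hwK (e ▸ hl)) with h1 | h1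
    · exact (step1 w hw hwK l hl k hk h1 wk).elim
    · exact h1
  -- step 2
  obtain ⟨k1, hk1⟩ := hKne
  obtain ⟨e, f, g, i, hq, eW, fW, gW, iW, h5, h6⟩ := hW (fun u => u ∈ K) ⟨k1, hKW hk1, hk1⟩
    ⟨u0, hu0W, hu0K⟩
  obtain ⟨y, hay, hye, hyf, hyg, hyi⟩ := l1p h hq (ha e eW) (ha f fW) (ha g gW) (ha i iW)
  have hq' := hq
  obtain ⟨ef, fg, gi, eg, fi, ei⟩ := hq'
  -- `y` is complete to `K`
  have yK : (∀ k ∈ K, P.A y k) ∧ ∃ k ∈ K, k = e ∨ k = f ∨ k = g ∨ k = i := by
    by_cases he : e ∈ K <;> by_cases hf : f ∈ K <;> by_cases hg : g ∈ K <;> by_cases hi : i ∈ K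
    · exfalso
      rcases h6 with h6 | h6 | h6 | h6
      · exact h6 he
      · exact h6 hf
      · exact h6 hg
      · exact h6 hi
    · exact (step1 i iW hi g hg e he (P.sA gi) (P.sB ei)).elim
    · exact (step1 g gW hg f hf e he (P.sA fg) (P.sB eg)).elim
    · exact (step1 g gW hg f hf e he (P.sA fg) (P.sB eg)).elim
    · exact (step1 f fW hf e he i hi (P.sA ef) fi).elim
    · exact (step1 i iW hi g hg e he (P.sA gi) (P.sB ei)).elim
    · exact (step1 f fW hf e he i hi (P.sA ef) fi).elim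
    · refine ⟨fun k hk => ?_, e, he, by simp⟩
      have hk' : P4 P k f g i := ⟨P.sA (hom f fW hf e he k hk (P.sA ef)), fg, gi,
        P.sB (homB g gW hg e he k hk (P.sB eg)), fi, P.sB (homB i iW hi e he k hk (P.sB ei))⟩
      exact ((att h hk' (ha k (hKW hk)) (ha f fW) (ha g gW) (ha i iW) hay).2.2.1 hyf hyg).1
    · exact (step1 e eW he f hf g hg ef eg).elim
    · exact (step1 e eW he f hf g hg ef eg).elim
    · exact (step1 e eW he f hf i hi ef ei).elim
    · refine ⟨fun k hk => ?_, f, hf, by simp⟩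
      have hk' : P4 P e k g i := ⟨hom e eW he f hf k hk ef,
        P.sA (hom g gW hg f hf k hk (P.sA fg)), gi,
        eg, P.sB (homB i iW hi f hf k hk (P.sB fi)), ei⟩
      exact ((att h hk' (ha e eW) (ha k (hKW hk)) (ha g gW) (ha i iW) hay).2.1 hyg hyi).2
    · exact (step1 f fW hf g hg i hi fg fi).elim
    · refine ⟨fun k hk => ?_, g, hg, by simp⟩
      have hk' : P4 P e f k i := ⟨ef, hom f fW hf g hg k hk fg,
        P.sA (hom i iW hi g hg k hk (P.sA gi)),
        homB e eW he g hg k hk eg, fi, ei⟩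
      exact ((att h hk' (ha e eW) (ha f fW) (ha k (hKW hk)) (ha i iW) hay).1 hye hyf).1
    · refine ⟨fun k hk => ?_, i, hi, by simp⟩
      have hk' : P4 P e f g k := ⟨ef, fg, hom g gW hg i hi k hk gi,
        eg, homB f fW hf i hi k hk fi, homB e eW he i hi k hk ei⟩
      exact ((att h hk' (ha e eW) (ha f fW) (ha g gW) (ha k (hKW hk)) hay).1 hye hyf).2
    · exfalso
      rcases h5 with h5 | h5 | h5 | h5
      · exact he h5
      · exact hf h5
      · exact hg h5
      · exact hi h5
  obtain ⟨yK, k2, hk2, hk2'⟩ := yK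
  have hmem : K ∪ {e, f, g, i} ∈ T := by
    simp only [T, mem_filter, mem_powerset]
    refine ⟨?_, hPC.union hq hk2 hk2', ⟨k1, mem_union_left _ hk1⟩, y, hay, ?_⟩
    · intro u hu
      rcases mem_union.1 hu with hu | hu
      · exact hKW hu
      · simp only [mem_insert, mem_singleton] at hu
        rcases hu with rfl | rfl | rfl | rfl <;> assumption
    · intro u hu
      rcases mem_union.1 hu with hu | hu
      · exact yK u hu
      · simp only [mem_insert, mem_singleton] at hu
        rcases hu with rfl | rfl | rfl | rfl <;> assumption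
  have hle := hKmax _ hmem
  have hlt : K.card < (K ∪ {e, f, g, i}).card := by
    apply card_lt_card
    rw [ssubset_iff_of_subset subset_union_left]
    rcases h6 with h6 | h6 | h6 | h6
    · exact ⟨e, mem_union_right _ (by simp), h6⟩
    · exact ⟨f, mem_union_right _ (by simp), h6⟩
    · exact ⟨g, mem_union_right _ (by simp), h6⟩
    · exact ⟨i, mem_union_right _ (by simp), h6⟩
  omega

/-- the bull in the first case -/
theorem case1 (h : Ok P) {v a c p q r s : V} (hp : P4 P p q r s)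
    (cp : P.A c p) (cq : P.A c q) (cr : P.A c r) (cs : P.A c s)
    (ap : P.B a p) (aq : P.B a q) (ar : P.B a r) (as : P.B a s)
    (vp : v ≠ p) (vq : v ≠ q) (vr : v ≠ r) (vs : v ≠ s)
    (h1 : P.A v p ∨ P.A v q ∨ P.A v r ∨ P.A v s)
    (h2 : P.B v p ∨ P.B v q ∨ P.B v r ∨ P.B v s)
    (vc : P.B v c) (va : P.B v a) (ac : P.A a c) : False := by
  obtain ⟨k, l, hk, hl, kl, vk, vl⟩ := mixEdge hp vp vq vr vs h1 h2
  have ck : P.A c k := by rcases hk with rfl | rfl | rfl | rfl <;> assumption
  have cl : P.A c l := by rcases hl with rfl | rfl | rfl | rfl <;> assumption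
  have ak : P.B a k := by rcases hk with rfl | rfl | rfl | rfl <;> assumption
  have al : P.B a l := by rcases hl with rfl | rfl | rfl | rfl <;> assumption
  exact h.bull c k l a v ck kl (P.sA cl) (P.sA ac) (P.sA vk) (P.sB vc) (P.sB ak) (P.sB al)
    (P.sB vl) (P.sB va)

/-- **Lemma A**: no induced path on four vertices has an anticentre -/
theorem noAnti (h : Ok P) {a p q r s : V} (hp : P4 P p q r s) (ap : P.B a p) (aq : P.B a q)
    (ar : P.B a r) (as : P.B a s) : False := by
  classical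
  obtain ⟨x0, h0a, h0p, h0q, h0r, h0s⟩ := l1p h hp ap aq ar as
  let T : Finset (Finset V) := univ.filter
    (fun K => PC P K ∧ 2 ≤ K.card ∧ (∃ c, ∀ k ∈ K, P.A c k) ∧ (∃ a, ∀ k ∈ K, P.B a k))
  have hT : T.Nonempty := by
    refine ⟨{p, q, r, s}, ?_⟩
    simp only [T, mem_filter, mem_univ, true_and]
    refine ⟨PC.p4 hp, ?_, ⟨x0, ?_⟩, ⟨a, ?_⟩⟩
    · have : ({p, q} : Finset V) ⊆ {p, q, r, s} := by
        intro u hu
        simp only [mem_insert, mem_singleton] at hu ⊢
        tauto
      calc 2 = ({p, q} : Finset V).card := (card_pair (P.neA hp.1)).symm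
        _ ≤ _ := card_le_card this
    · intro u hu
      simp only [mem_insert, mem_singleton] at hu
      rcases hu with rfl | rfl | rfl | rfl <;> assumption
    · intro u hu
      simp only [mem_insert, mem_singleton] at hu
      rcases hu with rfl | rfl | rfl | rfl <;> assumption
  obtain ⟨W, hWT, hWmax⟩ := Finset.exists_max_image T Finset.card hT
  simp only [T, mem_filter, mem_univ, true_and] at hWT
  obtain ⟨hPC, hW2, ⟨c0, hc0⟩, ⟨a0, ha0⟩⟩ := hWT
  have hc0W : c0 ∉ W := fun hh => P.iA _ (hc0 _ hh)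
  obtain ⟨v, hvW, ⟨x, hx, vx⟩, ⟨y, hy, vy⟩⟩ := h.prime W hW2 ⟨c0, hc0W⟩
  obtain ⟨e, f, g, i, hq, eW, fW, gW, iW, h5, h6⟩ := hPC (fun u => P.A v u) ⟨x, hx, vx⟩
    ⟨y, hy, fun hh => P.ex hh vy⟩
  have ne : ∀ {u}, u ∈ W → v ≠ u := fun hu e => hvW (e ▸ hu)
  have h6' : P.B v e ∨ P.B v f ∨ P.B v g ∨ P.B v i := by
    rcases h6 with h6 | h6 | h6 | h6
    · exact Or.inl ((P.tri _ _ (ne eW)).resolve_left h6)
    · exact Or.inr (Or.inl ((P.tri _ _ (ne fW)).resolve_left h6))
    · exact Or.inr (Or.inr (Or.inl ((P.tri _ _ (ne gW)).resolve_left h6)))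
    · exact Or.inr (Or.inr (Or.inr ((P.tri _ _ (ne iW)).resolve_left h6)))
  have hPC' := hPC.add h hvW hq eW fW gW iW h5 h6'
  -- maximality
  have hmax : ¬ ((∃ c, (∀ k ∈ W, P.A c k) ∧ P.A c v) ∧ (∃ a, (∀ k ∈ W, P.B a k) ∧ P.B a v)) := by
    rintro ⟨⟨c, hc, hcv⟩, ⟨a, ha, hav⟩⟩
    have hmem : insert v W ∈ T := by
      simp only [T, mem_filter, mem_univ, true_and]
      refine ⟨hPC', ?_, ⟨c, ?_⟩, ⟨a, ?_⟩⟩
      · rw [card_insert_of_notMem hvW]; omega
      · intro u hu
        rcases mem_insert.1 hu with rfl | hu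
        · exact hcv
        · exact hc u hu
      · intro u hu
        rcases mem_insert.1 hu with rfl | hu
        · exact hav
        · exact ha u hu
    have := hWmax _ hmem
    rw [card_insert_of_notMem hvW] at this
    omega
  -- no centre of `W` is adjacent to `v`
  have noC : ∀ c, (∀ k ∈ W, P.A c k) → P.B v c := by
    intro c hc
    have hvc : P.A v c ∨ P.B v c := by
      apply P.tri
      rintro rfl
      exact P.ex (hc y hy) vy
    rcases hvc with hvc | hvc
    · exfalso
      obtain ⟨a1, hca, ha1⟩ := l1w h.dual (a := c) hPC.dual hW2 hc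
      have hva : P.A v a1 ∨ P.B v a1 := by
        apply P.tri
        rintro rfl
        exact P.ex vx (ha1 x hx)
      rcases hva with hva | hva
      · exact case1 h.dual hq.dual (ha1 f fW) (ha1 i iW) (ha1 e eW) (ha1 g gW)
          (hc f fW) (hc i iW) (hc e eW) (hc g gW) (ne fW) (ne iW) (ne eW) (ne gW)
          (by
            rcases h6' with h | h | h | h
            · exact Or.inr (Or.inr (Or.inl h))
            · exact Or.inl h
            · exact Or.inr (Or.inr (Or.inr h))
            · exact Or.inr (Or.inl h))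
          (by
            rcases h5 with h | h | h | h
            · exact Or.inr (Or.inr (Or.inl h))
            · exact Or.inl h
            · exact Or.inr (Or.inr (Or.inr h))
            · exact Or.inr (Or.inl h)) hva hvc hca
      · exact hmax ⟨⟨c, hc, P.sA hvc⟩, ⟨a1, ha1, P.sB hva⟩⟩
    · exact hvc
  -- every anticentre of `W` is adjacent to `v`
  have allA : ∀ a, (∀ k ∈ W, P.B a k) → P.A v a := by
    intro a ha
    have hva : P.A v a ∨ P.B v a := by
      apply P.tri
      rintro rfl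
      exact P.ex vx (ha x hx)
    rcases hva with hva | hva
    · exact hva
    · exfalso
      obtain ⟨c1, hac, hc1⟩ := l1w h (a := a) hPC hW2 ha
      exact case1 h hq (hc1 e eW) (hc1 f fW) (hc1 g gW) (hc1 i iW)
        (ha e eW) (ha f fW) (ha g gW) (ha i iW) (ne eW) (ne fW) (ne gW) (ne iW) h5 h6'
        (noC c1 hc1) hva hac
  have va := allA a0 ha0
  have vc := noC c0 hc0
  obtain ⟨t1, t2, t3, t4⟩ := att h hq (ha0 e eW) (ha0 f fW) (ha0 g gW) (ha0 i iW) (P.sA va)
  obtain ⟨s1, s2, s3, s4⟩ := att h.dual hq.dual (hc0 f fW) (hc0 i iW) (hc0 e eW) (hc0 g gW)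
    (P.sB vc)
  have ee := P.tri v e (ne eW)
  have ff := P.tri v f (ne fW)
  have gg := P.tri v g (ne gW)
  have ii := P.tri v i (ne iW)
  have xe := @Pr.ex V P v e
  have xf := @Pr.ex V P v f
  have xg := @Pr.ex V P v g
  have xi := @Pr.ex V P v i
  simp only [Pr.dual] at s1 s2 s3 s4
  generalize P.A v e = A1 at *
  generalize P.A v f = A2 at *
  generalize P.A v g = A3 at *
  generalize P.A v i = A4 at *
  generalize P.B v e = B1 at *
  generalize P.B v f = B2 at *
  generalize P.B v g = B3 at *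
  generalize P.B v i = B4 at *
  clear noC allA hmax hPC' hWmax hT hc0 ha0 hPC va vc hx hy vx vy ne
  rcases ee with ee | ee <;> rcases ff with ff | ff <;> rcases gg with gg | gg <;>
    rcases ii with ii | ii <;> simp_all

theorem noCen (h : Ok P) {c p q r s : V} (hp : P4 P p q r s) (cp : P.A c p) (cq : P.A c q)
    (cr : P.A c r) (cs : P.A c s) : False :=
  noAnti h.dual hp.dual cq cs cp cr

end Pool.Agent.R40.FiveSC
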