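import Mathlib
import Pool.Agent.R40.FiveSCb

/-!
# The structure around a vertex with a private pair, and the smallest-half argument
-/

namespace Pool.Agent.R40.FiveSC

open Finset

variable {V : Type} [Fintype V] {P : Pr V}

/-- the structure around `c` -/
structure Cfg (P : Pr V) (c : V) (X1 M1 X2 M2 : Finset V) : Prop where
  x1 : ∀ x ∈ X1, P.A c x
  x2 : ∀ x ∈ X2, P.A c x
  m1 : ∀ m ∈ M1, P.B c m
  m2 : ∀ m ∈ M2, P.B c m
  all : ∀ v, v = c ∨ v ∈ X1 ∨ v ∈ X2 ∨ v ∈ M1 ∨ v ∈ M2
  xx : ∀ x ∈ X1, ∀ y ∈ X2, P.B x y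
  x1m2 : ∀ x ∈ X1, ∀ m ∈ M2, P.A x m
  x2m1 : ∀ x ∈ X2, ∀ m ∈ M1, P.A x m
  mm : ∀ m ∈ M1, ∀ q ∈ M2, P.B m q
  mix1 : ∀ m ∈ M1, (∃ x ∈ X1, P.A m x) ∧ (∃ y ∈ X1, P.B m y)
  mix2 : ∀ m ∈ M2, (∃ x ∈ X2, P.A m x) ∧ (∃ y ∈ X2, P.B m y)
  ne1 : M1.Nonempty
  ne2 : M2.Nonempty
  con1 : ∀ f : V → Prop, (∃ x ∈ X1, f x) → (∃ y ∈ X1, ¬ f y) →
    ∃ x ∈ X1, ∃ y ∈ X1, f x ∧ ¬ f y ∧ P.A x y
  con2 : ∀ f : V → Prop, (∃ x ∈ X2, f x) → (∃ y ∈ X2, ¬ f y) →
    ∃ x ∈ X2, ∃ y ∈ X2, f x ∧ ¬ f y ∧ P.A x y

omit [Fintype V] in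
theorem Cfg.swap {c : V} {X1 M1 X2 M2 : Finset V} (h : Cfg P c X1 M1 X2 M2) :
    Cfg P c X2 M2 X1 M1 where
  x1 := h.x2
  x2 := h.x1
  m1 := h.m2
  m2 := h.m1
  all v := by
    rcases h.all v with h1 | h1 | h1 | h1 | h1
    · exact Or.inl h1
    · exact Or.inr (Or.inr (Or.inl h1))
    · exact Or.inr (Or.inl h1)
    · exact Or.inr (Or.inr (Or.inr (Or.inr h1)))
    · exact Or.inr (Or.inr (Or.inr (Or.inl h1)))
  xx x hx y hy := P.sB (h.xx y hy x hx)
  x1m2 := h.x2m1
  x2m1 := h.x1m2
  mm m hm q hq := P.sB (h.mm q hq m hm)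
  mix1 := h.mix2
  mix2 := h.mix1
  ne1 := h.ne2
  ne2 := h.ne1
  con1 := h.con2
  con2 := h.con1

/-- `x` is in the component of `a` inside the neighbourhood of `c` -/
def Co (P : Pr V) (c a x : V) : Prop :=
  P.A c x ∧ (x = a ∨ P.A x a ∨ ∃ y, P.A c y ∧ P.A x y ∧ P.A y a)

theorem Co.step (h : Ok P) {c a x x' : V} (ca : P.A c a) (hx : Co P c a x) (cx' : P.A c x')
    (xx' : P.A x x') : Co P c a x' := by
  obtain ⟨cx, hx⟩ := hx
  refine ⟨cx', ?_⟩
  by_cases e1 : x' = a
  · exact Or.inl e1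
  rcases P.tri x' a e1 with h1 | h1
  · exact Or.inr (Or.inl h1)
  rcases hx with rfl | hx | ⟨y, cy, xy, ya⟩
  · exact Or.inr (Or.inl (P.sA xx'))
  · exact Or.inr (Or.inr ⟨x, cx, P.sA xx', hx⟩)
  · by_cases e2 : x = a
    · exact Or.inr (Or.inl (e2 ▸ P.sA xx'))
    rcases P.tri x a e2 with h2 | h2
    · exact Or.inr (Or.inr ⟨x, cx, P.sA xx', h2⟩)
    · by_cases e3 : x' = y
      · exact Or.inr (Or.inl (e3 ▸ ya))
      rcases P.tri x' y e3 with h3 | h3
      · exact Or.inr (Or.inr ⟨y, cy, h3, ya⟩)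
      · exact (noCen h (c := c) (p := x') (q := x) (r := y) (s := a)
          ⟨P.sA xx', xy, ya, h3, h2, h1⟩ cx' cx cy ca).elim

omit [Fintype V] in
theorem Co.self {c a : V} (ca : P.A c a) : Co P c a a := ⟨ca, Or.inl rfl⟩

/-- if `a` and `b` lie in the component of a common vertex then `b` is in that of `a` -/
theorem Co.meet (h : Ok P) {c a b x : V} (ca : P.A c a) (cb : P.A c b) (h1 : Co P c a x)
    (h2 : Co P c b x) : Co P c a b := by
  obtain ⟨cx, h2⟩ := h2
  rcases h2 with rfl | h2 | ⟨y, cy, xy, yb⟩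
  · exact h1
  · exact h1.step h ca cb h2
  · exact (h1.step h ca cy xy).step h ca cb yb

omit [Fintype V] in
theorem Co.con {c a : V} (ca : P.A c a) (f : V → Prop) (hx : ∃ x, Co P c a x ∧ f x)
    (hy : ∃ y, Co P c a y ∧ ¬ f y) :
    ∃ x y, Co P c a x ∧ Co P c a y ∧ f x ∧ ¬ f y ∧ P.A x y := by
  obtain ⟨x, hx, fx⟩ := hx
  obtain ⟨y, hy, fy⟩ := hy
  have haa : Co P c a a := Co.self ca
  by_cases fa : f a
  · obtain ⟨cy, h1⟩ := hy
    rcases h1 with rfl | h1 | ⟨z, cz, yz, za⟩
    · exact (fy fa).elim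
    · exact ⟨a, y, haa, ⟨cy, Or.inr (Or.inl h1)⟩, fa, fy, P.sA h1⟩
    · have hz : Co P c a z := ⟨cz, Or.inr (Or.inl za)⟩
      by_cases fz : f z
      · exact ⟨z, y, hz, ⟨cy, Or.inr (Or.inr ⟨z, cz, yz, za⟩)⟩, fz, fy, P.sA yz⟩
      · exact ⟨a, z, haa, hz, fa, fz, P.sA za⟩
  · obtain ⟨cx, h1⟩ := hx
    rcases h1 with rfl | h1 | ⟨z, cz, xz, za⟩
    · exact (fa fx).elim
    · exact ⟨x, a, ⟨cx, Or.inr (Or.inl h1)⟩, haa, fx, fa, h1⟩
    · have hz : Co P c a z := ⟨cz, Or.inr (Or.inl za)⟩
      by_cases fz : f z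
      · exact ⟨z, a, hz, haa, fz, fa, za⟩
      · exact ⟨x, z, ⟨cx, Or.inr (Or.inr ⟨z, cz, xz, za⟩)⟩, hz, fx, fz, xz⟩

/-- **Structure theorem** for a vertex that is the only common neighbour of `a` and `b` -/
theorem exists_cfg (h : Ok P) {c a b : V} (ab : P.B a b) (ca : P.A c a) (cb : P.A c b)
    (uniq : ∀ w, P.A w a → P.A w b → w = c) :
    ∃ X1 M1 X2 M2 : Finset V, Cfg P c X1 M1 X2 M2 := by
  classical
  -- `b` is not in the component of `a`
  have hb : ¬ Co P c a b := by
    rintro ⟨-, h1⟩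
    rcases h1 with h1 | h1 | ⟨y, cy, by', ya⟩
    · exact P.neB ab h1.symm
    · exact P.ex (P.sA h1) ab
    · exact P.neA cy (uniq y ya (P.sA by')).symm
  have ha : ¬ Co P c b a := by
    intro h1
    exact hb (Co.meet h ca cb (Co.self ca) h1)
  have disj : ∀ x, Co P c a x → Co P c b x → False := fun x h1 h2 =>
    hb (Co.meet h ca cb h1 h2)
  have anti : ∀ x y, Co P c a x → Co P c b y → P.B x y := by
    intro x y h1 h2
    by_cases e : x = y
    · exact (disj x h1 (e ▸ h2)).elim
    rcases P.tri x y e with h3 | h3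
    · exact (disj y (h1.step h ca h2.1 h3) h2).elim
    · exact h3
  -- every nonneighbour misses `a` or `b`
  have miss : ∀ m, P.B c m → P.B a m ∨ P.B b m := by
    intro m hm
    have h1 := P.orAB ca hm
    have h2 := P.orAB cb hm
    rcases h1 with h1 | h1
    · rcases h2 with h2 | h2
      · have := uniq m (P.sA h1) (P.sA h2)
        exact (P.neB hm this.symm).elim
      · exact Or.inr h2
    · exact Or.inl h1
  -- first case vertices
  let I : V → Prop := fun m => P.B c m ∧ ∀ x y, P.A c x → P.A c y → P.A x m → P.B y m → P.B x y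
  -- a first case vertex is nonadjacent to `a` and `b`
  have aux : ∀ a b, P.B a b → P.A c a → P.A c b → (∀ w, P.A w a → P.A w b → w = c) →
      ∀ m, I m → P.B a m := by
    intro a b ab ca cb uniq m hm
    obtain ⟨cm, hI⟩ := hm
    rcases P.orAB ca cm with h1 | h1
    · exfalso
      have hbm : P.B b m := by
        rcases P.orAB cb cm with h2 | h2
        · exact (P.neB cm (uniq m (P.sA h1) (P.sA h2)).symm).elim
        · exact h2
      obtain ⟨w, wb, wm⟩ := h.cn b m hbm
      have hwc : w ≠ c := by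
        rintro rfl
        exact P.ex wm cm
      rcases P.tri w c hwc with h3 | h3
      · exact P.ex wb (hI w b (P.sA h3) cb wm hbm)
      · have haw : P.A a w ∨ P.B a w := P.orAB ca (P.sB h3)
        rcases haw with h4 | h4
        · exact hwc (uniq w (P.sA h4) wb)
        · exact P.ex ((r1 h ca cb cm (P.sB h3) h1 h4 (P.sA wb) hbm).1 (P.sA wm)) ab
    · exact h1
  have Ia : ∀ m, I m → P.B a m := aux a b ab ca cb uniq
  have Ib : ∀ m, I m → P.B b m := aux b a (P.sB ab) cb ca (fun w h1 h2 => uniq w h2 h1)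
  -- second case vertices
  have II : ∀ m, P.B c m → ¬ I m →
      ((∀ y, P.A c y → P.B y m → Co P c a y) ∧ ∃ x, Co P c a x ∧ P.A x m) ∨
      ((∀ y, P.A c y → P.B y m → Co P c b y) ∧ ∃ x, Co P c b x ∧ P.A x m) := by
    intro m hm hI
    obtain ⟨x, y, cx, cy, xm, ym, nxy⟩ : ∃ x y, P.A c x ∧ P.A c y ∧ P.A x m ∧ P.B y m ∧
        ¬ P.B x y := by
      by_contra hcon
      push Not at hcon
      exact hI ⟨hm, fun x y h1 h2 h3 h4 => hcon x y h1 h2 h3 h4⟩
    have xy : P.A x y :=
      (P.tri x y (fun e => P.ex xm (e ▸ ym))).resolve_right nxy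
    -- every nonneighbour `z` of `m` in `N(c)` is in the component of `x`
    have hz : ∀ z, P.A c z → P.B z m → Co P c x z := by
      intro z cz zm
      refine ⟨cz, ?_⟩
      have hzx : z ≠ x := fun e => P.ex xm (e ▸ zm)
      rcases P.tri z x hzx with h1 | h1
      · exact Or.inr (Or.inl h1)
      · by_cases e : z = y
        · exact Or.inr (Or.inl (e ▸ P.sA xy))
        · exact Or.inr (Or.inr ⟨y, cy, r2 h hm cx cz cy xm zm ym (P.sA xy) h1 e, P.sA xy⟩)
    rcases miss m hm with h1 | h1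
    · left
      have hax : Co P c x a := hz a ca h1
      have hxa : Co P c a x := Co.meet h ca cx (Co.self ca) hax
      refine ⟨fun z cz zm => ?_, x, hxa, xm⟩
      have hz1 := hz z cz zm
      exact Co.meet h ca cz hxa (by
        have : Co P c z x := Co.meet h cz cx (Co.self cz) hz1
        exact this)
    · right
      have hax : Co P c x b := hz b cb h1
      have hxa : Co P c b x := Co.meet h cb cx (Co.self cb) hax
      refine ⟨fun z cz zm => ?_, x, hxa, xm⟩
      have hz1 := hz z cz zm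
      exact Co.meet h cb cz hxa (Co.meet h cz cx (Co.self cz) hz1)
  -- there is no first case vertex
  have noI : ∀ m, ¬ I m := by
    intro m0 hm0
    let S : Finset V := univ.filter I
    have hS : S.Nonempty := ⟨m0, by simp [S, hm0]⟩
    obtain ⟨m1, hm1, hmin⟩ := Finset.exists_min_image S
      (fun m => (univ.filter (fun x => P.A c x ∧ P.A x m)).card) hS
    replace hm1 : I m1 := by simpa [S] using hm1
    obtain ⟨x0, x0c, x0m⟩ := h.cn c m1 hm1.1
    replace x0c := P.sA x0c
    -- `x0` is complete to the nonneighbours of `c`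
    have hfull : ∀ m, P.B c m → P.A x0 m := by
      intro m hm
      rcases P.orAB x0c hm with h1 | h1
      · exact h1
      exfalso
      by_cases hI : I m
      · have hle := hmin m (by simp [S, hI])
        have hsub : (univ.filter (fun x => P.A c x ∧ P.A x m)) ⊆
            (univ.filter (fun x => P.A c x ∧ P.A x m1)).erase x0 := by
          intro x hx
          simp only [mem_filter, mem_univ, true_and] at hx
          simp only [mem_erase, mem_filter, mem_univ, true_and]
          obtain ⟨cx, xm⟩ := hx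
          refine ⟨fun e => P.ex xm (e ▸ h1), cx, ?_⟩
          rcases P.orAB cx hm1.1 with h2 | h2
          · exact h2
          exfalso
          -- `x0` sees only `m1`, `x` sees only `m`
          have h3 : P.B x0 x := hm1.2 x0 x x0c cx x0m h2
          have h4 : P.B m1 m := by
            have hne : m1 ≠ m := by
              rintro rfl
              exact P.ex xm h2
            rcases P.tri m1 m hne with h5 | h5
            · exact (P.ex ((r1 h x0c cx hm1.1 hm x0m h1 xm h2).1 h5) h3).elim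
            · exact h5
          have hax0 : P.B a x0 := by
            have := hm1.2 x0 a x0c ca x0m (Ia m1 hm1)
            exact P.sB this
          exact noAnti h (a := m) (p := a) (q := c) (r := x0) (s := m1)
            ⟨P.sA ca, x0c, x0m, hax0, hm1.1, Ia m1 hm1⟩ (P.sB (Ia m hI)) (P.sB hm) (P.sB h1)
            (P.sB h4)
        have hx0mem : x0 ∈ univ.filter (fun x => P.A c x ∧ P.A x m1) := by
          simp [x0c, x0m]
        have h5 := card_le_card hsub
        rw [card_erase_of_mem hx0mem] at h5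
        have h6 : 0 < (univ.filter (fun x => P.A c x ∧ P.A x m1)).card :=
          card_pos.2 ⟨x0, hx0mem⟩
        omega
      · -- second case
        have nota : ∀ a, P.A c a → P.B a m1 → ¬ Co P c a x0 := by
          rintro a ca am ⟨-, h2⟩
          rcases h2 with rfl | h2 | ⟨y, cy, xy, ya⟩
          · exact P.ex x0m am
          · exact P.ex h2 (hm1.2 x0 a x0c ca x0m am)
          · rcases P.orAB cy hm1.1 with h3 | h3
            · exact P.ex ya (hm1.2 y a cy ca h3 am)
            · exact P.ex xy (hm1.2 x0 y x0c cy x0m h3)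
        rcases II m hm hI with ⟨h2, -⟩ | ⟨h2, -⟩
        · exact nota a ca (Ia m1 hm1) (h2 x0 x0c h1)
        · exact nota b cb (Ib m1 hm1) (h2 x0 x0c h1)
    obtain ⟨w, wc, wx⟩ := h.cc c x0 x0c
    exact P.ex (hfull w (P.sB wc)) (P.sB wx)
  -- all vertices are of the second case
  have all2 : ∀ m, P.B c m →
      ((∀ y, P.A c y → P.B y m → Co P c a y) ∧ ∃ x, Co P c a x ∧ P.A x m) ∨
      ((∀ y, P.A c y → P.B y m → Co P c b y) ∧ ∃ x, Co P c b x ∧ P.A x m) :=
    fun m hm => II m hm (noI m)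
  let X1 : Finset V := univ.filter (fun x => Co P c a x)
  let X2 : Finset V := univ.filter (fun x => Co P c b x)
  let M1 : Finset V := univ.filter (fun m => P.B c m ∧
    (∀ y, P.A c y → P.B y m → Co P c a y) ∧ ∃ x, Co P c a x ∧ P.A x m)
  let M2 : Finset V := univ.filter (fun m => P.B c m ∧
    (∀ y, P.A c y → P.B y m → Co P c b y) ∧ ∃ x, Co P c b x ∧ P.A x m)
  have nonempty1 : ∀ m, P.B c m → ∃ y, P.A c y ∧ P.B y m := by
    intro m hm
    rcases miss m hm with h1 | h1
    · exact ⟨a, ca, h1⟩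
    · exact ⟨b, cb, h1⟩
  refine ⟨X1, M1, X2, M2, ?_⟩
  constructor
  · intro x hx
    simp only [X1, mem_filter, mem_univ, true_and] at hx
    exact hx.1
  · intro x hx
    simp only [X2, mem_filter, mem_univ, true_and] at hx
    exact hx.1
  · intro x hx
    simp only [M1, mem_filter, mem_univ, true_and] at hx
    exact hx.1
  · intro x hx
    simp only [M2, mem_filter, mem_univ, true_and] at hx
    exact hx.1
  · intro v
    simp only [X1, X2, M1, M2, mem_filter, mem_univ, true_and]
    by_cases e : v = c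
    · exact Or.inl e
    rcases P.tri v c e with h1 | h1
    · by_cases h2 : Co P c a v
      · exact Or.inr (Or.inl h2)
      by_cases h3 : Co P c b v
      · exact Or.inr (Or.inr (Or.inl h3))
      exfalso
      obtain ⟨w, wc, wv⟩ := h.cc c v (P.sA h1)
      rcases all2 w (P.sB wc) with ⟨h4, -⟩ | ⟨h4, -⟩
      · exact h2 (h4 v (P.sA h1) (P.sB wv))
      · exact h3 (h4 v (P.sA h1) (P.sB wv))
    · rcases all2 v (P.sB h1) with h2 | h2
      · exact Or.inr (Or.inr (Or.inr (Or.inl ⟨P.sB h1, h2⟩)))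
      · exact Or.inr (Or.inr (Or.inr (Or.inr ⟨P.sB h1, h2⟩)))
  · intro x hx y hy
    simp only [X1, X2, mem_filter, mem_univ, true_and] at hx hy
    exact anti x y hx hy
  · intro x hx m hm
    simp only [X1, M2, mem_filter, mem_univ, true_and] at hx hm
    rcases P.orAB hx.1 hm.1 with h1 | h1
    · exact h1
    · exact (disj x hx (hm.2.1 x hx.1 h1)).elim
  · intro x hx m hm
    simp only [X2, M1, mem_filter, mem_univ, true_and] at hx hm
    rcases P.orAB hx.1 hm.1 with h1 | h1
    · exact h1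
    · exact (disj x (hm.2.1 x hx.1 h1) hx).elim
  · intro m hm q hq
    simp only [M1, M2, mem_filter, mem_univ, true_and] at hm hq
    obtain ⟨cm, hm1, -⟩ := hm
    obtain ⟨cq, hq1, -⟩ := hq
    obtain ⟨y, cy, ym⟩ := nonempty1 m cm
    obtain ⟨z, cz, zq⟩ := nonempty1 q cq
    have hy := hm1 y cy ym
    have hz := hq1 z cz zq
    have yq : P.A y q := by
      rcases P.orAB cy cq with h1 | h1
      · exact h1
      · exact (disj y hy (hq1 y cy h1)).elim
    have zm : P.A z m := by
      rcases P.orAB cz cm with h1 | h1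
      · exact h1
      · exact (disj z (hm1 z cz h1) hz).elim
    have hne : m ≠ q := by
      rintro rfl
      exact P.ex zm zq
    rcases P.tri m q hne with h1 | h1
    · exact (P.ex ((r1 h cz cy cm cq zm zq yq ym).1 h1) (P.sB (anti y z hy hz))).elim
    · exact h1
  · intro m hm
    simp only [M1, mem_filter, mem_univ, true_and] at hm
    obtain ⟨cm, hm1, x, hx, xm⟩ := hm
    obtain ⟨y, cy, ym⟩ := nonempty1 m cm
    exact ⟨⟨x, by simp [X1, hx], P.sA xm⟩, ⟨y, by simp [X1, hm1 y cy ym], P.sB ym⟩⟩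
  · intro m hm
    simp only [M2, mem_filter, mem_univ, true_and] at hm
    obtain ⟨cm, hm1, x, hx, xm⟩ := hm
    obtain ⟨y, cy, ym⟩ := nonempty1 m cm
    exact ⟨⟨x, by simp [X2, hx], P.sA xm⟩, ⟨y, by simp [X2, hm1 y cy ym], P.sB ym⟩⟩
  · obtain ⟨w, wc, wa⟩ := h.cc c a ca
    refine ⟨w, ?_⟩
    simp only [M1, mem_filter, mem_univ, true_and]
    refine ⟨P.sB wc, ?_⟩
    rcases all2 w (P.sB wc) with h1 | h1
    · exact h1
    · exact (ha (h1.1 a ca (P.sB wa))).elim
  · obtain ⟨w, wc, wb⟩ := h.cc c b cb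
    refine ⟨w, ?_⟩
    simp only [M2, mem_filter, mem_univ, true_and]
    refine ⟨P.sB wc, ?_⟩
    rcases all2 w (P.sB wc) with h1 | h1
    · exact (hb (h1.1 b cb (P.sB wb))).elim
    · exact h1
  · intro f hx hy
    simp only [X1, mem_filter, mem_univ, true_and] at hx hy ⊢
    obtain ⟨x, y, h1, h2, h3, h4, h5⟩ := Co.con ca f hx hy
    exact ⟨x, h1, y, h2, h3, h4, h5⟩
  · intro f hx hy
    simp only [X2, mem_filter, mem_univ, true_and] at hx hy ⊢
    obtain ⟨x, y, h1, h2, h3, h4, h5⟩ := Co.con cb f hx hy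
    exact ⟨x, h1, y, h2, h3, h4, h5⟩

omit [Fintype V] in
theorem descent [DecidableEq V] {z : V} {X1 M1 L2 Q2 : Finset V} {n : ℕ}
    (hz : z ∈ M1) (hn : X1.card + M1.card = n)
    (hL : ∀ x ∈ L2, P.A z x) (hQ : ∀ x ∈ Q2, P.B z x)
    (sub : ∀ x, x ∈ L2 ∨ x ∈ Q2 → x ∈ X1 ∨ x ∈ M1) : L2.card + Q2.card < n := by
  have hdis : Disjoint L2 Q2 := by
    rw [Finset.disjoint_left]
    intro x hx hx'
    exact P.ex (hL x hx) (hQ x hx')
  rw [← card_union_of_disjoint hdis]
  have h1 : L2 ∪ Q2 ⊆ (X1 ∪ M1).erase z := by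
    intro x hx
    rw [mem_union] at hx
    rw [mem_erase, mem_union]
    refine ⟨?_, sub x hx⟩
    rintro rfl
    rcases hx with hx | hx
    · exact P.iA _ (hL _ hx)
    · exact P.iB _ (hQ _ hx)
  have h2 := card_le_card h1
  rw [card_erase_of_mem (mem_union_right _ hz)] at h2
  have h3 := card_union_le X1 M1
  have h4 : 0 < (X1 ∪ M1).card := card_pos.2 ⟨z, mem_union_right _ hz⟩
  omega

/-- the smallest-half argument -/
theorem noCfg (n : ℕ) : ∀ (P : Pr V), Ok P → ∀ (c : V) (X1 M1 X2 M2 : Finset V),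
    Cfg P c X1 M1 X2 M2 → X1.card + M1.card = n → False := by
  classical
  induction n using Nat.strong_induction_on with
  | _ n ih =>
    intro P h c X1 M1 X2 M2 hc hn
    obtain ⟨z, hz⟩ := hc.ne1
    have cz := hc.m1 z hz
    -- `X2` is not empty
    obtain ⟨q0, hq0⟩ := hc.ne2
    obtain ⟨⟨x20, hx20, -⟩, -⟩ := hc.mix2 q0 hq0
    rcases h.priv z with ⟨a, b, ab, za, zb, uniq⟩ | ⟨a, b, ab, za, zb, uniq⟩
    · obtain ⟨L1, Q1, L2, Q2, hd⟩ := exists_cfg h ab za zb uniq
      -- we may assume that `X2` is inside `L1`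
      have main : ∀ L1 Q1 L2 Q2 : Finset V, Cfg P z L1 Q1 L2 Q2 → x20 ∈ L1 → False := by
        intro L1 Q1 L2 Q2 hd hx1
        have hX2 : ∀ x ∈ X2, x ∈ L1 := by
          intro x hx
          by_contra hcon
          obtain ⟨u, hu, w, hw, u1, w1, uw⟩ := hc.con2 (fun x => x ∈ L1) ⟨x20, hx20, hx1⟩
            ⟨x, hx, hcon⟩
          have hwz : P.A z w := P.sA (hc.x2m1 w hw z hz)
          rcases hd.all w with h1 | h1 | h1 | h1 | h1
          · exact P.iA z (h1 ▸ hwz)
          · exact w1 h1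
          · exact P.ex uw (hd.xx u u1 w h1)
          · exact P.ex hwz (hd.m1 w h1)
          · exact P.ex hwz (hd.m2 w h1)
        -- `L2` is inside `X1`
        have hL2 : ∀ x ∈ L2, x ∈ X1 := by
          intro x hx
          have zx := hd.x2 x hx
          rcases hc.all x with h1 | h1 | h1 | h1 | h1
          · exact (P.ex zx (P.sB (h1 ▸ cz))).elim
          · exact h1
          · exact (P.iB x (hd.xx x (hX2 x h1) x hx)).elim
          · exact (P.ex (hc.x2m1 x20 hx20 x h1) (hd.xx x20 hx1 x hx)).elim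
          · exact (P.ex zx (hc.mm z hz x h1)).elim
        have hQ2 : ∀ x ∈ Q2, x ∈ X1 ∨ x ∈ M1 := by
          intro x hx
          have zx := hd.m2 x hx
          obtain ⟨-, y, hy, xy⟩ := hd.mix2 x hx
          rcases hc.all x with h1 | h1 | h1 | h1 | h1
          · subst h1
            exact (P.ex (hc.x1 y (hL2 y hy)) xy).elim
          · exact Or.inl h1
          · exact (P.ex (hc.x2m1 x h1 z hz) (P.sB zx)).elim
          · exact Or.inr h1
          · exact (P.ex (hc.x1m2 y (hL2 y hy) x h1) (P.sB xy)).elim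
        have hlt : L2.card + Q2.card < n := by
          refine descent (P := P) hz hn hd.x2 hd.m2 ?_
          rintro x (hx | hx)
          · exact Or.inl (hL2 x hx)
          · exact hQ2 x hx
        exact ih _ hlt P h z L2 Q2 L1 Q1 hd.swap rfl
      have hzx : P.A z x20 := P.sA (hc.x2m1 x20 hx20 z hz)
      rcases hd.all x20 with h1 | h1 | h1 | h1 | h1
      · exact P.iA z (h1 ▸ hzx)
      · exact main _ _ _ _ hd h1
      · exact main _ _ _ _ hd.swap h1
      · exact P.ex hzx (hd.m1 _ h1)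
      · exact P.ex hzx (hd.m2 _ h1)
    · obtain ⟨L1, Q1, L2, Q2, hd⟩ := exists_cfg h.dual (c := z) (a := a) (b := b) ab za zb uniq
      have main : ∀ L1 Q1 L2 Q2 : Finset V, Cfg P.dual z L1 Q1 L2 Q2 → c ∈ L1 → False := by
        intro L1 Q1 L2 Q2 hd hc1
        have hM2 : ∀ q ∈ M2, q ∈ L1 := by
          intro q hq
          have hzq : P.B z q := hc.mm z hz q hq
          rcases hd.all q with h1 | h1 | h1 | h1 | h1
          · exact (P.iB z (h1 ▸ hzq)).elim
          · exact h1
          · have : P.A c q := hd.xx c hc1 q h1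
            exact (P.ex this (hc.m2 q hq)).elim
          · have : P.A z q := hd.m1 q h1
            exact (P.ex this hzq).elim
          · have : P.A z q := hd.m2 q h1
            exact (P.ex this hzq).elim
        have hX2 : ∀ x ∈ X2, x ∈ Q1 := by
          intro x hx
          have hzx : P.A z x := P.sA (hc.x2m1 x hx z hz)
          rcases hd.all x with h1 | h1 | h1 | h1 | h1
          · exact (P.iA z (h1 ▸ hzx)).elim
          · have : P.B z x := hd.x1 x h1
            exact (P.ex hzx this).elim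
          · have : P.B z x := hd.x2 x h1
            exact (P.ex hzx this).elim
          · exact h1
          · have : P.B c x := hd.x1m2 c hc1 x h1
            exact (P.ex (hc.x2 x hx) this).elim
        have sub : ∀ x, x ∈ L2 ∨ x ∈ Q2 → x ∈ X1 ∨ x ∈ M1 := by
          intro x hx
          have not1 : x ∉ L1 := by
            intro h1
            rcases hx with hx | hx
            · have : P.A x x := hd.xx x h1 x hx
              exact P.iA _ this
            · have e1 : P.B z x := hd.x1 x h1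
              have e2 : P.A z x := hd.m2 x hx
              exact P.ex e2 e1
          have not2 : x ∉ Q1 := by
            intro h1
            rcases hx with hx | hx
            · have e1 : P.B z x := hd.x2 x hx
              have e2 : P.A z x := hd.m1 x h1
              exact P.ex e2 e1
            · have : P.A x x := hd.mm x h1 x hx
              exact P.iA _ this
          rcases hc.all x with h1 | h1 | h1 | h1 | h1
          · subst h1
            exact (not1 hc1).elim
          · exact Or.inl h1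
          · exact (not2 (hX2 x h1)).elim
          · exact Or.inr h1
          · exact (not1 (hM2 x h1)).elim
        have hlt : L2.card + Q2.card < n :=
          descent (P := P.dual) hz hn hd.x2 hd.m2 sub
        exact ih _ hlt P.dual h.dual z L2 Q2 L1 Q1 hd.swap rfl
      have hzc : P.B z c := P.sB cz
      rcases hd.all c with h1 | h1 | h1 | h1 | h1
      · exact P.iB z (h1 ▸ hzc)
      · exact main _ _ _ _ hd h1
      · exact main _ _ _ _ hd.swap h1
      · have : P.A z c := hd.m1 c h1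
        exact P.ex this hzc
      · have : P.A z c := hd.m2 c h1
        exact P.ex this hzc

/-- **no graph satisfies the standing hypotheses** (on a nonempty vertex set) -/
theorem notOk [Nonempty V] (P : Pr V) (h : Ok P) : False := by
  obtain ⟨v⟩ := ‹Nonempty V›
  rcases h.priv v with ⟨a, b, ab, va, vb, uniq⟩ | ⟨a, b, ab, va, vb, uniq⟩
  · obtain ⟨X1, M1, X2, M2, hc⟩ := exists_cfg h ab va vb uniq
    exact noCfg _ P h v X1 M1 X2 M2 hc rfl
  · obtain ⟨X1, M1, X2, M2, hc⟩ := exists_cfg h.dual (c := v) (a := a) (b := b) ab va vb uniq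
    exact noCfg _ P.dual h.dual v X1 M1 X2 M2 hc rfl

end Pool.Agent.R40.FiveSC
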