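import Mathlib
import Pool.Agent.R40.FiveSCc

/-!
# Reduction to a minimal graph, and regular graphs
-/

namespace Pool.Agent.R40.FiveSC

open Finset

variable {V : Type}

/-- both diameters of the graph induced on `S` are at most two, and `S` has two elements -/
def Both (P : Pr V) (S : Finset V) : Prop :=
  2 ≤ S.card ∧ (∀ u ∈ S, ∀ v ∈ S, P.B u v → ∃ w ∈ S, P.A w u ∧ P.A w v) ∧
    (∀ u ∈ S, ∀ v ∈ S, P.A u v → ∃ w ∈ S, P.B w u ∧ P.B w v)

/-- restriction to a subset -/
def Pr.on (P : Pr V) (S : Finset V) : Pr {x // x ∈ S} :=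
  ⟨fun u v => P.A u.1 v.1, fun u v => P.B u.1 v.1, P.sA, P.sB, fun u => P.iA u.1,
    fun u => P.iB u.1, P.ex, fun u v h => P.tri u.1 v.1 (fun e => h (Subtype.ext e))⟩

theorem card3 {P : Pr V} {S : Finset V} (h : Both P S) : 3 ≤ S.card := by
  classical
  obtain ⟨h2, hB, hA⟩ := h
  obtain ⟨x, hx, y, hy, hxy⟩ := Finset.one_lt_card.1 (by omega : 1 < S.card)
  obtain ⟨w, hw, wx, wy⟩ : ∃ w ∈ S, w ≠ x ∧ w ≠ y := by
    rcases P.tri x y hxy with h1 | h1
    · obtain ⟨w, hw, h3, h4⟩ := hA x hx y hy h1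
      exact ⟨w, hw, P.neB h3, P.neB h4⟩
    · obtain ⟨w, hw, h3, h4⟩ := hB x hx y hy h1
      exact ⟨w, hw, P.neA h3, P.neA h4⟩
  have : ({w, x, y} : Finset V) ⊆ S := by
    intro u hu
    simp only [mem_insert, mem_singleton] at hu
    rcases hu with rfl | rfl | rfl <;> assumption
  have h5 := card_le_card this
  rw [card_eq_three.2 ⟨w, x, y, wx, wy, hxy, rfl⟩] at h5
  exact h5

theorem prime_min {P : Pr V} {S : Finset V} (hS : Both P S)
    (hmin : ∀ T, T.card < S.card → ¬ Both P T) {W : Finset V} (hWS : W ⊆ S) (hW : 2 ≤ W.card)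
    {u : V} (hu : u ∈ S) (huW : u ∉ W) :
    ∃ v ∈ S, v ∉ W ∧ (∃ x ∈ W, P.A v x) ∧ (∃ y ∈ W, P.B v y) := by
  classical
  by_contra hcon
  push Not at hcon
  obtain ⟨w0, hw0, w1, hw1, hne⟩ := Finset.one_lt_card.1 (by omega : 1 < W.card)
  have hw0S := hWS hw0
  have hw1S := hWS hw1
  -- vertices outside `W` treat `W` uniformly
  have uA : ∀ v ∈ S, v ∉ W → ∀ x ∈ W, P.A v x → P.A v w0 := by
    intro v hv hvW x hx h1
    rcases P.tri v w0 (fun e => hvW (e ▸ hw0)) with h2 | h2
    · exact h2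
    · exact (hcon v hv hvW ⟨x, hx, h1⟩ w0 hw0 h2).elim
  have uB : ∀ v ∈ S, v ∉ W → ∀ x ∈ W, P.B v x → P.B v w0 := by
    intro v hv hvW x hx h1
    rcases P.tri v w0 (fun e => hvW (e ▸ hw0)) with h2 | h2
    · exact (hcon v hv hvW ⟨w0, hw0, h2⟩ x hx h1).elim
    · exact h2
  let T : Finset V := insert w0 (S \ W)
  have hTS : T ⊆ S := by
    intro x hx
    rcases mem_insert.1 hx with rfl | hx
    · exact hw0S
    · exact (mem_sdiff.1 hx).1
  have hcase : ∀ x ∈ T, x = w0 ∨ (x ∈ S ∧ x ∉ W) := by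
    intro x hx
    rcases mem_insert.1 hx with rfl | hx
    · exact Or.inl rfl
    · exact Or.inr (mem_sdiff.1 hx)
  have hTlt : T.card < S.card := by
    apply card_lt_card
    rw [ssubset_iff_of_subset hTS]
    refine ⟨w1, hw1S, fun h => ?_⟩
    rcases hcase w1 h with h | h
    · exact hne h.symm
    · exact h.2 hw1
  apply hmin T hTlt
  refine ⟨?_, ?_, ?_⟩
  · have huT : u ∈ T := mem_insert_of_mem (mem_sdiff.2 ⟨hu, huW⟩)
    have h0T : w0 ∈ T := mem_insert_self _ _
    exact Finset.one_lt_card.2 ⟨u, huT, w0, h0T, fun e => huW (e ▸ hw0)⟩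
  · intro x hx y hy hxy
    obtain ⟨w, hw, wx, wy⟩ := hS.2.1 x (hTS hx) y (hTS hy) hxy
    by_cases hwW : w ∈ W
    · refine ⟨w0, mem_insert_self _ _, ?_⟩
      rcases hcase x hx with rfl | ⟨hxS, hxW⟩
      · rcases hcase y hy with rfl | ⟨hyS, hyW⟩
        · exact (P.iB _ hxy).elim
        · exact (P.ex (uA y hyS hyW w hwW (P.sA wy)) (P.sB hxy)).elim
      · rcases hcase y hy with rfl | ⟨hyS, hyW⟩
        · exact (P.ex (uA x hxS hxW w hwW (P.sA wx)) hxy).elim
        · exact ⟨P.sA (uA x hxS hxW w hwW (P.sA wx)), P.sA (uA y hyS hyW w hwW (P.sA wy))⟩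
    · exact ⟨w, mem_insert_of_mem (mem_sdiff.2 ⟨hw, hwW⟩), wx, wy⟩
  · intro x hx y hy hxy
    obtain ⟨w, hw, wx, wy⟩ := hS.2.2 x (hTS hx) y (hTS hy) hxy
    by_cases hwW : w ∈ W
    · refine ⟨w0, mem_insert_self _ _, ?_⟩
      rcases hcase x hx with rfl | ⟨hxS, hxW⟩
      · rcases hcase y hy with rfl | ⟨hyS, hyW⟩
        · exact (P.iA _ hxy).elim
        · exact (P.ex (P.sA hxy) (uB y hyS hyW w hwW (P.sB wy))).elim
      · rcases hcase y hy with rfl | ⟨hyS, hyW⟩
        · exact (P.ex hxy (uB x hxS hxW w hwW (P.sB wx))).elim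
        · exact ⟨P.sB (uB x hxS hxW w hwW (P.sB wx)), P.sB (uB y hyS hyW w hwW (P.sB wy))⟩
    · exact ⟨w, mem_insert_of_mem (mem_sdiff.2 ⟨hw, hwW⟩), wx, wy⟩

/-- **Main structural theorem.** A graph without induced five-cycle and bull has no set of at
least two vertices on which both diameters are at most two. -/
theorem notBoth (P : Pr V)
    (c5 : ∀ a b c d e, P.A a b → P.A b c → P.A c d → P.A d e → P.A e a →
      P.B a c → P.B b d → P.B c e → P.B d a → P.B e b → False)
    (bull : ∀ a b c d e, P.A a b → P.A b c → P.A c a → P.A a d → P.A b e →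
      P.B a e → P.B b d → P.B c d → P.B c e → P.B d e → False) (S : Finset V) :
    ¬ Both P S := by
  classical
  suffices H : ∀ n, ∀ S : Finset V, S.card = n → ¬ Both P S from H _ S rfl
  intro n
  induction n using Nat.strong_induction_on with
  | _ n ih =>
    intro S hn hS
    have hmin : ∀ T : Finset V, T.card < S.card → ¬ Both P T := fun T hT =>
      ih T.card (hn ▸ hT) T rfl
    have h3 := card3 hS
    have : Nonempty {x // x ∈ S} := by
      obtain ⟨x, hx⟩ := Finset.card_pos.1 (by omega : 0 < S.card)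
      exact ⟨⟨x, hx⟩⟩
    refine notOk (P.on S) ?_
    refine ⟨fun a b c d e => c5 a b c d e, fun a b c d e => bull a b c d e, ?_, ?_, ?_, ?_⟩
    · intro u v huv
      obtain ⟨w, hw, h1, h2⟩ := hS.2.1 u u.2 v v.2 huv
      exact ⟨⟨w, hw⟩, h1, h2⟩
    · intro u v huv
      obtain ⟨w, hw, h1, h2⟩ := hS.2.2 u u.2 v v.2 huv
      exact ⟨⟨w, hw⟩, h1, h2⟩
    · rintro ⟨v, hv⟩
      have h4 : (S.erase v).card < S.card := card_erase_lt_of_mem hv
      have h5 := hmin _ h4
      have h6 : 2 ≤ (S.erase v).card := by rw [card_erase_of_mem hv]; omega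
      unfold Both at h5
      push Not at h5
      by_cases h7 : ∀ u ∈ S.erase v, ∀ w ∈ S.erase v, P.B u w →
          ∃ t ∈ S.erase v, P.A t u ∧ P.A t w
      · obtain ⟨u, hu, w, hw, huw, h8⟩ := h5 h6 h7
        right
        obtain ⟨t, ht, tu, tw⟩ := hS.2.2 u (mem_of_mem_erase hu) w (mem_of_mem_erase hw) huw
        have key : ∀ t ∈ S, P.B t u → P.B t w → t = v := by
          intro t ht h9 h10
          by_contra hne
          exact h8 t (mem_erase.2 ⟨hne, ht⟩) h9 h10
        have htv := key t ht tu tw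
        subst htv
        exact ⟨⟨u, mem_of_mem_erase hu⟩, ⟨w, mem_of_mem_erase hw⟩, huw, tu, tw,
          fun x h9 h10 => Subtype.ext (key x.1 x.2 h9 h10)⟩
      · push Not at h7
        obtain ⟨u, hu, w, hw, huw, h8⟩ := h7
        left
        obtain ⟨t, ht, tu, tw⟩ := hS.2.1 u (mem_of_mem_erase hu) w (mem_of_mem_erase hw) huw
        have key : ∀ t ∈ S, P.A t u → P.A t w → t = v := by
          intro t ht h9 h10
          by_contra hne
          exact h8 t (mem_erase.2 ⟨hne, ht⟩) h9 h10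
        have htv := key t ht tu tw
        subst htv
        exact ⟨⟨u, mem_of_mem_erase hu⟩, ⟨w, mem_of_mem_erase hw⟩, huw, tu, tw,
          fun x h9 h10 => Subtype.ext (key x.1 x.2 h9 h10)⟩
    · rintro W hW ⟨u, hu⟩
      have hWS : W.map (Function.Embedding.subtype _) ⊆ S := by
        intro x hx
        rw [mem_map] at hx
        obtain ⟨y, -, rfl⟩ := hx
        exact y.2
      obtain ⟨v, hv, hvW, ⟨x, hx, vx⟩, ⟨y, hy, vy⟩⟩ := prime_min hS hmin hWS
        (by rw [card_map]; exact hW) u.2 (by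
          rw [mem_map]
          rintro ⟨y, hy, e⟩
          exact hu ((Subtype.ext e : y = u) ▸ hy))
      rw [mem_map] at hx hy
      obtain ⟨x, hx, rfl⟩ := hx
      obtain ⟨y, hy, rfl⟩ := hy
      refine ⟨⟨v, hv⟩, fun hh => hvW ?_, ⟨x, hx, vx⟩, ⟨y, hy, vy⟩⟩
      rw [mem_map]
      exact ⟨⟨v, hv⟩, hh, rfl⟩

/-- the pair of relations of a graph -/
def ofG (G : SimpleGraph V) : Pr V where
  A u v := G.Adj u v
  B u v := u ≠ v ∧ ¬ G.Adj u v
  sA h := h.symm
  sB h := ⟨h.1.symm, fun h' => h.2 h'.symm⟩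
  iA u h := G.loopless.irrefl _ h
  iB u h := h.1 rfl
  ex h h' := h'.2 h
  tri u v h := by
    by_cases h' : G.Adj u v
    · exact Or.inl h'
    · exact Or.inr ⟨h, h'⟩

theorem regular_not {k : ℕ} (hk : 0 < k) [Fintype V] (G : SimpleGraph V)
    [DecidableRel G.Adj] (hV : Fintype.card V = 2 * k + 1) (hG : G.IsRegularOfDegree k)
    (c5 : ∀ a b c d e, (ofG G).A a b → (ofG G).A b c → (ofG G).A c d → (ofG G).A d e →
      (ofG G).A e a → (ofG G).B a c → (ofG G).B b d → (ofG G).B c e → (ofG G).B d a →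
      (ofG G).B e b → False)
    (bull : ∀ a b c d e, (ofG G).A a b → (ofG G).A b c → (ofG G).A c a → (ofG G).A a d →
      (ofG G).A b e → (ofG G).B a e → (ofG G).B b d → (ofG G).B c d → (ofG G).B c e →
      (ofG G).B d e → False) : False := by
  classical
  apply notBoth (ofG G) c5 bull univ
  refine ⟨by rw [card_univ, hV]; omega, ?_, ?_⟩
  · intro u _ v _ huv
    by_contra hcon
    push Not at hcon
    have hdis : Disjoint (insert u (G.neighborFinset u)) (insert v (G.neighborFinset v)) := by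
      rw [Finset.disjoint_left]
      intro x hx hy
      rw [mem_insert, SimpleGraph.mem_neighborFinset] at hx hy
      rcases hx with rfl | hx
      · rcases hy with rfl | hy
        · exact huv.1 rfl
        · exact huv.2 hy.symm
      · rcases hy with rfl | hy
        · exact huv.2 hx
        · exact hcon x (mem_univ _) hx.symm hy.symm
    have h1 := card_le_univ (insert u (G.neighborFinset u) ∪ insert v (G.neighborFinset v))
    rw [card_union_of_disjoint hdis, card_insert_of_notMem (by simp),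
      card_insert_of_notMem (by simp), SimpleGraph.card_neighborFinset_eq_degree,
      SimpleGraph.card_neighborFinset_eq_degree, hG u, hG v, hV] at h1
    omega
  · intro u _ v _ huv
    by_contra hcon
    push Not at hcon
    have hall : (univ : Finset V) ⊆ G.neighborFinset u ∪ G.neighborFinset v := by
      intro x _
      rw [mem_union, SimpleGraph.mem_neighborFinset, SimpleGraph.mem_neighborFinset]
      by_contra hno
      push Not at hno
      have hxu : x ≠ u := by
        rintro rfl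
        exact hno.2 huv.symm
      have hxv : x ≠ v := by
        rintro rfl
        exact hno.1 huv
      exact hcon x (mem_univ _) ⟨hxu, fun h => hno.1 h.symm⟩ ⟨hxv, fun h => hno.2 h.symm⟩
    have h1 := (card_le_card hall).trans (card_union_le _ _)
    rw [card_univ, hV, SimpleGraph.card_neighborFinset_eq_degree,
      SimpleGraph.card_neighborFinset_eq_degree, hG u, hG v] at h1
    omega

end Pool.Agent.R40.FiveSC
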