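import Mathlib

/-!
# Graphs without nine vertices spanning exactly eighteen edges

Building blocks for MP_3da5e8_co.
-/

namespace Pool.Agent.R40.NineEighteen

/-- the five-cycle with a chord -/
def adj5 (x y : Fin 5) : Bool := ([18, 13, 10, 22, 9].getD x.val 0).testBit y.val

theorem adj5_symm : ∀ x y, adj5 x y = true → adj5 y x = true := by decide +kernel

theorem adj5_irrefl : ∀ x, ¬ adj5 x x = true := by decide +kernel

theorem adj5_bounds : ∀ S : Finset (Fin 5),
    (S.card = 5 → (∑ x ∈ S, ∑ y ∈ S, if adj5 x y = true then 1 else 0) = 12) ∧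
    (S.card = 4 → 6 ≤ (∑ x ∈ S, ∑ y ∈ S, if adj5 x y = true then 1 else 0) ∧
      (∑ x ∈ S, ∑ y ∈ S, if adj5 x y = true then 1 else 0) ≤ 8) ∧
    (S.card = 3 → 2 ≤ (∑ x ∈ S, ∑ y ∈ S, if adj5 x y = true then 1 else 0) ∧
      (∑ x ∈ S, ∑ y ∈ S, if adj5 x y = true then 1 else 0) ≤ 6) := by
  decide +kernel

open Finset Classical

noncomputable section

/-- Twice the number of edges of `G` inside `S`. -/
def d {V : Type} (G : SimpleGraph V) (S : Finset V) : ℕ :=
  ∑ x ∈ S, ∑ y ∈ S, if G.Adj x y then 1 else 0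

/-- At most `k^2/4` edges on `k ≤ 8` vertices, never exactly 18 edges on nine vertices. -/
structure Good {V : Type} (G : SimpleGraph V) : Prop where
  small : ∀ S : Finset V, S.card ≤ 8 → 2 * d G S ≤ S.card ^ 2
  nine : ∀ S : Finset V, S.card = 9 → d G S ≠ 36

/-- Disjoint union. -/
def su {V W : Type} (G : SimpleGraph V) (H : SimpleGraph W) : SimpleGraph (V ⊕ W) where
  Adj x y := match x, y with
    | Sum.inl a, Sum.inl b => G.Adj a b
    | Sum.inr a, Sum.inr b => H.Adj a b
    | _, _ => False
  symm := ⟨by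
    rintro (a | a) (b | b) h
    · exact G.symm.symm _ _ h
    · exact h
    · exact h
    · exact H.symm.symm _ _ h⟩
  loopless := ⟨by
    rintro (a | a) h
    · exact G.loopless.irrefl _ h
    · exact H.loopless.irrefl _ h⟩

theorem d_su {V W : Type} (G : SimpleGraph V) (H : SimpleGraph W) (S : Finset (V ⊕ W)) :
    d (su G H) S = d G S.toLeft + d H S.toRight := by
  have hS : S = S.toLeft.disjSum S.toRight := Finset.toLeft_disjSum_toRight.symm
  conv_lhs => rw [hS]
  unfold d
  rw [Finset.sum_disjSum]
  simp only [Finset.sum_disjSum]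
  have e1 : ∀ x y, (if (su G H).Adj (Sum.inl x) (Sum.inl y) then 1 else 0)
      = if G.Adj x y then 1 else 0 := fun x y => if_congr Iff.rfl rfl rfl
  have e2 : ∀ x y, (if (su G H).Adj (Sum.inr x) (Sum.inr y) then 1 else 0)
      = if H.Adj x y then 1 else 0 := fun x y => if_congr Iff.rfl rfl rfl
  have e3 : ∀ x y, (if (su G H).Adj (Sum.inl x) (Sum.inr y) then 1 else 0)
      = 0 := fun x y => if_neg (fun h => h)
  have e4 : ∀ x y, (if (su G H).Adj (Sum.inr x) (Sum.inl y) then 1 else 0)
      = 0 := fun x y => if_neg (fun h => h)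
  simp only [e1, e2, e3, e4, Finset.sum_const_zero, add_zero, zero_add]

theorem card_lr {V W : Type} (S : Finset (V ⊕ W)) : S.card = S.toLeft.card + S.toRight.card :=
  Finset.card_toLeft_add_card_toRight.symm

theorem d_empty {V : Type} (G : SimpleGraph V) (S : Finset V) (h : S.card = 0) : d G S = 0 := by
  rw [Finset.card_eq_zero] at h
  subst h
  simp [d]

theorem Good.su {V W : Type} {G : SimpleGraph V} {H : SimpleGraph W} (hG : Good G) (hH : Good H) :
    Good (su G H) := by
  constructor
  · intro S hS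
    rw [d_su]
    have h := card_lr S
    have h1 := hG.small S.toLeft (by omega)
    have h2 := hH.small S.toRight (by omega)
    rw [h]
    nlinarith
  · intro S hS
    rw [d_su]
    have h := card_lr S
    rcases Nat.eq_zero_or_pos S.toLeft.card with h0 | h0
    · rw [d_empty G _ h0, zero_add]
      exact hH.nine _ (by omega)
    · rcases Nat.eq_zero_or_pos S.toRight.card with h00 | h00
      · rw [d_empty H _ h00, add_zero]
        exact hG.nine _ (by omega)
      · have h1 := hG.small S.toLeft (by omega)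
        have h2 := hH.small S.toRight (by omega)
        generalize S.toLeft.card = x at *
        generalize S.toRight.card = y at *
        have hx : x ≤ 8 := by omega
        obtain rfl : y = 9 - x := by omega
        interval_cases x <;> omega

theorem univ_toLeft {V W : Type} [Fintype V] [Fintype W] :
    (univ : Finset (V ⊕ W)).toLeft = univ := by
  ext x; simp

theorem univ_toRight {V W : Type} [Fintype V] [Fintype W] :
    (univ : Finset (V ⊕ W)).toRight = univ := by
  ext x; simp

/-- bipartite graph with prescribed edge set -/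
def B {p q : ℕ} (T : Finset (Fin p × Fin q)) : SimpleGraph (Fin p ⊕ Fin q) where
  Adj x y := match x, y with
    | Sum.inl a, Sum.inr b => (a, b) ∈ T
    | Sum.inr b, Sum.inl a => (a, b) ∈ T
    | _, _ => False
  symm := ⟨by
    rintro (a | a) (b | b) h
    · exact h
    · exact h
    · exact h
    · exact h⟩
  loopless := ⟨by
    rintro (a | a) h
    · exact h
    · exact h⟩

theorem d_B {p q : ℕ} (T : Finset (Fin p × Fin q)) (S : Finset (Fin p ⊕ Fin q)) :
    d (B T) S = 2 * ((S.toLeft ×ˢ S.toRight) ∩ T).card := by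
  have hS : S = S.toLeft.disjSum S.toRight := Finset.toLeft_disjSum_toRight.symm
  conv_lhs => rw [hS]
  unfold d
  rw [Finset.sum_disjSum]
  simp only [Finset.sum_disjSum]
  have e1 : ∀ x y, (if (B T).Adj (Sum.inl x) (Sum.inl y) then 1 else 0)
      = 0 := fun x y => if_neg (fun h => h)
  have e2 : ∀ x y, (if (B T).Adj (Sum.inr x) (Sum.inr y) then 1 else 0)
      = 0 := fun x y => if_neg (fun h => h)
  have e3 : ∀ x y, (if (B T).Adj (Sum.inl x) (Sum.inr y) then 1 else 0)
      = if (x, y) ∈ T then 1 else 0 := fun x y => if_congr Iff.rfl rfl rfl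
  have e4 : ∀ x y, (if (B T).Adj (Sum.inr x) (Sum.inl y) then 1 else 0)
      = if (y, x) ∈ T then 1 else 0 := fun x y => if_congr Iff.rfl rfl rfl
  simp only [e1, e2, e3, e4, Finset.sum_const_zero, add_zero, zero_add]
  have h1 : ((S.toLeft ×ˢ S.toRight) ∩ T).card
      = ∑ x ∈ S.toLeft, ∑ y ∈ S.toRight, if (x, y) ∈ T then 1 else 0 := by
    rw [← Finset.sum_product', ← Finset.filter_mem_eq_inter, Finset.card_filter]
  have h2 : ((S.toLeft ×ˢ S.toRight) ∩ T).card
      = ∑ y ∈ S.toRight, ∑ x ∈ S.toLeft, if (x, y) ∈ T then 1 else 0 := by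
    rw [h1, Finset.sum_comm]
  rw [two_mul]
  nth_rewrite 1 [h1]
  rw [h2]

theorem d_B_univ {p q : ℕ} (T : Finset (Fin p × Fin q)) :
    d (B T) univ = 2 * T.card := by
  rw [d_B, univ_toLeft, univ_toRight]
  simp

/-- achievable pairs (vertices, edges) for good graphs -/
def Ach (N r : ℕ) : Prop :=
  ∃ (V : Type) (_ : Fintype V) (G : SimpleGraph V),
    Fintype.card V = N ∧ d G univ = 2 * r ∧ Good G

theorem Ach.add {N r N' r' : ℕ} (h : Ach N r) (h' : Ach N' r') : Ach (N + N') (r + r') := by
  obtain ⟨V, _, G, h1, h2, h3⟩ := h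
  obtain ⟨W, _, H, h4, h5, h6⟩ := h'
  refine ⟨V ⊕ W, inferInstance, su G H, ?_, ?_, h3.su h6⟩
  · simp [h1, h4]
  · rw [d_su, univ_toLeft, univ_toRight, h2, h5]
    ring

theorem B_small {p q : ℕ} (T : Finset (Fin p × Fin q)) (S : Finset (Fin p ⊕ Fin q)) :
    2 * d (B T) S ≤ S.card ^ 2 := by
  rw [d_B]
  have h1 : ((S.toLeft ×ˢ S.toRight) ∩ T).card ≤ S.toLeft.card * S.toRight.card := by
    rw [← Finset.card_product]
    exact Finset.card_le_card Finset.inter_subset_left
  have h := card_lr S
  rw [h]
  generalize S.toLeft.card = x at *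
  generalize S.toRight.card = y at *
  generalize ((S.toLeft ×ˢ S.toRight) ∩ T).card = z at *
  zify at *
  nlinarith [sq_nonneg ((x : ℤ) - y)]

theorem ach_small {N r : ℕ} (hN : N ≤ 8) (hr : 4 * r ≤ N ^ 2) : Ach N r := by
  have hpq : r ≤ (N / 2) * (N - N / 2) := by
    interval_cases N <;> omega
  obtain ⟨T, -, hT⟩ : ∃ T ⊆ (univ : Finset (Fin (N / 2) × Fin (N - N / 2))), T.card = r := by
    apply Finset.exists_subset_card_eq
    simpa using hpq
  refine ⟨Fin (N / 2) ⊕ Fin (N - N / 2), inferInstance, B T, ?_, ?_, ⟨fun S _ => B_small T S, ?_⟩⟩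
  · simp; omega
  · rw [d_B_univ, hT]
  · intro S hS
    exfalso
    have h1 := Finset.card_le_univ S
    simp at h1
    omega

theorem ach_full {p q : ℕ} (hp : p ≤ 5) (hq : q ≤ 5) : Ach (p + q) (p * q) := by
  refine ⟨Fin p ⊕ Fin q, inferInstance, B (univ : Finset (Fin p × Fin q)), ?_, ?_,
    ⟨fun S _ => B_small _ S, ?_⟩⟩
  · simp
  · rw [d_B_univ]; simp
  · intro S hS
    rw [d_B]
    have h := card_lr S
    have h1 : S.toLeft.card ≤ 5 := (Finset.card_le_univ _).trans (by simpa using hp)
    have h2 : S.toRight.card ≤ 5 := (Finset.card_le_univ _).trans (by simpa using hq)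
    rw [Finset.inter_univ, Finset.card_product]
    generalize S.toLeft.card = x at *
    generalize S.toRight.card = y at *
    obtain rfl : y = 9 - x := by omega
    interval_cases x <;> omega

/-- sizes reached with blocks of at most eight vertices -/
def gg (N : ℕ) : ℕ := 16 * (N / 8) + (N % 8) ^ 2 / 4

theorem ach_gg (N : ℕ) : ∀ r, r ≤ gg N → Ach N r := by
  induction N using Nat.strong_induction_on with
  | _ N ih =>
    intro r hr
    by_cases hN : N < 8
    · apply ach_small hN.le
      unfold gg at hr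
      rw [Nat.div_eq_of_lt hN, Nat.mod_eq_of_lt hN] at hr
      omega
    · push Not at hN
      have h1 : gg N = gg (N - 8) + 16 := by
        unfold gg
        have e1 : N / 8 = (N - 8) / 8 + 1 := by omega
        have e2 : N % 8 = (N - 8) % 8 := by omega
        rw [e1, e2]; ring
      rcases Nat.lt_or_ge r (gg (N - 8)) with h | h
      · have := (ih (N - 8) (by omega) r h.le).add (ach_small (N := 8) (r := 0) le_rfl (by omega))
        have e : N - 8 + 8 = N := by omega
        rwa [e, add_zero] at this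
      · have := (ih (N - 8) (by omega) (gg (N - 8)) le_rfl).add
          (ach_small (N := 8) (r := r - gg (N - 8)) le_rfl (by omega))
        have e : N - 8 + 8 = N := by omega
        have e' : gg (N - 8) + (r - gg (N - 8)) = r := by omega
        rwa [e, e'] at this

/-- table of contiguous maxima -/
def tb (i : ℕ) : ℕ :=
  match i with
  | 0 => 16
  | 1 => 17
  | 2 => 18
  | 3 => 22
  | 4 => 27
  | 5 => 29
  | 6 => 31
  | 7 => 34
  | 8 => 37
  | _ => 41

/-- every `r ≤ top N` is achievable on `N` vertices -/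
def top (N : ℕ) : ℕ := if N < 9 then N * N / 4 else 25 * ((N - 9) / 10) + tb ((N - 9) % 10)

theorem ach_mid : ∀ N, N < 19 → ∀ r, r ≤ top N →
    (r ≤ gg N) ∨ (9 ≤ N ∧ 20 ≤ r ∧ r - 20 ≤ gg (N - 9)) ∨
      (10 ≤ N ∧ 25 ≤ r ∧ r - 25 ≤ gg (N - 10)) := by
  decide +kernel

theorem ach_top (N : ℕ) : ∀ r, r ≤ top N → Ach N r := by
  induction N using Nat.strong_induction_on with
  | _ N ih =>
    intro r hr
    by_cases hN : N < 19
    · rcases ach_mid N hN r hr with h | ⟨h1, h2, h3⟩ | ⟨h1, h2, h3⟩
      · exact ach_gg N r h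
      · have := (ach_gg (N - 9) (r - 20) h3).add (ach_full (p := 4) (q := 5) (by norm_num) le_rfl)
        have e1 : N - 9 + (4 + 5) = N := by omega
        have e2 : r - 20 + 4 * 5 = r := by omega
        rwa [e1, e2] at this
      · have := (ach_gg (N - 10) (r - 25) h3).add (ach_full (p := 5) (q := 5) le_rfl le_rfl)
        have e1 : N - 10 + (5 + 5) = N := by omega
        have e2 : r - 25 + 5 * 5 = r := by omega
        rwa [e1, e2] at this
    · push Not at hN
      rcases Nat.lt_or_ge r 25 with h | h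
      · apply ach_gg
        unfold gg
        have : N / 8 ≥ 2 := by omega
        rcases Nat.lt_or_ge (N / 8) 3 with h3 | h3
        · have h4 : N / 8 = 2 := by omega
          have h5 : N % 8 ≥ 3 := by omega
          have h6 : N % 8 < 8 := Nat.mod_lt _ (by norm_num)
          -- not enough when N = 19: 32 + 2
          rw [h4]
          omega
        · omega
      · have htop : top N = top (N - 10) + 25 := by
          unfold top
          rw [if_neg (by omega), if_neg (by omega)]
          have e1 : (N - 9) / 10 = (N - 10 - 9) / 10 + 1 := by omega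
          have e2 : (N - 9) % 10 = (N - 10 - 9) % 10 := by omega
          rw [e1, e2]; ring
        have := (ih (N - 10) (by omega) (r - 25) (by omega)).add
          (ach_full (p := 5) (q := 5) le_rfl le_rfl)
        have e1 : N - 10 + (5 + 5) = N := by omega
        have e2 : r - 25 + 5 * 5 = r := by omega
        rwa [e1, e2] at this

theorem tb_ge : ∀ i, i < 10 → 2 * tb i ≥ 5 * i + 26 := by decide

theorem top_ge (N : ℕ) : 2 * top N + 19 ≥ 5 * N := by
  unfold top
  split_ifs with h
  · interval_cases N <;> omega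
  · have h1 := tb_ge ((N - 9) % 10) (Nat.mod_lt _ (by norm_num))
    omega

theorem d_compl {V : Type} (G : SimpleGraph V) (S : Finset V) :
    d Gᶜ S + d G S + S.card = S.card ^ 2 := by
  have h1 : S.card ^ 2 = ∑ x ∈ S, ∑ y ∈ S, 1 := by simp [sq]
  have h2 : S.card = ∑ x ∈ S, ∑ y ∈ S, if x = y then 1 else 0 := by
    rw [Finset.card_eq_sum_ones]
    apply Finset.sum_congr rfl
    intro x hx
    rw [Finset.sum_ite_eq, if_pos hx]
  rw [h1]
  conv_lhs => rw [h2]
  unfold d
  rw [← Finset.sum_add_distrib, ← Finset.sum_add_distrib]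
  apply Finset.sum_congr rfl
  intro x _
  rw [← Finset.sum_add_distrib, ← Finset.sum_add_distrib]
  apply Finset.sum_congr rfl
  intro y _
  by_cases h : x = y
  · subst h
    simp
  · by_cases h' : G.Adj x y
    · simp [h, h']
    · simp [h, h']

/-- some graph with `n` vertices and `e` edges has no nine vertices spanning 18 edges -/
def OkG (n e : ℕ) : Prop :=
  ∃ (V : Type) (_ : Fintype V) (G : SimpleGraph V),
    Fintype.card V = n ∧ d G univ = 2 * e ∧ ∀ S : Finset V, S.card = 9 → d G S ≠ 36

theorem d_mono_set {V : Type} (G : SimpleGraph V) {S T : Finset V} (h : S ⊆ T) :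
    d G S ≤ d G T := by
  unfold d
  refine (Finset.sum_le_sum_of_subset h).trans (Finset.sum_le_sum fun x _ => ?_)
  exact Finset.sum_le_sum_of_subset h

theorem ok_clique {a δ N r : ℕ} (ha : 1 ≤ a) (hδ : δ ≤ 2) (hδ' : δ ≤ a - 1) (h : Ach N r)
    {n e : ℕ} (hn : a + N = n) (he : 2 * (e + δ) = a * (a - 1) + 2 * r) : OkG n e := by
  obtain ⟨W, _, H, h1, h2, h3⟩ := h
  obtain ⟨T, -, hT⟩ : ∃ T ⊆ (univ : Finset (Fin 1 × Fin (a - 1))), T.card = δ := by
    apply Finset.exists_subset_card_eq
    simpa using hδ'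
  refine ⟨(Fin 1 ⊕ Fin (a - 1)) ⊕ W, inferInstance, su (B T)ᶜ H, ?_, ?_, ?_⟩
  · simp [h1]; omega
  · rw [d_su, univ_toLeft, univ_toRight, h2]
    have h4 := d_compl (B T) univ
    rw [d_B_univ, hT] at h4
    have h5 : (univ : Finset (Fin 1 ⊕ Fin (a - 1))).card = a := by
      simp; omega
    rw [h5] at h4
    have h6 : a ^ 2 = a * (a - 1) + a := by
      obtain ⟨b, rfl⟩ : ∃ b, a = b + 1 := ⟨a - 1, by omega⟩
      simp; ring
    omega
  · intro S hS
    rw [d_su]
    have hc := card_lr S
    have h4 := d_compl (B T) S.toLeft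
    have h5 : d (B T) S.toLeft ≤ 2 * δ := by
      rw [← hT, ← d_B_univ]
      exact d_mono_set _ (Finset.subset_univ _)
    rcases Nat.eq_zero_or_pos S.toLeft.card with h0 | h0
    · rw [d_empty _ _ h0, zero_add]
      exact h3.nine _ (by omega)
    · have h6 := h3.small S.toRight (by omega)
      generalize d (B T) S.toLeft = u at *
      generalize d (B T)ᶜ S.toLeft = v at *
      generalize d H S.toRight = w at *
      generalize S.toLeft.card = x at *
      generalize S.toRight.card = y at *
      obtain rfl : y = 9 - x := by omega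
      have hx : x ≤ 9 := by omega
      interval_cases x <;> omega

theorem OkG.compl {n e : ℕ} (h : OkG n e) {e' : ℕ} (he : 2 * (e + e') = n * (n - 1)) :
    OkG n e' := by
  obtain ⟨V, _, G, h1, h2, h3⟩ := h
  refine ⟨V, inferInstance, Gᶜ, h1, ?_, ?_⟩
  · have h4 := d_compl G univ
    rw [h2, Finset.card_univ, h1] at h4
    rcases Nat.eq_zero_or_pos n with hn | hn
    · subst hn
      simp at h4 he
      omega
    · have h6 : n ^ 2 = n * (n - 1) + n := by
        obtain ⟨b, rfl⟩ : ∃ b, n = b + 1 := ⟨n - 1, by omega⟩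
        simp; ring
      omega
  · intro S hS
    have h4 := d_compl G S
    have := h3 S hS
    rw [hS] at h4
    omega

/-- the house as a simple graph -/
def H5 : SimpleGraph (Fin 5) where
  Adj x y := adj5 x y = true
  symm := ⟨fun x y h => adj5_symm x y h⟩
  loopless := ⟨fun x h => adj5_irrefl x h⟩

theorem d_H5 (S : Finset (Fin 5)) :
    d H5 S = ∑ x ∈ S, ∑ y ∈ S, if adj5 x y = true then 1 else 0 := by
  unfold d
  apply Finset.sum_congr rfl
  intro x _
  apply Finset.sum_congr rfl
  intro y _
  by_cases h : adj5 x y = true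
  · rw [if_pos h, if_pos (show H5.Adj x y from h)]
  · rw [if_neg h, if_neg (show ¬ H5.Adj x y from h)]

theorem H5_bounds (S : Finset (Fin 5)) :
    (S.card = 5 → d H5 S = 12) ∧ (S.card = 4 → 6 ≤ d H5 S ∧ d H5 S ≤ 8) ∧
      (S.card = 3 → 2 ≤ d H5 S ∧ d H5 S ≤ 6) := by
  rw [d_H5]
  exact adj5_bounds S

theorem d_bot {V : Type} (S : Finset V) : d (⊥ : SimpleGraph V) S = 0 := by
  simp [d]

/-- twelve vertices and thirty-three edges: the complement of two houses and two isolated
vertices -/
theorem ok12 : OkG 12 33 := by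
  refine ⟨(Fin 5 ⊕ Fin 5) ⊕ Fin 2, inferInstance, su (su H5 H5)ᶜ ⊥, by simp, ?_, ?_⟩
  · rw [d_su, d_bot, univ_toLeft]
    have h1 := d_compl (su H5 H5) univ
    rw [d_su, univ_toLeft, univ_toRight, (H5_bounds univ).1 (by simp)] at h1
    simp at h1
    omega
  · intro S hS
    rw [d_su, d_bot, add_zero]
    have h1 := d_compl (su H5 H5) S.toLeft
    rw [d_su] at h1
    have h2 := card_lr S
    have h3 : S.toRight.card ≤ 2 := (Finset.card_le_univ _).trans (by simp)
    have h4 := card_lr S.toLeft
    have h5 : S.toLeft.toLeft.card ≤ 5 := (Finset.card_le_univ _).trans (by simp)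
    have h6 : S.toLeft.toRight.card ≤ 5 := (Finset.card_le_univ _).trans (by simp)
    obtain ⟨b1, b2, b3⟩ := H5_bounds S.toLeft.toLeft
    obtain ⟨b4, b5, b6⟩ := H5_bounds S.toLeft.toRight
    generalize d H5 S.toLeft.toLeft = u at *
    generalize d H5 S.toLeft.toRight = v at *
    generalize d (su H5 H5)ᶜ S.toLeft = w at *
    generalize S.toLeft.toLeft.card = x at *
    generalize S.toLeft.toRight.card = y at *
    generalize S.toRight.card = z at *
    generalize S.toLeft.card = t at *
    subst h4
    have ht : 7 ≤ x + y := by omega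
    have hx : 2 ≤ x := by omega
    have hy : 2 ≤ y := by omega
    interval_cases x <;> interval_cases y <;> simp_all <;> omega

/-- pairs treated separately -/
def special : List (ℕ × ℕ) :=
  [(12, 33), (15, 52), (31, 228), (33, 250), (34, 272), (34, 273), (35, 295), (35, 296),
    (35, 297), (38, 348), (68, 1125), (69, 1172), (69, 1173), (103, 2625)]

theorem ok_special : ∀ x ∈ special, OkG x.1 x.2 := by
  have key : ∀ (a δ N r n e e' : ℕ), 1 ≤ a → δ ≤ 2 → δ ≤ a - 1 → r ≤ top N → a + N = n →
      2 * (e' + δ) = a * (a - 1) + 2 * r → 2 * (e' + e) = n * (n - 1) → OkG n e := by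
    intro a δ N r n e e' h1 h2 h3 h4 h5 h6 h7
    exact (ok_clique h1 h2 h3 (ach_top N r h4) h5 h6).compl h7
  unfold special
  simp only [List.forall_mem_cons, List.not_mem_nil, false_imp_iff, implies_true, and_true]
  refine ⟨ok12, ?_, ?_, ?_, ?_, ?_, ?_, ?_, ?_, ?_, ?_, ?_, ?_, ?_⟩
  · exact key 11 2 4 0 15 52 53 (by decide) (by decide) (by decide) (by decide) rfl rfl rfl
  · exact key 22 0 9 6 31 228 237 (by decide) (by decide) (by decide) (by decide) rfl rfl rfl
  · exact key 24 0 9 2 33 250 278 (by decide) (by decide) (by decide) (by decide) rfl rfl rfl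
  · exact key 24 0 10 13 34 272 289 (by decide) (by decide) (by decide) (by decide) rfl rfl rfl
  · exact key 24 0 10 12 34 273 288 (by decide) (by decide) (by decide) (by decide) rfl rfl rfl
  · exact key 25 0 10 0 35 295 300 (by decide) (by decide) (by decide) (by decide) rfl rfl rfl
  · exact key 25 1 10 0 35 296 299 (by decide) (by decide) (by decide) (by decide) rfl rfl rfl
  · exact key 25 2 10 0 35 297 298 (by decide) (by decide) (by decide) (by decide) rfl rfl rfl
  · exact key 27 0 11 4 38 348 355 (by decide) (by decide) (by decide) (by decide) rfl rfl rfl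
  · exact key 48 0 20 25 68 1125 1153 (by decide) (by decide) (by decide) (by decide) rfl rfl rfl
  · exact key 49 2 20 0 69 1172 1174 (by decide) (by decide) (by decide) (by decide) rfl rfl rfl
  · have h : Ach (10 + 9 + 2) (25 + 20 + 0) :=
      ((ach_full (p := 5) (q := 5) le_rfl le_rfl).add
        (ach_full (p := 4) (q := 5) (by norm_num) le_rfl)).add
        (ach_small (N := 2) (r := 0) (by norm_num) (by norm_num))
    exact ok_clique (a := 48) (δ := 0) (by norm_num) (by norm_num) (by norm_num) h rfl rfl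
  · exact key 73 0 30 0 103 2625 2628 (by decide) (by decide) (by decide) (by decide) rfl rfl rfl

/-- finite part of the arithmetic -/
def chk (n a r : ℕ) : Bool :=
  decide (r ≤ top (n - a)) || special.contains (n, a * (a - 1) / 2 + r)

def chkA (n a : ℕ) : Bool :=
  decide (n < 10) || decide (7 * a + 12 < 5 * n) || decide (a < 3) ||
    decide (n * (n - 1) < 2 * (a * (a - 1))) ||
    (List.range (a - 2)).all fun r =>
      decide (n * (n - 1) < 4 * (a * (a - 1) / 2 + r)) || chk n a r

theorem chk_all : ((List.range 260).all fun n => (List.range 4).all fun i =>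
    chkA n ((5 * n + 8) / 7 - i)) = true := by
  decide +kernel

theorem chk_use {n a r : ℕ} (h1 : 10 ≤ n) (h2 : n < 260) (h3 : 7 * a ≤ 5 * n + 8)
    (h4 : 5 * n ≤ 7 * a + 12) (h5 : 3 ≤ a) (h6 : r < a - 2) (h7 : 4 * (a * (a - 1) / 2 + r) ≤ n * (n - 1)) :
    r ≤ top (n - a) ∨ (n, a * (a - 1) / 2 + r) ∈ special := by
  have h := chk_all
  rw [List.all_eq_true] at h
  have := h n (List.mem_range.2 h2)
  rw [List.all_eq_true] at this
  have := this ((5 * n + 8) / 7 - a) (List.mem_range.2 (by omega))
  have hi : (5 * n + 8) / 7 - ((5 * n + 8) / 7 - a) = a := by omega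
  rw [hi] at this
  unfold chkA at this
  have h8 : ¬ (n * (n - 1) < 2 * (a * (a - 1))) := by
    have : 2 * (a * (a - 1) / 2) = a * (a - 1) := by
      have := Nat.even_mul_pred_self a
      obtain ⟨k, hk⟩ := this
      rw [hk]; omega
    omega
  have h9 : ¬ (n < 10) := by omega
  have h10 : ¬ (7 * a + 12 < 5 * n) := by omega
  have h11 : ¬ (a < 3) := by omega
  simp only [h8, h9, h10, h11, decide_false, Bool.false_or, Bool.or_false] at this
  rw [List.all_eq_true] at this
  have := this r (List.mem_range.2 h6)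
  have h12 : ¬ (n * (n - 1) < 4 * (a * (a - 1) / 2 + r)) := by omega
  simp only [h12, decide_false, Bool.false_or, chk, Bool.or_eq_true, decide_eq_true_eq] at this
  rcases this with h | h
  · exact Or.inl h
  · exact Or.inr (by simpa using h)

theorem ok_half {n e : ℕ} (hn : 10 ≤ n) (he : 4 * e ≤ n * (n - 1)) : OkG n e := by
  -- largest clique
  obtain ⟨a, ha1, ha2⟩ : ∃ a, a * (a - 1) ≤ 2 * e ∧ 2 * e < (a + 1) * a := by
    have hex : ∃ b, 2 * e < (b + 1) * b := ⟨2 * e + 1, by nlinarith⟩
    refine ⟨Nat.find hex, ?_, Nat.find_spec hex⟩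
    rcases Nat.eq_zero_or_pos (Nat.find hex) with h | h
    · rw [h]; simp
    · have := Nat.find_min hex (m := Nat.find hex - 1) (by omega)
      push Not at this
      have h2 : Nat.find hex - 1 + 1 = Nat.find hex := by omega
      rwa [h2] at this
  have ha0 : 1 ≤ a := by
    rcases Nat.eq_zero_or_pos a with h | h
    · subst h; simp at ha2
    · exact h
  have hane : a < n := by
    by_contra hcon
    push Not at hcon
    have h1 : n * (n - 1) ≤ a * (a - 1) := Nat.mul_le_mul hcon (by omega)
    have h2 : 0 < n * (n - 1) := Nat.mul_pos (by omega) (by omega)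
    omega
  have heven : 2 * (a * (a - 1) / 2) = a * (a - 1) := by
    obtain ⟨k, hk⟩ := Nat.even_mul_pred_self a
    rw [hk]; omega
  have hsucc : (a + 1) * a = a * (a - 1) + 2 * a := by
    obtain ⟨b, rfl⟩ : ∃ b, a = b + 1 := ⟨a - 1, by omega⟩
    simp; ring
  by_cases hδ : 2 * e + 4 ≥ (a + 1) * a
  · -- a slightly defective clique
    obtain ⟨δ, hδ1⟩ : ∃ δ, 2 * (e + δ) = (a + 1) * a := by
      refine ⟨a * (a - 1) / 2 + a - e, ?_⟩
      omega
    by_cases ha3 : a = 1
    · -- e = 0
      subst ha3
      have : e = 0 := by omega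
      subst this
      exact ok_clique (a := 1) (δ := 0) (N := n - 1) (r := 0) le_rfl (by norm_num) (by norm_num)
        (ach_top _ _ (Nat.zero_le _)) (by omega) (by norm_num)
    · refine ok_clique (a := a + 1) (δ := δ) (N := n - (a + 1)) (r := 0) (by omega) (by omega)
        (by omega) (ach_top _ _ (Nat.zero_le _)) (by omega) ?_
      simpa using hδ1
  · push Not at hδ
    obtain ⟨r, hr⟩ : ∃ r, e = a * (a - 1) / 2 + r := ⟨e - a * (a - 1) / 2, by omega⟩
    have hr3 : r < a - 2 := by omega
    have fin : r ≤ top (n - a) → OkG n e := by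
      intro h
      exact ok_clique (a := a) (δ := 0) (N := n - a) (r := r) ha0 (by norm_num) (by omega)
        (ach_top _ _ h) (by omega) (by omega)
    have htop := top_ge (n - a)
    by_cases h7 : 7 * a + 13 ≤ 5 * n
    · apply fin
      omega
    · push Not at h7
      have hq : 2 * (a * (a - 1)) ≤ n * (n - 1) := by omega
      have hn260 : n < 260 := by
        by_contra hcon
        push Not at hcon
        have h8 : 5 * n ≤ 7 * a + 12 := by omega
        obtain ⟨b, rfl⟩ : ∃ b, a = b + 1 := ⟨a - 1, by omega⟩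
        obtain ⟨m, rfl⟩ : ∃ m, n = m + 1 := ⟨n - 1, by omega⟩
        simp only [Nat.add_sub_cancel] at hq
        zify at *
        nlinarith [mul_self_nonneg ((7 * (b : ℤ) - 5 * m))]
      have ha190 : 7 * a ≤ 5 * n + 8 := by
        by_contra hcon
        push Not at hcon
        obtain ⟨b, rfl⟩ : ∃ b, a = b + 1 := ⟨a - 1, by omega⟩
        obtain ⟨m, rfl⟩ : ∃ m, n = m + 1 := ⟨n - 1, by omega⟩
        simp only [Nat.add_sub_cancel] at hq
        have h8 : 5 * m + 7 ≤ 7 * b := by omega
        nlinarith [Nat.mul_le_mul h8 h8]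
      rcases chk_use hn hn260 ha190 (by omega) (by omega) hr3 (by rw [← hr]; exact he) with h | h
      · exact fin h
      · rw [← hr] at h
        exact ok_special _ h

theorem ok_all {n e : ℕ} (hn : 10 ≤ n) (he : 2 * e ≤ n * (n - 1)) : OkG n e := by
  by_cases h : 4 * e ≤ n * (n - 1)
  · exact ok_half hn h
  · push Not at h
    obtain ⟨k, hk⟩ := Nat.even_mul_pred_self n
    have h1 : OkG n (k - e) := ok_half hn (by omega)
    exact h1.compl (by omega)

end

end Pool.Agent.R40.NineEighteen
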