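import Mathlib

/-!
# Zero-sum placements over the Klein group: basic tools
-/

namespace Pool.Agent.R40.ZSR

open Finset Function

set_option linter.unusedSectionVars false

variable {V P : Type} [DecidableEq V] [DecidableEq P]

/-- sum of the colours of the edges of the placed graph -/
def F (E : Finset (Sym2 V)) (c : Sym2 P → ZMod 2) (φ : V → P) : ZMod 2 := ∑ e ∈ E, c (e.map φ)

/-- there is a placement inside `X` whose two colour sums vanish -/
def HZ (E : Finset (Sym2 V)) (c1 c2 : Sym2 P → ZMod 2) (X : Finset P) : Prop :=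
  ∃ φ : V → P, Injective φ ∧ (∀ v, φ v ∈ X) ∧ F E c1 φ = 0 ∧ F E c2 φ = 0

/-- switch -/
def sw (c : Sym2 P → ZMod 2) (a b x y : P) : ZMod 2 :=
  c s(a, x) + c s(b, x) + c s(a, y) + c s(b, y)

/-- all switches inside `X` vanish -/
def Flat (c : Sym2 P → ZMod 2) (X : Finset P) : Prop :=
  ∀ a ∈ X, ∀ b ∈ X, ∀ x ∈ X, ∀ y ∈ X, [a, b, x, y].Nodup → sw c a b x y = 0

theorem Flat.mono {c : Sym2 P → ZMod 2} {X Y : Finset P} (h : Flat c X) (hY : Y ⊆ X) :
    Flat c Y := fun a ha b hb x hx y hy => h a (hY ha) b (hY hb) x (hY hx) y (hY hy)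

theorem HZ.mono {E : Finset (Sym2 V)} {c1 c2 : Sym2 P → ZMod 2} {X Y : Finset P}
    (h : HZ E c1 c2 X) (hY : X ⊆ Y) : HZ E c1 c2 Y := by
  obtain ⟨φ, h1, h2, h3⟩ := h
  exact ⟨φ, h1, fun v => hY (h2 v), h3⟩

theorem add_self2 (x : ZMod 2) : x + x = 0 := CharTwo.add_self_eq_zero x

/-- the square identity -/
theorem square (E : Finset (Sym2 V)) (hE : ∀ e ∈ E, ¬ e.IsDiag) (c : Sym2 P → ZMod 2)
    {u v : V} (huv : u ≠ v) (p00 p10 p01 p11 : V → P)
    (h1 : ∀ w, w ≠ u → w ≠ v → p10 w = p00 w ∧ p01 w = p00 w ∧ p11 w = p00 w)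
    (hu0 : p01 u = p00 u) (hu1 : p11 u = p10 u) (hv0 : p10 v = p00 v) (hv1 : p11 v = p01 v) :
    F E c p00 + F E c p10 + F E c p01 + F E c p11 =
      if s(u, v) ∈ E then sw c (p00 u) (p10 u) (p00 v) (p01 v) else 0 := by
  unfold F
  rw [← Finset.sum_add_distrib, ← Finset.sum_add_distrib, ← Finset.sum_add_distrib]
  have key : ∀ e ∈ E, c (e.map p00) + c (e.map p10) + c (e.map p01) + c (e.map p11) =
      if e = s(u, v) then sw c (p00 u) (p10 u) (p00 v) (p01 v) else 0 := by
    intro e he
    have hd := hE e he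
    induction e using Sym2.ind with
    | _ x y =>
    simp only [Sym2.map_mk]
    rw [Sym2.mk_isDiag_iff] at hd
    by_cases hxu : x = u
    · subst hxu
      by_cases hyv : y = v
      · subst hyv
        rw [if_pos rfl, hu0, hu1, hv0, hv1]
        unfold sw
        ring
      · rw [if_neg, hu0, hu1, (h1 y (Ne.symm hd) hyv).1, (h1 y (Ne.symm hd) hyv).2.1,
          (h1 y (Ne.symm hd) hyv).2.2]
        · linear_combination (c s(p00 x, p00 y) + c s(p10 x, p00 y)) *
            (by decide : (2 : ZMod 2) = 0)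
        · intro h
          rw [Sym2.eq_iff] at h
          rcases h with ⟨_, h⟩ | ⟨h, _⟩
          · exact hyv h
          · exact huv h
    · by_cases hyu : y = u
      · subst hyu
        by_cases hxv : x = v
        · subst hxv
          rw [if_pos Sym2.eq_swap, hu0, hu1, hv0, hv1]
          unfold sw
          rw [Sym2.eq_swap (a := p00 y), Sym2.eq_swap (a := p10 y), Sym2.eq_swap (a := p00 y),
            Sym2.eq_swap (a := p10 y)]
        · rw [if_neg, hu0, hu1, (h1 x hxu hxv).1, (h1 x hxu hxv).2.1, (h1 x hxu hxv).2.2]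
          · linear_combination (c s(p00 x, p00 y) + c s(p00 x, p10 y)) *
              (by decide : (2 : ZMod 2) = 0)
          · intro h
            rw [Sym2.eq_iff] at h
            rcases h with ⟨h, _⟩ | ⟨h, _⟩
            · exact hxu h
            · exact hxv h
      · have e1 : p01 y = p11 y := by
          by_cases hyv : y = v
          · subst hyv; exact hv1.symm
          · rw [(h1 y hyu hyv).2.1, (h1 y hyu hyv).2.2]
        have e2 : p01 x = p11 x := by
          by_cases hyv : x = v
          · subst hyv; exact hv1.symm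
          · rw [(h1 x hxu hyv).2.1, (h1 x hxu hyv).2.2]
        have e3 : p10 y = p00 y := by
          by_cases hyv : y = v
          · subst hyv; exact hv0
          · rw [(h1 y hyu hyv).1]
        have e4 : p10 x = p00 x := by
          by_cases hyv : x = v
          · subst hyv; exact hv0
          · rw [(h1 x hxu hyv).1]
        rw [if_neg, e1, e2, e3, e4]
        · linear_combination (c s(p00 x, p00 y) + c s(p11 x, p11 y)) *
              (by decide : (2 : ZMod 2) = 0)
        · intro h
          rw [Sym2.eq_iff] at h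
          rcases h with ⟨h, _⟩ | ⟨_, h⟩
          · exact hxu h
          · exact hyu h
  rw [Finset.sum_congr rfl key, Finset.sum_ite_eq' E s(u, v)]

/-- an injection into `X` avoiding `B` -/
theorem exEmb [Fintype V] (X B : Finset P) (h : Fintype.card V + B.card ≤ X.card) :
    ∃ φ : V → P, Injective φ ∧ ∀ v, φ v ∈ X ∧ φ v ∉ B := by
  have h1 : Fintype.card V ≤ (X \ B).card := by
    have := Finset.le_card_sdiff B X
    omega
  rw [← Fintype.card_coe (X \ B)] at h1
  obtain ⟨g⟩ := Function.Embedding.nonempty_of_card_le h1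
  refine ⟨fun v => (g v : P), fun v w h => g.injective (Subtype.ext h), fun v => ?_⟩
  have := (g v).2
  rw [Finset.mem_sdiff] at this
  exact this

theorem inj_update {φ : V → P} (hφ : Injective φ) {u : V} {x : P} (hx : ∀ v, φ v ≠ x) :
    Injective (update φ u x) := by
  intro v w h
  by_cases hv : v = u
  · by_cases hw : w = u
    · rw [hv, hw]
    · rw [hv, update_self, update_of_ne hw] at h
      exact absurd h.symm (hx w)
  · by_cases hw : w = u
    · rw [hw, update_self, update_of_ne hv] at h
      exact absurd h (hx v)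
    · rw [update_of_ne hv, update_of_ne hw] at h
      exact hφ h

theorem update_ne' {φ : V → P} {u : V} {x y : P} (hxy : x ≠ y) (hy : ∀ v, φ v ≠ y) :
    ∀ v, update φ u x v ≠ y := by
  intro v
  by_cases hv : v = u
  · rw [hv, update_self]; exact hxy
  · rw [update_of_ne hv]; exact hy v

theorem update_mem' {φ : V → P} {u : V} {x : P} {X : Finset P} (hx : x ∈ X)
    (hy : ∀ v, φ v ∈ X) : ∀ v, update φ u x v ∈ X := by
  intro v
  by_cases hv : v = u
  · rw [hv, update_self]; exact hx
  · rw [update_of_ne hv]; exact hy v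

end Pool.Agent.R40.ZSR
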