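import Pool.Agent.R40.ZSRa

/-!
# Zero-sum placements over the Klein group: the four vertex identity
-/

namespace Pool.Agent.R40.ZSR

open Finset Function

set_option linter.unusedSectionVars false
set_option linter.unusedSimpArgs false

variable {V P : Type} [DecidableEq V] [DecidableEq P]

theorem alg4 (a b1 b2 b3 b4 g12 g13 g14 g23 g24 g34
    a' b1' b2' b3' b4' g12' g13' g14' g23' g24' g34' : ZMod 2)
    (h0000 : (a + 1) *
      (a' + 1) = 0)
    (h0001 : (a + b4 + 1) *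
      (a' + b4' + 1) = 0)
    (h0010 : (a + b3 + 1) *
      (a' + b3' + 1) = 0)
    (h0011 : (a + b3 + b4 + g34 + 1) *
      (a' + b3' + b4' + g34' + 1) = 0)
    (h0100 : (a + b2 + 1) *
      (a' + b2' + 1) = 0)
    (h0101 : (a + b2 + b4 + g24 + 1) *
      (a' + b2' + b4' + g24' + 1) = 0)
    (h0110 : (a + b2 + b3 + g23 + 1) *
      (a' + b2' + b3' + g23' + 1) = 0)
    (h0111 : (a + b2 + b3 + b4 + g23 + g24 + g34 + 1) *
      (a' + b2' + b3' + b4' + g23' + g24' + g34' + 1) = 0)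
    (h1000 : (a + b1 + 1) *
      (a' + b1' + 1) = 0)
    (h1001 : (a + b1 + b4 + g14 + 1) *
      (a' + b1' + b4' + g14' + 1) = 0)
    (h1010 : (a + b1 + b3 + g13 + 1) *
      (a' + b1' + b3' + g13' + 1) = 0)
    (h1011 : (a + b1 + b3 + b4 + g13 + g14 + g34 + 1) *
      (a' + b1' + b3' + b4' + g13' + g14' + g34' + 1) = 0)
    (h1100 : (a + b1 + b2 + g12 + 1) *
      (a' + b1' + b2' + g12' + 1) = 0)
    (h1101 : (a + b1 + b2 + b4 + g12 + g14 + g24 + 1) *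
      (a' + b1' + b2' + b4' + g12' + g14' + g24' + 1) = 0)
    (h1110 : (a + b1 + b2 + b3 + g12 + g13 + g23 + 1) *
      (a' + b1' + b2' + b3' + g12' + g13' + g23' + 1) = 0)
    (h1111 : (a + b1 + b2 + b3 + b4 + g12 + g13 + g14 + g23 + g24 + g34 + 1) *
      (a' + b1' + b2' + b3' + b4' + g12' + g13' + g14' + g23' + g24' + g34' + 1) = 0)
    : g12 * g34' + g34 * g12' + (g13 * g24' + g24 * g13') + (g14 * g23' + g23 * g14') = 0 := by
  linear_combination (norm := (ring_nf; reduce_mod_char))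
    h0000 + h0001 + h0010 + h0011 + h0100 + h0101 + h0110 + h0111 +
    h1000 + h1001 + h1010 + h1011 + h1100 + h1101 + h1110 + h1111

/-- placement of four active vertices -/
def pl (φ : V → P) (u1 u2 u3 u4 : V) (x1 x2 x3 x4 : P) : V → P :=
  update (update (update (update φ u1 x1) u2 x2) u3 x3) u4 x4

/-- switch times adjacency -/
def gam (E : Finset (Sym2 V)) (c : Sym2 P → ZMod 2) (u v : V) (a b x y : P) : ZMod 2 :=
  if s(u, v) ∈ E then sw c a b x y else 0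

theorem sq12 (E : Finset (Sym2 V)) (hE : ∀ e ∈ E, ¬ e.IsDiag) (c : Sym2 P → ZMod 2)
    {u1 u2 u3 u4 : V} (hu : [u1, u2, u3, u4].Nodup) (φ : V → P) (a1 b1 a2 b2 x3 x4 : P) :
    F E c (pl φ u1 u2 u3 u4 a1 a2 x3 x4) + F E c (pl φ u1 u2 u3 u4 b1 a2 x3 x4) +
      F E c (pl φ u1 u2 u3 u4 a1 b2 x3 x4) + F E c (pl φ u1 u2 u3 u4 b1 b2 x3 x4) =
      gam E c u1 u2 a1 b1 a2 b2 := by
  simp only [List.nodup_cons, List.mem_cons, List.not_mem_nil, or_false, not_or, not_false_eq_true,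
    List.nodup_nil, and_true] at hu
  obtain ⟨⟨h12, h13, h14⟩, ⟨h23, h24⟩, h34⟩ := hu
  have := square E hE c h12 (pl φ u1 u2 u3 u4 a1 a2 x3 x4)
    (pl φ u1 u2 u3 u4 b1 a2 x3 x4) (pl φ u1 u2 u3 u4 a1 b2 x3 x4)
    (pl φ u1 u2 u3 u4 b1 b2 x3 x4)
    (by intro w hw1 hw2; simp [pl, update_apply, hw1, hw2])
    (by simp [pl, update_apply, h12, h13, h14, h23, h24, h34])
    (by simp [pl, update_apply, h12, h13, h14, h23, h24, h34])
    (by simp [pl, update_apply, h12, h13, h14, h23, h24, h34])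
    (by simp [pl, update_apply, h12, h13, h14, h23, h24, h34])
  simpa [pl, gam, update_apply, h12, h13, h14, h23, h24, h34] using this

theorem sq13 (E : Finset (Sym2 V)) (hE : ∀ e ∈ E, ¬ e.IsDiag) (c : Sym2 P → ZMod 2)
    {u1 u2 u3 u4 : V} (hu : [u1, u2, u3, u4].Nodup) (φ : V → P) (a1 b1 x2 a3 b3 x4 : P) :
    F E c (pl φ u1 u2 u3 u4 a1 x2 a3 x4) + F E c (pl φ u1 u2 u3 u4 b1 x2 a3 x4) +
      F E c (pl φ u1 u2 u3 u4 a1 x2 b3 x4) + F E c (pl φ u1 u2 u3 u4 b1 x2 b3 x4) =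
      gam E c u1 u3 a1 b1 a3 b3 := by
  simp only [List.nodup_cons, List.mem_cons, List.not_mem_nil, or_false, not_or, not_false_eq_true,
    List.nodup_nil, and_true] at hu
  obtain ⟨⟨h12, h13, h14⟩, ⟨h23, h24⟩, h34⟩ := hu
  have := square E hE c h13 (pl φ u1 u2 u3 u4 a1 x2 a3 x4)
    (pl φ u1 u2 u3 u4 b1 x2 a3 x4) (pl φ u1 u2 u3 u4 a1 x2 b3 x4)
    (pl φ u1 u2 u3 u4 b1 x2 b3 x4)
    (by intro w hw1 hw2; simp [pl, update_apply, hw1, hw2])
    (by simp [pl, update_apply, h12, h13, h14, h23, h24, h34])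
    (by simp [pl, update_apply, h12, h13, h14, h23, h24, h34])
    (by simp [pl, update_apply, h12, h13, h14, h23, h24, h34])
    (by simp [pl, update_apply, h12, h13, h14, h23, h24, h34])
  simpa [pl, gam, update_apply, h12, h13, h14, h23, h24, h34] using this

theorem sq14 (E : Finset (Sym2 V)) (hE : ∀ e ∈ E, ¬ e.IsDiag) (c : Sym2 P → ZMod 2)
    {u1 u2 u3 u4 : V} (hu : [u1, u2, u3, u4].Nodup) (φ : V → P) (a1 b1 x2 x3 a4 b4 : P) :
    F E c (pl φ u1 u2 u3 u4 a1 x2 x3 a4) + F E c (pl φ u1 u2 u3 u4 b1 x2 x3 a4) +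
      F E c (pl φ u1 u2 u3 u4 a1 x2 x3 b4) + F E c (pl φ u1 u2 u3 u4 b1 x2 x3 b4) =
      gam E c u1 u4 a1 b1 a4 b4 := by
  simp only [List.nodup_cons, List.mem_cons, List.not_mem_nil, or_false, not_or, not_false_eq_true,
    List.nodup_nil, and_true] at hu
  obtain ⟨⟨h12, h13, h14⟩, ⟨h23, h24⟩, h34⟩ := hu
  have := square E hE c h14 (pl φ u1 u2 u3 u4 a1 x2 x3 a4)
    (pl φ u1 u2 u3 u4 b1 x2 x3 a4) (pl φ u1 u2 u3 u4 a1 x2 x3 b4)
    (pl φ u1 u2 u3 u4 b1 x2 x3 b4)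
    (by intro w hw1 hw2; simp [pl, update_apply, hw1, hw2])
    (by simp [pl, update_apply, h12, h13, h14, h23, h24, h34])
    (by simp [pl, update_apply, h12, h13, h14, h23, h24, h34])
    (by simp [pl, update_apply, h12, h13, h14, h23, h24, h34])
    (by simp [pl, update_apply, h12, h13, h14, h23, h24, h34])
  simpa [pl, gam, update_apply, h12, h13, h14, h23, h24, h34] using this

theorem sq23 (E : Finset (Sym2 V)) (hE : ∀ e ∈ E, ¬ e.IsDiag) (c : Sym2 P → ZMod 2)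
    {u1 u2 u3 u4 : V} (hu : [u1, u2, u3, u4].Nodup) (φ : V → P) (x1 a2 b2 a3 b3 x4 : P) :
    F E c (pl φ u1 u2 u3 u4 x1 a2 a3 x4) + F E c (pl φ u1 u2 u3 u4 x1 b2 a3 x4) +
      F E c (pl φ u1 u2 u3 u4 x1 a2 b3 x4) + F E c (pl φ u1 u2 u3 u4 x1 b2 b3 x4) =
      gam E c u2 u3 a2 b2 a3 b3 := by
  simp only [List.nodup_cons, List.mem_cons, List.not_mem_nil, or_false, not_or, not_false_eq_true,
    List.nodup_nil, and_true] at hu
  obtain ⟨⟨h12, h13, h14⟩, ⟨h23, h24⟩, h34⟩ := hu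
  have := square E hE c h23 (pl φ u1 u2 u3 u4 x1 a2 a3 x4)
    (pl φ u1 u2 u3 u4 x1 b2 a3 x4) (pl φ u1 u2 u3 u4 x1 a2 b3 x4)
    (pl φ u1 u2 u3 u4 x1 b2 b3 x4)
    (by intro w hw1 hw2; simp [pl, update_apply, hw1, hw2])
    (by simp [pl, update_apply, h12, h13, h14, h23, h24, h34])
    (by simp [pl, update_apply, h12, h13, h14, h23, h24, h34])
    (by simp [pl, update_apply, h12, h13, h14, h23, h24, h34])
    (by simp [pl, update_apply, h12, h13, h14, h23, h24, h34])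
  simpa [pl, gam, update_apply, h12, h13, h14, h23, h24, h34] using this

theorem sq24 (E : Finset (Sym2 V)) (hE : ∀ e ∈ E, ¬ e.IsDiag) (c : Sym2 P → ZMod 2)
    {u1 u2 u3 u4 : V} (hu : [u1, u2, u3, u4].Nodup) (φ : V → P) (x1 a2 b2 x3 a4 b4 : P) :
    F E c (pl φ u1 u2 u3 u4 x1 a2 x3 a4) + F E c (pl φ u1 u2 u3 u4 x1 b2 x3 a4) +
      F E c (pl φ u1 u2 u3 u4 x1 a2 x3 b4) + F E c (pl φ u1 u2 u3 u4 x1 b2 x3 b4) =
      gam E c u2 u4 a2 b2 a4 b4 := by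
  simp only [List.nodup_cons, List.mem_cons, List.not_mem_nil, or_false, not_or, not_false_eq_true,
    List.nodup_nil, and_true] at hu
  obtain ⟨⟨h12, h13, h14⟩, ⟨h23, h24⟩, h34⟩ := hu
  have := square E hE c h24 (pl φ u1 u2 u3 u4 x1 a2 x3 a4)
    (pl φ u1 u2 u3 u4 x1 b2 x3 a4) (pl φ u1 u2 u3 u4 x1 a2 x3 b4)
    (pl φ u1 u2 u3 u4 x1 b2 x3 b4)
    (by intro w hw1 hw2; simp [pl, update_apply, hw1, hw2])
    (by simp [pl, update_apply, h12, h13, h14, h23, h24, h34])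
    (by simp [pl, update_apply, h12, h13, h14, h23, h24, h34])
    (by simp [pl, update_apply, h12, h13, h14, h23, h24, h34])
    (by simp [pl, update_apply, h12, h13, h14, h23, h24, h34])
  simpa [pl, gam, update_apply, h12, h13, h14, h23, h24, h34] using this

theorem sq34 (E : Finset (Sym2 V)) (hE : ∀ e ∈ E, ¬ e.IsDiag) (c : Sym2 P → ZMod 2)
    {u1 u2 u3 u4 : V} (hu : [u1, u2, u3, u4].Nodup) (φ : V → P) (x1 x2 a3 b3 a4 b4 : P) :
    F E c (pl φ u1 u2 u3 u4 x1 x2 a3 a4) + F E c (pl φ u1 u2 u3 u4 x1 x2 b3 a4) +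
      F E c (pl φ u1 u2 u3 u4 x1 x2 a3 b4) + F E c (pl φ u1 u2 u3 u4 x1 x2 b3 b4) =
      gam E c u3 u4 a3 b3 a4 b4 := by
  simp only [List.nodup_cons, List.mem_cons, List.not_mem_nil, or_false, not_or, not_false_eq_true,
    List.nodup_nil, and_true] at hu
  obtain ⟨⟨h12, h13, h14⟩, ⟨h23, h24⟩, h34⟩ := hu
  have := square E hE c h34 (pl φ u1 u2 u3 u4 x1 x2 a3 a4)
    (pl φ u1 u2 u3 u4 x1 x2 b3 a4) (pl φ u1 u2 u3 u4 x1 x2 a3 b4)
    (pl φ u1 u2 u3 u4 x1 x2 b3 b4)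
    (by intro w hw1 hw2; simp [pl, update_apply, hw1, hw2])
    (by simp [pl, update_apply, h12, h13, h14, h23, h24, h34])
    (by simp [pl, update_apply, h12, h13, h14, h23, h24, h34])
    (by simp [pl, update_apply, h12, h13, h14, h23, h24, h34])
    (by simp [pl, update_apply, h12, h13, h14, h23, h24, h34])
  simpa [pl, gam, update_apply, h12, h13, h14, h23, h24, h34] using this

theorem poly4 (E : Finset (Sym2 V)) (hE : ∀ e ∈ E, ¬ e.IsDiag) (c : Sym2 P → ZMod 2)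
    {u1 u2 u3 u4 : V} (hu : [u1, u2, u3, u4].Nodup) (φ : V → P) (a1 a2 a3 a4 b1 b2 b3 b4 : P)
    (G : P → P → P → P → ZMod 2)
    (hG : ∀ x1 x2 x3 x4, G x1 x2 x3 x4 = F E c (pl φ u1 u2 u3 u4 x1 x2 x3 x4))
    (g12 g13 g14 g23 g24 g34 : ZMod 2)
    (h12 : g12 = gam E c u1 u2 a1 b1 a2 b2) (h13 : g13 = gam E c u1 u3 a1 b1 a3 b3)
    (h14 : g14 = gam E c u1 u4 a1 b1 a4 b4) (h23 : g23 = gam E c u2 u3 a2 b2 a3 b3)
    (h24 : g24 = gam E c u2 u4 a2 b2 a4 b4) (h34 : g34 = gam E c u3 u4 a3 b3 a4 b4) :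
    ∃ a d1 d2 d3 d4 : ZMod 2,
      G a1 a2 a3 a4 = a ∧
      G a1 a2 a3 b4 = a + d4 ∧
      G a1 a2 b3 a4 = a + d3 ∧
      G a1 a2 b3 b4 = a + d3 + d4 + g34 ∧
      G a1 b2 a3 a4 = a + d2 ∧
      G a1 b2 a3 b4 = a + d2 + d4 + g24 ∧
      G a1 b2 b3 a4 = a + d2 + d3 + g23 ∧
      G a1 b2 b3 b4 = a + d2 + d3 + d4 + g23 + g24 + g34 ∧
      G b1 a2 a3 a4 = a + d1 ∧
      G b1 a2 a3 b4 = a + d1 + d4 + g14 ∧
      G b1 a2 b3 a4 = a + d1 + d3 + g13 ∧
      G b1 a2 b3 b4 = a + d1 + d3 + d4 + g13 + g14 + g34 ∧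
      G b1 b2 a3 a4 = a + d1 + d2 + g12 ∧
      G b1 b2 a3 b4 = a + d1 + d2 + d4 + g12 + g14 + g24 ∧
      G b1 b2 b3 a4 = a + d1 + d2 + d3 + g12 + g13 + g23 ∧
      G b1 b2 b3 b4 = a + d1 + d2 + d3 + d4 + g12 + g13 + g14 + g23 + g24 + g34 := by
  obtain ⟨a, ha⟩ : ∃ a, a = G a1 a2 a3 a4 := ⟨_, rfl⟩
  obtain ⟨d1, hd1⟩ : ∃ d, d = G b1 a2 a3 a4 + G a1 a2 a3 a4 := ⟨_, rfl⟩
  obtain ⟨d2, hd2⟩ : ∃ d, d = G a1 b2 a3 a4 + G a1 a2 a3 a4 := ⟨_, rfl⟩
  obtain ⟨d3, hd3⟩ : ∃ d, d = G a1 a2 b3 a4 + G a1 a2 a3 a4 := ⟨_, rfl⟩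
  obtain ⟨d4, hd4⟩ : ∃ d, d = G a1 a2 a3 b4 + G a1 a2 a3 a4 := ⟨_, rfl⟩
  have k0000 : G a1 a2 a3 a4 = a := ha.symm
  have k0001 : G a1 a2 a3 b4 = a + d4 := by
    linear_combination (norm := (ring_nf; reduce_mod_char)) ha + hd4
  have k0010 : G a1 a2 b3 a4 = a + d3 := by
    linear_combination (norm := (ring_nf; reduce_mod_char)) ha + hd3
  have k0100 : G a1 b2 a3 a4 = a + d2 := by
    linear_combination (norm := (ring_nf; reduce_mod_char)) ha + hd2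
  have k1000 : G b1 a2 a3 a4 = a + d1 := by
    linear_combination (norm := (ring_nf; reduce_mod_char)) ha + hd1
  have k0011 : G a1 a2 b3 b4 = a + d3 + d4 + g34 := by
    have e := sq34 E hE c hu φ a1 a2 a3 b3 a4 b4
    rw [← hG, ← hG, ← hG, ← hG, ← h34] at e
    linear_combination (norm := (ring_nf; reduce_mod_char)) e + k0000 + k0001 + k0010
  have k0101 : G a1 b2 a3 b4 = a + d2 + d4 + g24 := by
    have e := sq24 E hE c hu φ a1 a2 b2 a3 a4 b4
    rw [← hG, ← hG, ← hG, ← hG, ← h24] at e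
    linear_combination (norm := (ring_nf; reduce_mod_char)) e + k0000 + k0001 + k0100
  have k0110 : G a1 b2 b3 a4 = a + d2 + d3 + g23 := by
    have e := sq23 E hE c hu φ a1 a2 b2 a3 b3 a4
    rw [← hG, ← hG, ← hG, ← hG, ← h23] at e
    linear_combination (norm := (ring_nf; reduce_mod_char)) e + k0000 + k0010 + k0100
  have k1001 : G b1 a2 a3 b4 = a + d1 + d4 + g14 := by
    have e := sq14 E hE c hu φ a1 b1 a2 a3 a4 b4
    rw [← hG, ← hG, ← hG, ← hG, ← h14] at e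
    linear_combination (norm := (ring_nf; reduce_mod_char)) e + k0000 + k0001 + k1000
  have k1010 : G b1 a2 b3 a4 = a + d1 + d3 + g13 := by
    have e := sq13 E hE c hu φ a1 b1 a2 a3 b3 a4
    rw [← hG, ← hG, ← hG, ← hG, ← h13] at e
    linear_combination (norm := (ring_nf; reduce_mod_char)) e + k0000 + k0010 + k1000
  have k1100 : G b1 b2 a3 a4 = a + d1 + d2 + g12 := by
    have e := sq12 E hE c hu φ a1 b1 a2 b2 a3 a4
    rw [← hG, ← hG, ← hG, ← hG, ← h12] at e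
    linear_combination (norm := (ring_nf; reduce_mod_char)) e + k0000 + k0100 + k1000
  have k0111 : G a1 b2 b3 b4 = a + d2 + d3 + d4 + g23 + g24 + g34 := by
    have e := sq23 E hE c hu φ a1 a2 b2 a3 b3 b4
    rw [← hG, ← hG, ← hG, ← hG, ← h23] at e
    linear_combination (norm := (ring_nf; reduce_mod_char)) e + k0001 + k0011 + k0101
  have k1011 : G b1 a2 b3 b4 = a + d1 + d3 + d4 + g13 + g14 + g34 := by
    have e := sq13 E hE c hu φ a1 b1 a2 a3 b3 b4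
    rw [← hG, ← hG, ← hG, ← hG, ← h13] at e
    linear_combination (norm := (ring_nf; reduce_mod_char)) e + k0001 + k0011 + k1001
  have k1101 : G b1 b2 a3 b4 = a + d1 + d2 + d4 + g12 + g14 + g24 := by
    have e := sq12 E hE c hu φ a1 b1 a2 b2 a3 b4
    rw [← hG, ← hG, ← hG, ← hG, ← h12] at e
    linear_combination (norm := (ring_nf; reduce_mod_char)) e + k0001 + k0101 + k1001
  have k1110 : G b1 b2 b3 a4 = a + d1 + d2 + d3 + g12 + g13 + g23 := by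
    have e := sq12 E hE c hu φ a1 b1 a2 b2 b3 a4
    rw [← hG, ← hG, ← hG, ← hG, ← h12] at e
    linear_combination (norm := (ring_nf; reduce_mod_char)) e + k0010 + k0110 + k1010
  have k1111 : G b1 b2 b3 b4 = a + d1 + d2 + d3 + d4 + g12 + g13 + g14 + g23 + g24 + g34 := by
    have e := sq12 E hE c hu φ a1 b1 a2 b2 b3 b4
    rw [← hG, ← hG, ← hG, ← hG, ← h12] at e
    linear_combination (norm := (ring_nf; reduce_mod_char)) e + k0011 + k0111 + k1011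
  exact ⟨a, d1, d2, d3, d4, k0000, k0001, k0010, k0011, k0100, k0101, k0110, k0111, k1000, k1001, k1010, k1011, k1100, k1101, k1110, k1111⟩

theorem prod_zero : ∀ z w : ZMod 2, ¬ (z = 0 ∧ w = 0) → (z + 1) * (w + 1) = 0 := by decide

theorem T4 [Fintype V] {E : Finset (Sym2 V)} (hE : ∀ e ∈ E, ¬ e.IsDiag)
    {c1 c2 : Sym2 P → ZMod 2} {X : Finset P} (hno : ¬ HZ E c1 c2 X)
    (hX : Fintype.card V + 8 ≤ X.card) {u1 u2 u3 u4 : V} (hu : [u1, u2, u3, u4].Nodup)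
    {a1 b1 a2 b2 a3 b3 a4 b4 : P} (hp : [a1, b1, a2, b2, a3, b3, a4, b4].Nodup)
    (hpX : ∀ x ∈ [a1, b1, a2, b2, a3, b3, a4, b4], x ∈ X) :
    gam E c1 u1 u2 a1 b1 a2 b2 * gam E c2 u3 u4 a3 b3 a4 b4 +
      gam E c1 u3 u4 a3 b3 a4 b4 * gam E c2 u1 u2 a1 b1 a2 b2 +
      (gam E c1 u1 u3 a1 b1 a3 b3 * gam E c2 u2 u4 a2 b2 a4 b4 +
      gam E c1 u2 u4 a2 b2 a4 b4 * gam E c2 u1 u3 a1 b1 a3 b3) +
      (gam E c1 u1 u4 a1 b1 a4 b4 * gam E c2 u2 u3 a2 b2 a3 b3 +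
      gam E c1 u2 u3 a2 b2 a3 b3 * gam E c2 u1 u4 a1 b1 a4 b4) = 0 := by
  obtain ⟨φ, hφi, hφX⟩ := exEmb (V := V) X ([a1, b1, a2, b2, a3, b3, a4, b4].toFinset)
    (by have := List.toFinset_card_le [a1, b1, a2, b2, a3, b3, a4, b4]
        simp only [List.length_cons, List.length_nil] at this
        omega)
  have hav : ∀ x ∈ [a1, b1, a2, b2, a3, b3, a4, b4], ∀ v, φ v ≠ x := by
    intro x hx v h
    exact (hφX v).2 (by rw [h]; exact List.mem_toFinset.2 hx)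
  have hz : ∀ x1 x2 x3 x4 : P, x1 ∈ [a1, b1, a2, b2, a3, b3, a4, b4] →
      x2 ∈ [a1, b1, a2, b2, a3, b3, a4, b4] → x3 ∈ [a1, b1, a2, b2, a3, b3, a4, b4] →
      x4 ∈ [a1, b1, a2, b2, a3, b3, a4, b4] → [x1, x2, x3, x4].Nodup →
      (F E c1 (pl φ u1 u2 u3 u4 x1 x2 x3 x4) + 1) *
        (F E c2 (pl φ u1 u2 u3 u4 x1 x2 x3 x4) + 1) = 0 := by
    intro x1 x2 x3 x4 m1 m2 m3 m4 hn
    apply prod_zero
    rintro ⟨z1, z2⟩
    apply hno
    simp only [List.nodup_cons, List.mem_cons, List.not_mem_nil, or_false, not_or,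
      not_false_eq_true, List.nodup_nil, and_true] at hn
    obtain ⟨⟨n12, n13, n14⟩, ⟨n23, n24⟩, n34⟩ := hn
    refine ⟨pl φ u1 u2 u3 u4 x1 x2 x3 x4, ?_, ?_, z1, z2⟩
    · unfold pl
      refine inj_update (inj_update (inj_update (inj_update hφi (hav _ m1)) ?_) ?_) ?_
      · exact update_ne' n12 (hav _ m2)
      · exact update_ne' n23 (update_ne' n13 (hav _ m3))
      · exact update_ne' n34 (update_ne' n24 (update_ne' n14 (hav _ m4)))
    · unfold pl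
      exact update_mem' (hpX _ m4) (update_mem' (hpX _ m3) (update_mem' (hpX _ m2)
        (update_mem' (hpX _ m1) fun v => (hφX v).1)))
  obtain ⟨G, hG⟩ : ∃ G : P → P → P → P → ZMod 2,
      ∀ x1 x2 x3 x4, G x1 x2 x3 x4 = F E c1 (pl φ u1 u2 u3 u4 x1 x2 x3 x4) :=
    ⟨_, fun _ _ _ _ => rfl⟩
  obtain ⟨G', hG'⟩ : ∃ G : P → P → P → P → ZMod 2,
      ∀ x1 x2 x3 x4, G x1 x2 x3 x4 = F E c2 (pl φ u1 u2 u3 u4 x1 x2 x3 x4) :=
    ⟨_, fun _ _ _ _ => rfl⟩
  simp only [← hG, ← hG'] at hz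
  obtain ⟨a, d1, d2, d3, d4, k0000, k0001, k0010, k0011, k0100, k0101, k0110, k0111, k1000, k1001, k1010, k1011, k1100, k1101, k1110, k1111⟩ :=
    poly4 E hE c1 hu φ a1 a2 a3 a4 b1 b2 b3 b4 G hG _ _ _ _ _ _ rfl rfl rfl rfl rfl rfl
  obtain ⟨a', d1', d2', d3', d4', l0000, l0001, l0010, l0011, l0100, l0101, l0110, l0111, l1000, l1001, l1010, l1011, l1100, l1101, l1110, l1111⟩ :=
    poly4 E hE c2 hu φ a1 a2 a3 a4 b1 b2 b3 b4 G' hG' _ _ _ _ _ _ rfl rfl rfl rfl rfl rfl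

  apply alg4 a d1 d2 d3 d4 _ _ _ _ _ _ a' d1' d2' d3' d4' _ _ _ _ _ _
  · rw [← k0000, ← l0000]
    exact hz a1 a2 a3 a4 (by simp) (by simp) (by simp) (by simp)
      (hp.sublist (.cons_cons _ (.cons _ (.cons_cons _ (.cons _ (.cons_cons _ (.cons _ (.cons_cons _ (.cons _ (.slnil))))))))))
  · rw [← k0001, ← l0001]
    exact hz a1 a2 a3 b4 (by simp) (by simp) (by simp) (by simp)
      (hp.sublist (.cons_cons _ (.cons _ (.cons_cons _ (.cons _ (.cons_cons _ (.cons _ (.cons _ (.cons_cons _ (.slnil))))))))))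
  · rw [← k0010, ← l0010]
    exact hz a1 a2 b3 a4 (by simp) (by simp) (by simp) (by simp)
      (hp.sublist (.cons_cons _ (.cons _ (.cons_cons _ (.cons _ (.cons _ (.cons_cons _ (.cons_cons _ (.cons _ (.slnil))))))))))
  · rw [← k0011, ← l0011]
    exact hz a1 a2 b3 b4 (by simp) (by simp) (by simp) (by simp)
      (hp.sublist (.cons_cons _ (.cons _ (.cons_cons _ (.cons _ (.cons _ (.cons_cons _ (.cons _ (.cons_cons _ (.slnil))))))))))
  · rw [← k0100, ← l0100]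
    exact hz a1 b2 a3 a4 (by simp) (by simp) (by simp) (by simp)
      (hp.sublist (.cons_cons _ (.cons _ (.cons _ (.cons_cons _ (.cons_cons _ (.cons _ (.cons_cons _ (.cons _ (.slnil))))))))))
  · rw [← k0101, ← l0101]
    exact hz a1 b2 a3 b4 (by simp) (by simp) (by simp) (by simp)
      (hp.sublist (.cons_cons _ (.cons _ (.cons _ (.cons_cons _ (.cons_cons _ (.cons _ (.cons _ (.cons_cons _ (.slnil))))))))))
  · rw [← k0110, ← l0110]
    exact hz a1 b2 b3 a4 (by simp) (by simp) (by simp) (by simp)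
      (hp.sublist (.cons_cons _ (.cons _ (.cons _ (.cons_cons _ (.cons _ (.cons_cons _ (.cons_cons _ (.cons _ (.slnil))))))))))
  · rw [← k0111, ← l0111]
    exact hz a1 b2 b3 b4 (by simp) (by simp) (by simp) (by simp)
      (hp.sublist (.cons_cons _ (.cons _ (.cons _ (.cons_cons _ (.cons _ (.cons_cons _ (.cons _ (.cons_cons _ (.slnil))))))))))
  · rw [← k1000, ← l1000]
    exact hz b1 a2 a3 a4 (by simp) (by simp) (by simp) (by simp)
      (hp.sublist (.cons _ (.cons_cons _ (.cons_cons _ (.cons _ (.cons_cons _ (.cons _ (.cons_cons _ (.cons _ (.slnil))))))))))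
  · rw [← k1001, ← l1001]
    exact hz b1 a2 a3 b4 (by simp) (by simp) (by simp) (by simp)
      (hp.sublist (.cons _ (.cons_cons _ (.cons_cons _ (.cons _ (.cons_cons _ (.cons _ (.cons _ (.cons_cons _ (.slnil))))))))))
  · rw [← k1010, ← l1010]
    exact hz b1 a2 b3 a4 (by simp) (by simp) (by simp) (by simp)
      (hp.sublist (.cons _ (.cons_cons _ (.cons_cons _ (.cons _ (.cons _ (.cons_cons _ (.cons_cons _ (.cons _ (.slnil))))))))))
  · rw [← k1011, ← l1011]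
    exact hz b1 a2 b3 b4 (by simp) (by simp) (by simp) (by simp)
      (hp.sublist (.cons _ (.cons_cons _ (.cons_cons _ (.cons _ (.cons _ (.cons_cons _ (.cons _ (.cons_cons _ (.slnil))))))))))
  · rw [← k1100, ← l1100]
    exact hz b1 b2 a3 a4 (by simp) (by simp) (by simp) (by simp)
      (hp.sublist (.cons _ (.cons_cons _ (.cons _ (.cons_cons _ (.cons_cons _ (.cons _ (.cons_cons _ (.cons _ (.slnil))))))))))
  · rw [← k1101, ← l1101]
    exact hz b1 b2 a3 b4 (by simp) (by simp) (by simp) (by simp)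
      (hp.sublist (.cons _ (.cons_cons _ (.cons _ (.cons_cons _ (.cons_cons _ (.cons _ (.cons _ (.cons_cons _ (.slnil))))))))))
  · rw [← k1110, ← l1110]
    exact hz b1 b2 b3 a4 (by simp) (by simp) (by simp) (by simp)
      (hp.sublist (.cons _ (.cons_cons _ (.cons _ (.cons_cons _ (.cons _ (.cons_cons _ (.cons_cons _ (.cons _ (.slnil))))))))))
  · rw [← k1111, ← l1111]
    exact hz b1 b2 b3 b4 (by simp) (by simp) (by simp) (by simp)
      (hp.sublist (.cons _ (.cons_cons _ (.cons _ (.cons_cons _ (.cons _ (.cons_cons _ (.cons _ (.cons_cons _ (.slnil))))))))))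

end Pool.Agent.R40.ZSR
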