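import Pool.Agent.R40.ZSRb

/-!
# Zero-sum placements over the Klein group: the three vertex identity
-/

namespace Pool.Agent.R40.ZSR

open Finset Function

set_option linter.unusedSectionVars false
set_option linter.unusedSimpArgs false

variable {V P : Type} [DecidableEq V] [DecidableEq P]

theorem alg3 (a d1 d2 d3 a' d1' d2' d3' g12 g13 g23 : ZMod 2)
    (h000 : (a + 1) *
      (a' + 1) = 0)
    (h001 : (a + d3 + 1) *
      (a' + d3' + 1) = 0)
    (h010 : (a + d2 + 1) *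
      (a' + d2' + 1) = 0)
    (h011 : (a + d2 + d3 + 1) *
      (a' + d2' + d3' + g23 + 1) = 0)
    (h100 : (a + d1 + 1) *
      (a' + d1' + 1) = 0)
    (h101 : (a + d1 + d3 + 1) *
      (a' + d1' + d3' + g13 + 1) = 0)
    (h110 : (a + d1 + d2 + 1) *
      (a' + d1' + d2' + g12 + 1) = 0)
    (h111 : (a + d1 + d2 + d3 + 1) *
      (a' + d1' + d2' + d3' + g12 + g13 + g23 + 1) = 0)
    : d1 * g23 + d2 * g13 + d3 * g12 = 0 := by
  linear_combination (norm := (ring_nf; reduce_mod_char))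
    h000 + h001 + h010 + h011 + h100 + h101 + h110 + h111

/-- placement of three active vertices -/
def pm (φ : V → P) (u1 u2 u3 : V) (x1 x2 x3 : P) : V → P :=
  update (update (update φ u1 x1) u2 x2) u3 x3

theorem tq12 (E : Finset (Sym2 V)) (hE : ∀ e ∈ E, ¬ e.IsDiag) (c : Sym2 P → ZMod 2)
    {u1 u2 u3 : V} (hu : [u1, u2, u3].Nodup) (φ : V → P) (a1 b1 a2 b2 x3 : P) :
    F E c (pm φ u1 u2 u3 a1 a2 x3) + F E c (pm φ u1 u2 u3 b1 a2 x3) +
      F E c (pm φ u1 u2 u3 a1 b2 x3) + F E c (pm φ u1 u2 u3 b1 b2 x3) =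
      gam E c u1 u2 a1 b1 a2 b2 := by
  simp only [List.nodup_cons, List.mem_cons, List.not_mem_nil, or_false, not_or, not_false_eq_true,
    List.nodup_nil, and_true] at hu
  obtain ⟨⟨h12, h13⟩, h23⟩ := hu
  have := square E hE c h12 (pm φ u1 u2 u3 a1 a2 x3)
    (pm φ u1 u2 u3 b1 a2 x3) (pm φ u1 u2 u3 a1 b2 x3)
    (pm φ u1 u2 u3 b1 b2 x3)
    (by intro w hw1 hw2; simp [pm, update_apply, hw1, hw2])
    (by simp [pm, update_apply, h12, h13, h23])
    (by simp [pm, update_apply, h12, h13, h23])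
    (by simp [pm, update_apply, h12, h13, h23])
    (by simp [pm, update_apply, h12, h13, h23])
  simpa [pm, gam, update_apply, h12, h13, h23] using this

theorem tq13 (E : Finset (Sym2 V)) (hE : ∀ e ∈ E, ¬ e.IsDiag) (c : Sym2 P → ZMod 2)
    {u1 u2 u3 : V} (hu : [u1, u2, u3].Nodup) (φ : V → P) (a1 b1 x2 a3 b3 : P) :
    F E c (pm φ u1 u2 u3 a1 x2 a3) + F E c (pm φ u1 u2 u3 b1 x2 a3) +
      F E c (pm φ u1 u2 u3 a1 x2 b3) + F E c (pm φ u1 u2 u3 b1 x2 b3) =
      gam E c u1 u3 a1 b1 a3 b3 := by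
  simp only [List.nodup_cons, List.mem_cons, List.not_mem_nil, or_false, not_or, not_false_eq_true,
    List.nodup_nil, and_true] at hu
  obtain ⟨⟨h12, h13⟩, h23⟩ := hu
  have := square E hE c h13 (pm φ u1 u2 u3 a1 x2 a3)
    (pm φ u1 u2 u3 b1 x2 a3) (pm φ u1 u2 u3 a1 x2 b3)
    (pm φ u1 u2 u3 b1 x2 b3)
    (by intro w hw1 hw2; simp [pm, update_apply, hw1, hw2])
    (by simp [pm, update_apply, h12, h13, h23])
    (by simp [pm, update_apply, h12, h13, h23])
    (by simp [pm, update_apply, h12, h13, h23])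
    (by simp [pm, update_apply, h12, h13, h23])
  simpa [pm, gam, update_apply, h12, h13, h23] using this

theorem tq23 (E : Finset (Sym2 V)) (hE : ∀ e ∈ E, ¬ e.IsDiag) (c : Sym2 P → ZMod 2)
    {u1 u2 u3 : V} (hu : [u1, u2, u3].Nodup) (φ : V → P) (x1 a2 b2 a3 b3 : P) :
    F E c (pm φ u1 u2 u3 x1 a2 a3) + F E c (pm φ u1 u2 u3 x1 b2 a3) +
      F E c (pm φ u1 u2 u3 x1 a2 b3) + F E c (pm φ u1 u2 u3 x1 b2 b3) =
      gam E c u2 u3 a2 b2 a3 b3 := by
  simp only [List.nodup_cons, List.mem_cons, List.not_mem_nil, or_false, not_or, not_false_eq_true,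
    List.nodup_nil, and_true] at hu
  obtain ⟨⟨h12, h13⟩, h23⟩ := hu
  have := square E hE c h23 (pm φ u1 u2 u3 x1 a2 a3)
    (pm φ u1 u2 u3 x1 b2 a3) (pm φ u1 u2 u3 x1 a2 b3)
    (pm φ u1 u2 u3 x1 b2 b3)
    (by intro w hw1 hw2; simp [pm, update_apply, hw1, hw2])
    (by simp [pm, update_apply, h12, h13, h23])
    (by simp [pm, update_apply, h12, h13, h23])
    (by simp [pm, update_apply, h12, h13, h23])
    (by simp [pm, update_apply, h12, h13, h23])
  simpa [pm, gam, update_apply, h12, h13, h23] using this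

theorem poly3 (E : Finset (Sym2 V)) (hE : ∀ e ∈ E, ¬ e.IsDiag) (c : Sym2 P → ZMod 2)
    {u1 u2 u3 : V} (hu : [u1, u2, u3].Nodup) (φ : V → P) (a1 a2 a3 b1 b2 b3 : P)
    (G : P → P → P → ZMod 2)
    (hG : ∀ x1 x2 x3, G x1 x2 x3 = F E c (pm φ u1 u2 u3 x1 x2 x3))
    (g12 g13 g23 : ZMod 2)
    (h12 : g12 = gam E c u1 u2 a1 b1 a2 b2) (h13 : g13 = gam E c u1 u3 a1 b1 a3 b3)
    (h23 : g23 = gam E c u2 u3 a2 b2 a3 b3) :
    ∃ a d1 d2 d3 : ZMod 2,
      G a1 a2 a3 = a ∧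
      G a1 a2 b3 = a + d3 ∧
      G a1 b2 a3 = a + d2 ∧
      G a1 b2 b3 = a + d2 + d3 + g23 ∧
      G b1 a2 a3 = a + d1 ∧
      G b1 a2 b3 = a + d1 + d3 + g13 ∧
      G b1 b2 a3 = a + d1 + d2 + g12 ∧
      G b1 b2 b3 = a + d1 + d2 + d3 + g12 + g13 + g23 := by
  obtain ⟨a, ha⟩ : ∃ a, a = G a1 a2 a3 := ⟨_, rfl⟩
  obtain ⟨d1, hd1⟩ : ∃ d, d = G b1 a2 a3 + G a1 a2 a3 := ⟨_, rfl⟩
  obtain ⟨d2, hd2⟩ : ∃ d, d = G a1 b2 a3 + G a1 a2 a3 := ⟨_, rfl⟩
  obtain ⟨d3, hd3⟩ : ∃ d, d = G a1 a2 b3 + G a1 a2 a3 := ⟨_, rfl⟩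
  have k000 : G a1 a2 a3 = a := ha.symm
  have k001 : G a1 a2 b3 = a + d3 := by
    linear_combination (norm := (ring_nf; reduce_mod_char)) ha + hd3
  have k010 : G a1 b2 a3 = a + d2 := by
    linear_combination (norm := (ring_nf; reduce_mod_char)) ha + hd2
  have k100 : G b1 a2 a3 = a + d1 := by
    linear_combination (norm := (ring_nf; reduce_mod_char)) ha + hd1
  have k011 : G a1 b2 b3 = a + d2 + d3 + g23 := by
    have e := tq23 E hE c hu φ a1 a2 b2 a3 b3
    rw [← hG, ← hG, ← hG, ← hG, ← h23] at e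
    linear_combination (norm := (ring_nf; reduce_mod_char)) e + k000 + k001 + k010
  have k101 : G b1 a2 b3 = a + d1 + d3 + g13 := by
    have e := tq13 E hE c hu φ a1 b1 a2 a3 b3
    rw [← hG, ← hG, ← hG, ← hG, ← h13] at e
    linear_combination (norm := (ring_nf; reduce_mod_char)) e + k000 + k001 + k100
  have k110 : G b1 b2 a3 = a + d1 + d2 + g12 := by
    have e := tq12 E hE c hu φ a1 b1 a2 b2 a3
    rw [← hG, ← hG, ← hG, ← hG, ← h12] at e
    linear_combination (norm := (ring_nf; reduce_mod_char)) e + k000 + k010 + k100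
  have k111 : G b1 b2 b3 = a + d1 + d2 + d3 + g12 + g13 + g23 := by
    have e := tq12 E hE c hu φ a1 b1 a2 b2 b3
    rw [← hG, ← hG, ← hG, ← hG, ← h12] at e
    linear_combination (norm := (ring_nf; reduce_mod_char)) e + k001 + k011 + k101
  exact ⟨a, d1, d2, d3, k000, k001, k010, k011, k100, k101, k110, k111⟩

/-- degree modulo two -/
def dg (E : Finset (Sym2 V)) (v : V) : ZMod 2 := ((E.filter (fun e => v ∈ e)).card : ZMod 2)

/-- structured colouring on `X` -/
def Str (c : Sym2 P → ZMod 2) (X : Finset P) (f : P → ZMod 2) (t : ZMod 2) : Prop :=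
  ∀ x ∈ X, ∀ y ∈ X, x ≠ y → c s(x, y) = f x + f y + t

theorem Str.mono {c : Sym2 P → ZMod 2} {X Y : Finset P} {f : P → ZMod 2} {t : ZMod 2}
    (h : Str c X f t) (hY : Y ⊆ X) : Str c Y f t :=
  fun x hx y hy => h x (hY hx) y (hY hy)

theorem Str.flat {c : Sym2 P → ZMod 2} {X : Finset P} {f : P → ZMod 2} {t : ZMod 2}
    (h : Str c X f t) : Flat c X := by
  intro a ha b hb x hx y hy hn
  simp only [List.nodup_cons, List.mem_cons, List.not_mem_nil, or_false, not_or,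
      not_false_eq_true, List.nodup_nil, and_true] at hn
  unfold sw
  rw [h a ha x hx hn.1.2.1, h b hb x hx hn.2.1.1, h a ha y hy hn.1.2.2, h b hb y hy hn.2.1.2]
  ring_nf
  reduce_mod_char

theorem sum_mem_pair [Fintype V] {x y : V} (h : x ≠ y) (g : V → ZMod 2) :
    (∑ v, if v ∈ s(x, y) then g v else 0) = g x + g y := by
  rw [← Finset.sum_filter, ← Finset.sum_pair h]
  apply Finset.sum_congr _ fun _ _ => rfl
  ext v
  simp

theorem F_str [Fintype V] {E : Finset (Sym2 V)} (hE : ∀ e ∈ E, ¬ e.IsDiag) (hev : Even E.card)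
    {c : Sym2 P → ZMod 2} {X : Finset P} {f : P → ZMod 2} {t : ZMod 2} (hc : Str c X f t)
    {φ : V → P} (hi : Injective φ) (hX : ∀ v, φ v ∈ X) :
    F E c φ = ∑ v, dg E v * f (φ v) := by
  have h1 : ∀ e ∈ E, c (e.map φ) = (∑ v, if v ∈ e then f (φ v) else 0) + t := by
    intro e he
    have hd := hE e he
    induction e using Sym2.ind with
    | _ x y =>
    rw [Sym2.mk_isDiag_iff] at hd
    rw [sum_mem_pair hd (fun v => f (φ v)), Sym2.map_mk, hc _ (hX _) _ (hX _) (fun h => hd (hi h))]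
  unfold F
  rw [Finset.sum_congr rfl h1, Finset.sum_add_distrib, Finset.sum_const, Finset.sum_comm]
  have h2 : E.card • t = 0 := by
    obtain ⟨k, hk⟩ := hev
    rw [hk, add_smul]
    exact add_self2 _
  rw [h2, add_zero]
  apply Finset.sum_congr rfl
  intro v _
  unfold dg
  rw [← Finset.sum_filter, Finset.sum_const, nsmul_eq_mul]

/-- handshake -/
theorem sum_dg [Fintype V] {E : Finset (Sym2 V)} (hE : ∀ e ∈ E, ¬ e.IsDiag)
    (hev : Even E.card) : ∑ v, dg E v = 0 := by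
  have := F_str (P := V) hE hev (c := fun _ => 0) (X := Finset.univ) (f := fun _ => 1) (t := 0)
    (fun x _ y _ _ => by show (0 : ZMod 2) = 1 + 1 + 0; decide) (φ := id) injective_id (fun v => Finset.mem_univ v)
  simp only [mul_one] at this
  rw [← this]
  simp [F]

theorem K3 [Fintype V] {E : Finset (Sym2 V)} (hE : ∀ e ∈ E, ¬ e.IsDiag) (hev : Even E.card)
    {c1 c2 : Sym2 P → ZMod 2} {X : Finset P} (hno : ¬ HZ E c1 c2 X)
    (hX : Fintype.card V + 6 ≤ X.card) {f : P → ZMod 2} {t : ZMod 2} (hc : Str c1 X f t)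
    {u1 u2 u3 : V} (hu : [u1, u2, u3].Nodup)
    {a1 b1 a2 b2 a3 b3 : P} (hp : [a1, b1, a2, b2, a3, b3].Nodup)
    (hpX : ∀ x ∈ [a1, b1, a2, b2, a3, b3], x ∈ X) (hd : dg E u1 ≠ 0) (hf : f a1 ≠ f b1)
    (h23 : s(u2, u3) ∈ E) (h2 : dg E u2 = 0 ∨ f a2 = f b2 ∨ s(u1, u3) ∉ E)
    (h3 : dg E u3 = 0 ∨ f a3 = f b3 ∨ s(u1, u2) ∉ E) : sw c2 a2 b2 a3 b3 = 0 := by
  obtain ⟨φ, hφi, hφX⟩ := exEmb (V := V) X ([a1, b1, a2, b2, a3, b3].toFinset)
    (by have := List.toFinset_card_le [a1, b1, a2, b2, a3, b3]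
        simp only [List.length_cons, List.length_nil] at this
        omega)
  have hav : ∀ x ∈ [a1, b1, a2, b2, a3, b3], ∀ v, φ v ≠ x := by
    intro x hx v h
    exact (hφX v).2 (by rw [h]; exact List.mem_toFinset.2 hx)
  have hgood : ∀ x1 x2 x3 : P, x1 ∈ [a1, b1, a2, b2, a3, b3] →
      x2 ∈ [a1, b1, a2, b2, a3, b3] → x3 ∈ [a1, b1, a2, b2, a3, b3] → [x1, x2, x3].Nodup →
      Injective (pm φ u1 u2 u3 x1 x2 x3) ∧ ∀ v, pm φ u1 u2 u3 x1 x2 x3 v ∈ X := by
    intro x1 x2 x3 m1 m2 m3 hn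
    simp only [List.nodup_cons, List.mem_cons, List.not_mem_nil, or_false, not_or,
      not_false_eq_true, List.nodup_nil, and_true] at hn
    obtain ⟨⟨n12, n13⟩, n23⟩ := hn
    constructor
    · unfold pm
      refine inj_update (inj_update (inj_update hφi (hav _ m1)) ?_) ?_
      · exact update_ne' n12 (hav _ m2)
      · exact update_ne' n23 (update_ne' n13 (hav _ m3))
    · unfold pm
      exact (update_mem' (hpX _ m3) (update_mem' (hpX _ m2)
        (update_mem' (hpX _ m1) fun v => (hφX v).1)))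
  have hz : ∀ x1 x2 x3 : P, x1 ∈ [a1, b1, a2, b2, a3, b3] →
      x2 ∈ [a1, b1, a2, b2, a3, b3] → x3 ∈ [a1, b1, a2, b2, a3, b3] → [x1, x2, x3].Nodup →
      (F E c1 (pm φ u1 u2 u3 x1 x2 x3) + 1) *
        (F E c2 (pm φ u1 u2 u3 x1 x2 x3) + 1) = 0 := by
    intro x1 x2 x3 m1 m2 m3 hn
    apply prod_zero
    rintro ⟨z1, z2⟩
    obtain ⟨g1, g2⟩ := hgood x1 x2 x3 m1 m2 m3 hn
    exact hno ⟨pm φ u1 u2 u3 x1 x2 x3, g1, g2, z1, z2⟩
  -- the first colour sum is linear
  have hu' := hu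
  simp only [List.nodup_cons, List.mem_cons, List.not_mem_nil, or_false, not_or,
      not_false_eq_true, List.nodup_nil, and_true] at hu'
  obtain ⟨⟨n12, n13⟩, n23⟩ := hu'
  obtain ⟨R, hR⟩ : ∃ R : ZMod 2, R = ∑ v ∈ ((Finset.univ.erase u1).erase u2).erase u3,
      dg E v * f (φ v) := ⟨_, rfl⟩
  have hlin : ∀ x1 x2 x3 : P, x1 ∈ [a1, b1, a2, b2, a3, b3] →
      x2 ∈ [a1, b1, a2, b2, a3, b3] → x3 ∈ [a1, b1, a2, b2, a3, b3] → [x1, x2, x3].Nodup →
      F E c1 (pm φ u1 u2 u3 x1 x2 x3) =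
        dg E u1 * f x1 + dg E u2 * f x2 + dg E u3 * f x3 + R := by
    intro x1 x2 x3 m1 m2 m3 hn
    obtain ⟨g1, g2⟩ := hgood x1 x2 x3 m1 m2 m3 hn
    rw [F_str hE hev hc g1 g2]
    rw [← Finset.add_sum_erase _ _ (Finset.mem_univ u1)]
    rw [← Finset.add_sum_erase (Finset.univ.erase u1) _
      (Finset.mem_erase.2 ⟨Ne.symm n12, Finset.mem_univ u2⟩)]
    rw [← Finset.add_sum_erase ((Finset.univ.erase u1).erase u2) _
      (Finset.mem_erase.2 ⟨Ne.symm n23, Finset.mem_erase.2 ⟨Ne.symm n13, Finset.mem_univ u3⟩⟩)]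
    have e1 : pm φ u1 u2 u3 x1 x2 x3 u1 = x1 := by
      simp [pm, update_apply, n12, n13, n23]
    have e2 : pm φ u1 u2 u3 x1 x2 x3 u2 = x2 := by
      simp [pm, update_apply, n12, n13, n23]
    have e3 : pm φ u1 u2 u3 x1 x2 x3 u3 = x3 := by
      simp [pm, update_apply, n12, n13, n23]
    rw [e1, e2, e3, hR, ← add_assoc, ← add_assoc]
    congr 1
    apply Finset.sum_congr rfl
    intro v hv
    simp only [Finset.mem_erase, Finset.mem_univ, and_true] at hv
    have : pm φ u1 u2 u3 x1 x2 x3 v = φ v := by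
      simp [pm, update_apply, hv.1, hv.2.1, hv.2.2]
    rw [this]
  obtain ⟨G', hG'⟩ : ∃ G : P → P → P → ZMod 2,
      ∀ x1 x2 x3, G x1 x2 x3 = F E c2 (pm φ u1 u2 u3 x1 x2 x3) :=
    ⟨_, fun _ _ _ => rfl⟩
  have hz' : ∀ x1 x2 x3 : P, x1 ∈ [a1, b1, a2, b2, a3, b3] →
      x2 ∈ [a1, b1, a2, b2, a3, b3] → x3 ∈ [a1, b1, a2, b2, a3, b3] → [x1, x2, x3].Nodup →
      (dg E u1 * f x1 + dg E u2 * f x2 + dg E u3 * f x3 + R + 1) * (G' x1 x2 x3 + 1) = 0 := by
    intro x1 x2 x3 m1 m2 m3 hn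
    rw [← hlin x1 x2 x3 m1 m2 m3 hn, hG']
    exact hz x1 x2 x3 m1 m2 m3 hn
  obtain ⟨a', d1', d2', d3', l000, l001, l010, l011, l100, l101, l110, l111⟩ :=
    poly3 E hE c2 hu φ a1 a2 a3 b1 b2 b3 G' hG' _ _ _ rfl rfl rfl
  have key := alg3 (dg E u1 * f a1 + dg E u2 * f a2 + dg E u3 * f a3 + R)
    (dg E u1 * (f a1 + f b1)) (dg E u2 * (f a2 + f b2)) (dg E u3 * (f a3 + f b3))
    a' d1' d2' d3' (gam E c2 u1 u2 a1 b1 a2 b2) (gam E c2 u1 u3 a1 b1 a3 b3)
    (gam E c2 u2 u3 a2 b2 a3 b3)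
    (by
      have e := hz' a1 a2 a3 (by simp) (by simp) (by simp)
        (hp.sublist (.cons_cons _ (.cons _ (.cons_cons _ (.cons _ (.cons_cons _ (.cons _ (.slnil))))))))
      rw [l000] at e
      first | exact e | linear_combination (norm := (ring_nf; reduce_mod_char)) e)
    (by
      have e := hz' a1 a2 b3 (by simp) (by simp) (by simp)
        (hp.sublist (.cons_cons _ (.cons _ (.cons_cons _ (.cons _ (.cons _ (.cons_cons _ (.slnil))))))))
      rw [l001] at e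
      first | exact e | linear_combination (norm := (ring_nf; reduce_mod_char)) e)
    (by
      have e := hz' a1 b2 a3 (by simp) (by simp) (by simp)
        (hp.sublist (.cons_cons _ (.cons _ (.cons _ (.cons_cons _ (.cons_cons _ (.cons _ (.slnil))))))))
      rw [l010] at e
      first | exact e | linear_combination (norm := (ring_nf; reduce_mod_char)) e)
    (by
      have e := hz' a1 b2 b3 (by simp) (by simp) (by simp)
        (hp.sublist (.cons_cons _ (.cons _ (.cons _ (.cons_cons _ (.cons _ (.cons_cons _ (.slnil))))))))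
      rw [l011] at e
      first | exact e | linear_combination (norm := (ring_nf; reduce_mod_char)) e)
    (by
      have e := hz' b1 a2 a3 (by simp) (by simp) (by simp)
        (hp.sublist (.cons _ (.cons_cons _ (.cons_cons _ (.cons _ (.cons_cons _ (.cons _ (.slnil))))))))
      rw [l100] at e
      first | exact e | linear_combination (norm := (ring_nf; reduce_mod_char)) e)
    (by
      have e := hz' b1 a2 b3 (by simp) (by simp) (by simp)
        (hp.sublist (.cons _ (.cons_cons _ (.cons_cons _ (.cons _ (.cons _ (.cons_cons _ (.slnil))))))))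
      rw [l101] at e
      first | exact e | linear_combination (norm := (ring_nf; reduce_mod_char)) e)
    (by
      have e := hz' b1 b2 a3 (by simp) (by simp) (by simp)
        (hp.sublist (.cons _ (.cons_cons _ (.cons _ (.cons_cons _ (.cons_cons _ (.cons _ (.slnil))))))))
      rw [l110] at e
      first | exact e | linear_combination (norm := (ring_nf; reduce_mod_char)) e)
    (by
      have e := hz' b1 b2 b3 (by simp) (by simp) (by simp)
        (hp.sublist (.cons _ (.cons_cons _ (.cons _ (.cons_cons _ (.cons _ (.cons_cons _ (.slnil))))))))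
      rw [l111] at e
      first | exact e | linear_combination (norm := (ring_nf; reduce_mod_char)) e)
  have e1 : dg E u1 * (f a1 + f b1) = 1 := by
    have : ∀ x y z : ZMod 2, x ≠ 0 → y ≠ z → x * (y + z) = 1 := by decide
    exact this _ _ _ hd hf
  have e2 : dg E u2 * (f a2 + f b2) * gam E c2 u1 u3 a1 b1 a3 b3 = 0 := by
    rcases h2 with h | h | h
    · rw [h]; simp
    · rw [h, add_self2]; simp
    · unfold gam; rw [if_neg h]; simp
  have e3 : dg E u3 * (f a3 + f b3) * gam E c2 u1 u2 a1 b1 a2 b2 = 0 := by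
    rcases h3 with h | h | h
    · rw [h]; simp
    · rw [h, add_self2]; simp
    · unfold gam; rw [if_neg h]; simp
  rw [e1, e2, e3, add_zero, add_zero, one_mul] at key
  unfold gam at key
  rwa [if_pos h23] at key


end Pool.Agent.R40.ZSR
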