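import Pool.Agent.R40.ZSRc

/-!
# Zero-sum placements over the Klein group: flat colourings and stars
-/

namespace Pool.Agent.R40.ZSR

open Finset Function

set_option linter.unusedSectionVars false

variable {V P : Type} [DecidableEq V] [DecidableEq P]

/-- four vertex identity with vanishing cross terms -/
theorem T4' [Fintype V] {E : Finset (Sym2 V)} (hE : ∀ e ∈ E, ¬ e.IsDiag)
    {c1 c2 : Sym2 P → ZMod 2} {X : Finset P} (hno : ¬ HZ E c1 c2 X)
    (hX : Fintype.card V + 8 ≤ X.card) {u1 u2 u3 u4 : V} (hu : [u1, u2, u3, u4].Nodup)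
    {a1 b1 a2 b2 a3 b3 a4 b4 : P} (hp : [a1, b1, a2, b2, a3, b3, a4, b4].Nodup)
    (hpX : ∀ x ∈ [a1, b1, a2, b2, a3, b3, a4, b4], x ∈ X) (e12 : s(u1, u2) ∈ E)
    (e34 : s(u3, u4) ∈ E)
    (h13 : s(u1, u3) ∈ E → sw c1 a1 b1 a3 b3 = 0 ∧ sw c2 a1 b1 a3 b3 = 0)
    (h23 : s(u2, u3) ∈ E → sw c1 a2 b2 a3 b3 = 0 ∧ sw c2 a2 b2 a3 b3 = 0) :
    sw c1 a1 b1 a2 b2 * sw c2 a3 b3 a4 b4 + sw c1 a3 b3 a4 b4 * sw c2 a1 b1 a2 b2 = 0 := by
  have key := T4 hE hno hX hu hp hpX
  have k1 : gam E c1 u1 u3 a1 b1 a3 b3 = 0 := by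
    unfold gam
    split_ifs with h
    · exact (h13 h).1
    · rfl
  have k2 : gam E c2 u1 u3 a1 b1 a3 b3 = 0 := by
    unfold gam
    split_ifs with h
    · exact (h13 h).2
    · rfl
  have k3 : gam E c1 u2 u3 a2 b2 a3 b3 = 0 := by
    unfold gam
    split_ifs with h
    · exact (h23 h).1
    · rfl
  have k4 : gam E c2 u2 u3 a2 b2 a3 b3 = 0 := by
    unfold gam
    split_ifs with h
    · exact (h23 h).2
    · rfl
  rw [k1, k2, k3, k4] at key
  simp only [mul_zero, zero_mul, add_zero] at key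
  unfold gam at key
  rwa [if_pos e12, if_pos e34, if_pos e34, if_pos e12] at key

theorem cs (c : Sym2 P → ZMod 2) (x y : P) : c s(x, y) = c s(y, x) := by rw [Sym2.eq_swap]

/-- flat colourings are structured -/
theorem exists_str {c : Sym2 P → ZMod 2} {X : Finset P} (h : Flat c X) (h3 : 3 ≤ X.card) :
    ∃ f t, Str c X f t := by
  obtain ⟨o, p, q, ho, hp, hq, hop, hoq, hpq⟩ := Finset.two_lt_card_iff.1 h3
  obtain ⟨T, hT⟩ : ∃ T : P → P → ZMod 2, ∀ x y, T x y = c s(o, x) + c s(o, y) + c s(x, y) :=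
    ⟨_, fun _ _ => rfl⟩
  have hTs : ∀ x y, T x y = T y x := by
    intro x y
    rw [hT, hT, cs c x y]
    ring
  have c1 : ∀ x ∈ X, ∀ y ∈ X, ∀ z ∈ X, x ≠ o → y ≠ o → z ≠ o → x ≠ y → x ≠ z → T x y = T x z := by
    intro x hx y hy z hz h1 h2 h3' h4 h5
    by_cases hyz : y = z
    · rw [hyz]
    have := h o ho x hx y hy z hz (by
      simp only [List.nodup_cons, List.mem_cons, List.not_mem_nil, or_false, not_or,
        not_false_eq_true, List.nodup_nil, and_true]
      exact ⟨⟨Ne.symm h1, Ne.symm h2, Ne.symm h3'⟩, ⟨h4, h5⟩, hyz⟩)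
    unfold sw at this
    rw [hT, hT]
    linear_combination (norm := (ring_nf; reduce_mod_char)) this
  have c2 : ∀ x ∈ X, ∀ y ∈ X, x ≠ o → y ≠ o → x ≠ y → T x y = T p q := by
    intro x hx y hy h1 h2 h12
    by_cases hxp : x = p
    · subst hxp
      exact c1 _ hx _ hy _ hq h1 h2 (Ne.symm hoq) h12 hpq
    · by_cases hyp : y = p
      · subst hyp
        rw [hTs]
        exact c1 _ hy _ hx _ hq h2 h1 (Ne.symm hoq) (Ne.symm h12) hpq
      · rw [c1 x hx y hy p hp h1 h2 (Ne.symm hop) h12 hxp, hTs]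
        exact c1 p hp x hx q hq (Ne.symm hop) h1 (Ne.symm hoq) (Ne.symm hxp) hpq
  refine ⟨fun x => if x = o then 0 else c s(o, x) + T p q, T p q, ?_⟩
  intro x hx y hy hxy
  beta_reduce
  by_cases hxo : x = o
  · subst hxo
    rw [if_pos rfl, if_neg (Ne.symm hxy)]
    linear_combination (norm := (ring_nf; reduce_mod_char)) (0 : ZMod 2) = 0
  · by_cases hyo : y = o
    · subst hyo
      rw [if_pos rfl, if_neg hxo, cs c x y]
      linear_combination (norm := (ring_nf; reduce_mod_char)) (0 : ZMod 2) = 0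
    · rw [if_neg hxo, if_neg hyo]
      have := c2 x hx y hy hxo hyo hxy
      rw [hT x y] at this
      linear_combination (norm := (ring_nf; reduce_mod_char)) this

/-- partial placement -/
def PP (ψ : V → P) (S : Finset V) (X : Finset P) : Prop :=
  Set.InjOn ψ S ∧ ∀ v ∈ S, ψ v ∈ X

theorem PP.ext1 {ψ : V → P} {S : Finset V} {X : Finset P} (h : PP ψ S X) {u : V} {x : P}
    (hu : u ∉ S) (hx : x ∉ X) : PP (update ψ u x) (insert u S) (insert x X) := by
  have h1 : ∀ v ∈ S, update ψ u x v = ψ v := by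
    intro v hv
    rw [update_of_ne (fun h : v = u => hu (h ▸ hv))]
  constructor
  · intro v hv w hw hvw
    rw [Finset.mem_coe, Finset.mem_insert] at hv hw
    rcases hv with rfl | hv
    · rcases hw with rfl | hw
      · rfl
      · rw [h1 w hw, update_self] at hvw
        exact absurd (hvw ▸ h.2 w hw) hx
    · rcases hw with rfl | hw
      · rw [h1 v hv, update_self] at hvw
        exact absurd (hvw ▸ h.2 v hv) hx
      · rw [h1 v hv, h1 w hw] at hvw
        exact h.1 hv hw hvw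
  · intro v hv
    rw [Finset.mem_insert] at hv ⊢
    rcases hv with rfl | hv
    · left; rw [update_self]
    · right; rw [h1 v hv]; exact h.2 v hv

theorem PP.mono {ψ : V → P} {S : Finset V} {X Y : Finset P} (h : PP ψ S X) (hY : X ⊆ Y) :
    PP ψ S Y := ⟨h.1, fun v hv => hY (h.2 v hv)⟩

theorem PP.extend [Fintype V] {ψ : V → P} {S : Finset V} {X : Finset P} (h : PP ψ S X)
    (hX : Fintype.card V ≤ X.card) :
    ∃ φ : V → P, Injective φ ∧ (∀ v, φ v ∈ X) ∧ ∀ v ∈ S, φ v = ψ v := by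
  have h1 : Finset.image ψ S ⊆ X := by
    intro y hy
    rw [Finset.mem_image] at hy
    obtain ⟨v, hv, rfl⟩ := hy
    exact h.2 v hv
  obtain ⟨t, ht1, ht2, ht3⟩ := Finset.exists_subsuperset_card_eq h1
    (le_trans Finset.card_image_le (Finset.card_le_univ S)) hX
  obtain ⟨g, hg⟩ := Finset.exists_equiv_extend_of_card_eq ht3.symm ht1 h.1
  exact ⟨fun v => (g v : P), fun v w h => g.injective (Subtype.ext h), fun v => ht2 (g v).2, hg⟩

theorem even_sum {Γ : Type} [AddCommGroup Γ] [Fintype Γ] [DecidableEq Γ]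
    (h2 : ∀ g : Γ, g + g = 0) (h : P → Γ) : ∀ (k : ℕ) (S : Finset V) (X : Finset P),
    S.card = 2 * k → 2 * k + Fintype.card Γ ≤ X.card →
    ∃ ψ : V → P, PP ψ S X ∧ ∑ v ∈ S, h (ψ v) = 0 := by
  intro k
  induction k with
  | zero =>
    intro S X hS hX
    have hS' : S = ∅ := by
      rw [← Finset.card_eq_zero]; simpa using hS
    have hpos : 0 < Fintype.card Γ := Fintype.card_pos_iff.2 ⟨0⟩
    obtain ⟨x, hx⟩ := Finset.card_pos.1 (by omega : 0 < X.card)
    subst hS'
    exact ⟨fun _ => x, ⟨by simp, by simp⟩, by simp⟩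
  | succ k ih =>
    intro S X hS hX
    have hmaps : ∀ a ∈ X, h a ∈ (Finset.univ : Finset Γ) := fun a _ => Finset.mem_univ _
    obtain ⟨p, hp, q, hq, hpq, hh⟩ := Finset.exists_ne_map_eq_of_card_lt_of_maps_to
      (by rw [Finset.card_univ]; omega) hmaps
    obtain ⟨u, hu⟩ := Finset.card_pos.1 (by omega : 0 < S.card)
    have hc1 := Finset.card_erase_of_mem hu
    obtain ⟨w, hw⟩ := Finset.card_pos.1 (by omega : 0 < (S.erase u).card)
    have hc2 := Finset.card_erase_of_mem hw
    have hd1 := Finset.card_erase_of_mem hp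
    have hd2 := Finset.card_erase_of_mem (Finset.mem_erase.2 ⟨Ne.symm hpq, hq⟩)
    obtain ⟨ψ, hψ, hs⟩ := ih ((S.erase u).erase w) ((X.erase p).erase q) (by omega) (by omega)
    have e1 := hψ.ext1 (Finset.notMem_erase w _) (Finset.notMem_erase q _)
    rw [Finset.insert_erase hw, Finset.insert_erase (Finset.mem_erase.2 ⟨Ne.symm hpq, hq⟩)] at e1
    have e2 := e1.ext1 (Finset.notMem_erase u _) (Finset.notMem_erase p _)
    rw [Finset.insert_erase hu, Finset.insert_erase hp] at e2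
    refine ⟨_, e2, ?_⟩
    rw [← Finset.add_sum_erase _ _ hu, ← Finset.add_sum_erase _ _ hw]
    have hwu : w ≠ u := (Finset.mem_erase.1 hw).1
    rw [update_self, update_of_ne hwu, update_self, hh, ← add_assoc, h2, zero_add, ← hs]
    apply Finset.sum_congr rfl
    intro v hv
    rw [Finset.mem_erase, Finset.mem_erase] at hv
    rw [update_of_ne hv.2.1, update_of_ne hv.1]

theorem K4_add_self (g : ZMod 2 × ZMod 2) : g + g = 0 := by
  ext
  · exact add_self2 _
  · exact add_self2 _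

theorem dg_sum_eq [Fintype V] (E : Finset (Sym2 V)) (g : V → ZMod 2) :
    ∑ v, dg E v * g v = ∑ v ∈ Finset.univ.filter (fun v => dg E v ≠ 0), g v := by
  rw [Finset.sum_filter]
  apply Finset.sum_congr rfl
  intro v _
  have : ∀ x y : ZMod 2, x * y = if x ≠ 0 then y else 0 := by decide
  exact this _ _

theorem odd_even [Fintype V] {E : Finset (Sym2 V)} (hE : ∀ e ∈ E, ¬ e.IsDiag)
    (hev : Even E.card) : Even (Finset.univ.filter (fun v => dg E v ≠ 0)).card := by
  have h := sum_dg hE hev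
  have h1 := dg_sum_eq E (fun _ => (1 : ZMod 2))
  simp only [mul_one] at h1
  rw [h, Finset.sum_const, nsmul_eq_mul, mul_one] at h1
  exact (ZMod.natCast_eq_zero_iff_even).1 h1.symm

/-- both colourings flat -/
theorem both_flat [Fintype V] {E : Finset (Sym2 V)} (hE : ∀ e ∈ E, ¬ e.IsDiag)
    (hev : Even E.card) {c1 c2 : Sym2 P → ZMod 2} {X : Finset P}
    (hX : Fintype.card V + 4 ≤ X.card) (h1 : Flat c1 X) (h2 : Flat c2 X) : HZ E c1 c2 X := by
  obtain ⟨f1, t1, s1⟩ := exists_str h1 (by omega)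
  obtain ⟨f2, t2, s2⟩ := exists_str h2 (by omega)
  obtain ⟨k, hk⟩ := odd_even hE hev
  have hle : (Finset.univ.filter (fun v => dg E v ≠ 0)).card ≤ Fintype.card V :=
    Finset.card_le_univ _
  obtain ⟨ψ, hψ, hs⟩ := even_sum K4_add_self (fun x => (f1 x, f2 x)) k
    (Finset.univ.filter (fun v => dg E v ≠ 0)) X (by omega) (by
      rw [Fintype.card_prod, ZMod.card]; omega)
  obtain ⟨φ, g1, g2, g3⟩ := hψ.extend (by omega)
  refine ⟨φ, g1, g2, ?_, ?_⟩
  · rw [F_str hE hev s1 g1 g2, dg_sum_eq]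
    have := congrArg Prod.fst hs
    rw [Prod.fst_sum] at this
    rw [Finset.sum_congr rfl fun v hv => by rw [g3 v hv]]
    exact this
  · rw [F_str hE hev s2 g1 g2, dg_sum_eq]
    have := congrArg Prod.snd hs
    rw [Prod.snd_sum] at this
    rw [Finset.sum_congr rfl fun v hv => by rw [g3 v hv]]
    exact this

/-- stars -/
theorem star [Fintype V] {E : Finset (Sym2 V)} (hE : ∀ e ∈ E, ¬ e.IsDiag)
    (hev : Even E.card) {c1 c2 : Sym2 P → ZMod 2} {X : Finset P}
    (hX : Fintype.card V + 5 ≤ X.card) {p : V} (hp : ∀ e ∈ E, p ∈ e) : HZ E c1 c2 X := by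
  obtain ⟨L, hL⟩ : ∃ L : Finset V, L = Finset.univ.filter (fun w => s(p, w) ∈ E) := ⟨_, rfl⟩
  have hEL : E = L.image (fun w => s(p, w)) := by
    ext e
    rw [Finset.mem_image]
    constructor
    · intro he
      obtain ⟨w, rfl⟩ := Sym2.mem_iff_exists.1 (hp e he)
      exact ⟨w, by rw [hL]; simpa using he, rfl⟩
    · rintro ⟨w, hw, rfl⟩
      rw [hL] at hw
      simpa using hw
  have hinj : Set.InjOn (fun w => s(p, w)) (L : Set V) := by
    intro a _ b _ h
    exact Sym2.congr_right.1 h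
  have hcard : E.card = L.card := by
    conv_lhs => rw [hEL]
    exact Finset.card_image_of_injOn hinj
  have hpL : p ∉ L := by
    intro h
    rw [hL, Finset.mem_filter] at h
    exact hE _ h.2 (by simp)
  obtain ⟨x0, hx0⟩ := Finset.card_pos.1 (by omega : 0 < X.card)
  obtain ⟨k, hk⟩ := hev
  have hle : L.card ≤ Fintype.card V := Finset.card_le_univ _
  have hd := Finset.card_erase_of_mem hx0
  obtain ⟨ψ, hψ, hs⟩ := even_sum K4_add_self (fun x => (c1 s(x0, x), c2 s(x0, x))) k L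
    (X.erase x0) (by omega) (by rw [Fintype.card_prod, ZMod.card]; omega)
  have e1 := hψ.ext1 hpL (Finset.notMem_erase x0 X)
  rw [Finset.insert_erase hx0] at e1
  obtain ⟨φ, g1, g2, g3⟩ := e1.extend (by omega)
  have hF : ∀ c : Sym2 P → ZMod 2, F E c φ = ∑ w ∈ L, c s(x0, ψ w) := by
    intro c
    unfold F
    rw [hEL, Finset.sum_image hinj]
    apply Finset.sum_congr rfl
    intro w hw
    rw [Sym2.map_mk, g3 p (Finset.mem_insert_self _ _), g3 w (Finset.mem_insert_of_mem hw),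
      update_self, update_of_ne (fun h : w = p => hpL (h ▸ hw))]
  refine ⟨φ, g1, g2, ?_, ?_⟩
  · rw [hF]
    have := congrArg Prod.fst hs
    rw [Prod.fst_sum] at this
    exact this
  · rw [hF]
    have := congrArg Prod.snd hs
    rw [Prod.snd_sum] at this
    exact this

theorem star_or {E : Finset (Sym2 V)} (hE : ∀ e ∈ E, ¬ e.IsDiag) (hev : Even E.card)
    (hno : ¬ ∃ x z y w, s(x, z) ∈ E ∧ s(y, w) ∈ E ∧ [x, z, y, w].Nodup) :
    E = ∅ ∨ ∃ p, ∀ e ∈ E, p ∈ e := by
  have hne : ∀ x y, s(x, y) ∈ E → x ≠ y := by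
    rintro x y h rfl
    exact hE _ h (by simp)
  have meet : ∀ x z y w, s(x, z) ∈ E → s(y, w) ∈ E → x = y ∨ x = w ∨ z = y ∨ z = w := by
    intro x z y w h1 h2
    by_contra hc
    push Not at hc
    apply hno
    refine ⟨x, z, y, w, h1, h2, ?_⟩
    simp only [List.nodup_cons, List.mem_cons, List.not_mem_nil, or_false, not_or,
        not_false_eq_true, List.nodup_nil, and_true]
    exact ⟨⟨hne _ _ h1, hc.1, hc.2.1⟩, ⟨hc.2.2.1, hc.2.2.2⟩, hne _ _ h2⟩
  by_cases hem : E = ∅
  · exact Or.inl hem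
  right
  obtain ⟨e1, he1⟩ := Finset.nonempty_iff_ne_empty.2 hem
  induction e1 using Sym2.ind with
  | _ x z =>
  by_cases hx : ∀ e ∈ E, x ∈ e
  · exact ⟨x, hx⟩
  by_cases hz : ∀ e ∈ E, z ∈ e
  · exact ⟨z, hz⟩
  exfalso
  push Not at hx hz
  obtain ⟨e2, he2, hx2⟩ := hx
  obtain ⟨e3, he3, hz3⟩ := hz
  have m2 : z ∈ e2 := by
    induction e2 using Sym2.ind with
    | _ a b =>
    rw [Sym2.mem_iff] at hx2 ⊢
    rcases meet x z a b he1 he2 with h | h | h | h
    · exact absurd (Or.inl h) hx2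
    · exact absurd (Or.inr h) hx2
    · exact Or.inl h
    · exact Or.inr h
  have m3 : x ∈ e3 := by
    induction e3 using Sym2.ind with
    | _ a b =>
    rw [Sym2.mem_iff] at hz3 ⊢
    rcases meet x z a b he1 he3 with h | h | h | h
    · exact Or.inl h
    · exact Or.inr h
    · exact absurd (Or.inl h) hz3
    · exact absurd (Or.inr h) hz3
  obtain ⟨y, rfl⟩ := Sym2.mem_iff_exists.1 m2
  obtain ⟨w, rfl⟩ := Sym2.mem_iff_exists.1 m3
  have nxz := hne _ _ he1
  have nzy := hne _ _ he2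
  have nxw := hne _ _ he3
  rw [Sym2.mem_iff, not_or] at hx2 hz3
  have hyw : y = w := by
    rcases meet z y x w he2 he3 with h | h | h | h
    · exact absurd h hz3.1
    · exact absurd h hz3.2
    · exact absurd h.symm hx2.2
    · exact h
  subst hyw
  have hE3 : E = {s(x, z), s(z, y), s(x, y)} := by
    ext e
    rw [Finset.mem_insert, Finset.mem_insert, Finset.mem_singleton]
    constructor
    · intro he
      induction e using Sym2.ind with
      | _ a b =>
      have hab := hne _ _ he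
      have g1 := meet a b x z he he1
      have g2 := meet a b z y he he2
      have g3 := meet a b x y he he3
      rw [Sym2.eq_iff, Sym2.eq_iff, Sym2.eq_iff]
      grind
    · rintro (h | h | h)
      · rw [h]; exact he1
      · rw [h]; exact he2
      · rw [h]; exact he3
  have : E.card = 3 := by
    rw [hE3, Finset.card_insert_of_notMem, Finset.card_insert_of_notMem, Finset.card_singleton]
    · rw [Finset.mem_singleton, Sym2.eq_iff]
      grind
    · rw [Finset.mem_insert, Finset.mem_singleton, Sym2.eq_iff, Sym2.eq_iff]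
      grind
  rw [this] at hev
  revert hev
  decide

end Pool.Agent.R40.ZSR
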