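import Pool.Agent.R40.ZSRd

/-!
# Zero-sum placements over the Klein group: twin classes of positions
-/

namespace Pool.Agent.R40.ZSR

open Finset Function

set_option linter.unusedSectionVars false

variable {V P : Type} [DecidableEq V] [DecidableEq P]

/-- edges inside `S` -/
def ins (E : Finset (Sym2 V)) (S : Finset V) : Finset (Sym2 V) := E.filter (fun e => e ∈ S.sym2)

theorem mem_ins {E : Finset (Sym2 V)} {S : Finset V} {e : Sym2 V} :
    e ∈ ins E S ↔ e ∈ E ∧ ∀ v ∈ e, v ∈ S := by
  unfold ins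
  rw [Finset.mem_filter, Finset.mem_sym2_iff]

theorem ins_insert {M : Type} [AddCommMonoid M] {E : Finset (Sym2 V)} (hE : ∀ e ∈ E, ¬ e.IsDiag)
    {S : Finset V} {v : V} (hv : v ∉ S) (g : Sym2 V → M) :
    ∑ e ∈ ins E (insert v S), g e =
      ∑ e ∈ ins E S, g e + ∑ w ∈ S.filter (fun w => s(v, w) ∈ E), g s(v, w) := by
  have h1 : ins E (insert v S) = ins E S ∪ (S.filter (fun w => s(v, w) ∈ E)).image
      (fun w => s(v, w)) := by
    ext e
    rw [Finset.mem_union, mem_ins, mem_ins, Finset.mem_image]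
    constructor
    · rintro ⟨he, h⟩
      by_cases hve : v ∈ e
      · right
        obtain ⟨w, rfl⟩ := Sym2.mem_iff_exists.1 hve
        refine ⟨w, ?_, rfl⟩
        rw [Finset.mem_filter]
        refine ⟨?_, he⟩
        have := h w (by simp)
        rw [Finset.mem_insert] at this
        rcases this with h' | h'
        · subst h'
          exact absurd (by simp) (hE _ he)
        · exact h'
      · left
        refine ⟨he, fun w hw => ?_⟩
        have := h w hw
        rw [Finset.mem_insert] at this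
        rcases this with h' | h'
        · subst h'
          exact absurd hw hve
        · exact h'
    · rintro (⟨he, h⟩ | ⟨w, hw, rfl⟩)
      · exact ⟨he, fun w hw => Finset.mem_insert_of_mem (h w hw)⟩
      · rw [Finset.mem_filter] at hw
        refine ⟨hw.2, fun x hx => ?_⟩
        rw [Sym2.mem_iff] at hx
        rcases hx with rfl | rfl
        · exact Finset.mem_insert_self _ _
        · exact Finset.mem_insert_of_mem hw.1
  have hdisj : Disjoint (ins E S) ((S.filter (fun w => s(v, w) ∈ E)).image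
      (fun w => s(v, w))) := by
    rw [Finset.disjoint_left]
    intro e he he'
    rw [Finset.mem_image] at he'
    obtain ⟨w, _, rfl⟩ := he'
    exact hv ((mem_ins.1 he).2 v (by simp))
  rw [h1, Finset.sum_union hdisj, Finset.sum_image]
  intro a _ b _ h
  exact Sym2.congr_right.1 h

theorem cl_insert {M : Type} [AddCommMonoid M] {E : Finset (Sym2 V)} (hE : ∀ e ∈ E, ¬ e.IsDiag)
    {S : Finset V} {v : V} (hv : v ∉ S) (h : ∀ w ∈ S, s(v, w) ∈ E) (g : Sym2 V → M) :
    ∑ e ∈ ins E (insert v S), g e = ∑ e ∈ ins E S, g e + ∑ w ∈ S, g s(v, w) := by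
  rw [ins_insert hE hv, Finset.filter_true_of_mem h]

/-- complete multipartite up to isolated vertices -/
def CM (E : Finset (Sym2 V)) : Prop :=
  ∀ x z y w, s(x, z) ∈ E → s(y, w) ∈ E → y ≠ x → y ≠ z → s(x, y) ∈ E ∨ s(z, y) ∈ E

/-- positions of equal type are twins -/
def Tw {M J : Type} (c : Sym2 P → M) (τ : P → J) (X : Finset P) : Prop :=
  ∀ a ∈ X, ∀ b ∈ X, ∀ x ∈ X, τ a = τ b → x ≠ a → x ≠ b → c s(a, x) = c s(b, x)

theorem Tw.mono {M J : Type} {c : Sym2 P → M} {τ : P → J} {X Y : Finset P} (h : Tw c τ X)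
    (hY : Y ⊆ X) : Tw c τ Y := fun a ha b hb x hx => h a (hY ha) b (hY hb) x (hY hx)

theorem CM.twin {E : Finset (Sym2 V)} (h : CM E) (hE : ∀ e ∈ E, ¬ e.IsDiag) {y y' : V}
    (hy' : ∃ w, s(y', w) ∈ E) (hyy : y ≠ y') (hn : s(y, y') ∉ E) {w : V} (hw : s(y, w) ∈ E) :
    s(y', w) ∈ E := by
  obtain ⟨w', hw'⟩ := hy'
  have h1 : y' ≠ w := by
    rintro rfl; exact hn hw
  rcases h y w y' w' hw hw' (Ne.symm hyy) h1 with h2 | h2
  · exact absurd h2 hn
  · rwa [Sym2.eq_swap]

theorem take1 {α : Type} [DecidableEq α] (T : Finset α) (h : 0 < T.card) :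
    ∃ a T', a ∉ T' ∧ T = insert a T' ∧ T.card = T'.card + 1 := by
  obtain ⟨a, ha⟩ := Finset.card_pos.1 h
  refine ⟨a, T.erase a, Finset.notMem_erase _ _, (Finset.insert_erase ha).symm, ?_⟩
  rw [Finset.card_erase_of_mem ha]
  omega

theorem evenZ {α : Type} (T : Finset α) : Even T.card ↔ ∑ _e ∈ T, (1 : ZMod 2) = 0 := by
  rw [Finset.sum_const, nsmul_eq_mul, mul_one, ZMod.natCast_eq_zero_iff_even]

theorem update_sum {M : Type} [AddCommMonoid M] {S : Finset V} {E : Finset (Sym2 V)}
    (c : Sym2 P → M) (ψ : V → P) {u : V} {x : P} (hu : u ∉ S) :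
    ∑ e ∈ ins E S, c (e.map (update ψ u x)) = ∑ e ∈ ins E S, c (e.map ψ) := by
  apply Finset.sum_congr rfl
  intro e he
  congr 1
  apply Sym2.map_congr
  intro w hw
  rw [update_of_ne (fun h : w = u => hu (h ▸ (mem_ins.1 he).2 w hw))]

theorem FT_ind {M J : Type} [AddCommGroup M] (h2 : ∀ g : M, g + g = 0) [Fintype J]
    [DecidableEq J] {E : Finset (Sym2 V)} (hE : ∀ e ∈ E, ¬ e.IsDiag) (hCM : CM E) (τ : P → J)
    (c : Sym2 P → M) :
    ∀ (n : ℕ) (S : Finset V) (X : Finset P), S.card = n → (∀ v ∈ S, ∃ w, s(v, w) ∈ E) →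
      Even (ins E S).card → S.card + 3 * Fintype.card J + 1 ≤ X.card → Tw c τ X →
      ∃ ψ : V → P, PP ψ S X ∧ ∑ e ∈ ins E S, c (e.map ψ) = 0 := by
  intro n
  induction n using Nat.strong_induction_on with
  | _ n ih =>
  intro S X hn hS hev hX hT
  by_cases hcl : ∀ y ∈ S, ∀ y' ∈ S, y ≠ y' → s(y, y') ∈ E
  · by_cases h4 : 4 ≤ S.card
    · -- remove four vertices of a clique
      obtain ⟨v1, S1, m1, e1, k1⟩ := take1 S (by omega)
      obtain ⟨v2, S2, m2, e2, k2⟩ := take1 S1 (by omega)
      obtain ⟨v3, S3, m3, e3, k3⟩ := take1 S2 (by omega)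
      obtain ⟨v4, S4, m4, e4, k4⟩ := take1 S3 (by omega)
      have hm1 : v1 ∈ S := by rw [e1]; exact Finset.mem_insert_self _ _
      have s1 : S1 ⊆ S := by rw [e1]; exact Finset.subset_insert _ _
      have s2 : S2 ⊆ S1 := by rw [e2]; exact Finset.subset_insert _ _
      have s3 : S3 ⊆ S2 := by rw [e3]; exact Finset.subset_insert _ _
      have s4 : S4 ⊆ S3 := by rw [e4]; exact Finset.subset_insert _ _
      have hm2 : v2 ∈ S1 := by rw [e2]; exact Finset.mem_insert_self _ _
      have hm3 : v3 ∈ S2 := by rw [e3]; exact Finset.mem_insert_self _ _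
      have hm4 : v4 ∈ S3 := by rw [e4]; exact Finset.mem_insert_self _ _
      have a1 : ∀ w ∈ S1, s(v1, w) ∈ E := fun w hw =>
        hcl v1 hm1 w (s1 hw) (fun h => m1 (h ▸ hw))
      have a2 : ∀ w ∈ S2, s(v2, w) ∈ E := fun w hw =>
        hcl v2 (s1 hm2) w (s1 (s2 hw)) (fun h => m2 (h ▸ hw))
      have a3 : ∀ w ∈ S3, s(v3, w) ∈ E := fun w hw =>
        hcl v3 (s1 (s2 hm3)) w (s1 (s2 (s3 hw))) (fun h => m3 (h ▸ hw))
      have a4 : ∀ w ∈ S4, s(v4, w) ∈ E := fun w hw =>
        hcl v4 (s1 (s2 (s3 hm4))) w (s1 (s2 (s3 (s4 hw)))) (fun h => m4 (h ▸ hw))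
      have key : ∀ (M' : Type) [AddCommMonoid M'] (g : Sym2 V → M'), ∑ e ∈ ins E S, g e =
          ∑ e ∈ ins E S4, g e + ∑ w ∈ S4, g s(v4, w) + (g s(v3, v4) + ∑ w ∈ S4, g s(v3, w)) +
          (g s(v2, v3) + (g s(v2, v4) + ∑ w ∈ S4, g s(v2, w))) +
          (g s(v1, v2) + (g s(v1, v3) + (g s(v1, v4) + ∑ w ∈ S4, g s(v1, w)))) := by
        intro M' _ g
        have b1 := cl_insert hE m1 a1 g
        have b2 := cl_insert hE m2 a2 g
        have b3 := cl_insert hE m3 a3 g
        have b4 := cl_insert hE m4 a4 g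
        rw [← e1] at b1
        rw [← e2] at b2
        rw [← e3] at b3
        rw [← e4] at b4
        rw [b1, b2, b3, b4]
        have d1 : ∑ w ∈ S1, g s(v1, w) = g s(v1, v2) + (g s(v1, v3) + (g s(v1, v4) +
            ∑ w ∈ S4, g s(v1, w))) := by
          rw [e2, Finset.sum_insert m2, e3, Finset.sum_insert m3, e4, Finset.sum_insert m4]
        have d2 : ∑ w ∈ S2, g s(v2, w) = g s(v2, v3) + (g s(v2, v4) +
            ∑ w ∈ S4, g s(v2, w)) := by
          rw [e3, Finset.sum_insert m3, e4, Finset.sum_insert m4]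
        have d3 : ∑ w ∈ S3, g s(v3, w) = g s(v3, v4) + ∑ w ∈ S4, g s(v3, w) := by
          rw [e4, Finset.sum_insert m4]
        rw [d1, d2, d3]
      obtain ⟨j, _, hj⟩ := Finset.exists_lt_card_fiber_of_mul_lt_card_of_maps_to (s := X)
        (t := (Finset.univ : Finset J)) (f := τ) (n := 3) (fun a _ => Finset.mem_univ _)
        (by rw [Finset.card_univ]; omega)
      obtain ⟨p1, T1, q1, f1, l1⟩ := take1 (X.filter (fun x => τ x = j)) (by omega)
      obtain ⟨p2, T2, q2, f2, l2⟩ := take1 T1 (by omega)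
      obtain ⟨p3, T3, q3, f3, l3⟩ := take1 T2 (by omega)
      obtain ⟨p4, T4, q4, f4, l4⟩ := take1 T3 (by omega)
      subst f4
      subst f3
      subst f2
      have r1 : p1 ∈ X.filter (fun x => τ x = j) := by rw [f1]; simp
      have r2 : p2 ∈ X.filter (fun x => τ x = j) := by rw [f1]; simp
      have r3 : p3 ∈ X.filter (fun x => τ x = j) := by rw [f1]; simp
      have r4 : p4 ∈ X.filter (fun x => τ x = j) := by rw [f1]; simp
      rw [Finset.mem_filter] at r1 r2 r3 r4
      simp only [Finset.mem_insert, not_or] at q1 q2 q3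
      obtain ⟨n12, n13, n14, -⟩ := q1
      obtain ⟨n23, n24, -⟩ := q2
      obtain ⟨n34, -⟩ := q3
      obtain ⟨X', hX'⟩ : ∃ X' : Finset P, X' = X \ {p1, p2, p3, p4} := ⟨_, rfl⟩
      have hXc : X.card ≤ X'.card + 4 := by
        have := Finset.le_card_sdiff {p1, p2, p3, p4} X
        have h4 : ({p1, p2, p3, p4} : Finset P).card ≤ 4 := Finset.card_le_four
        rw [hX']
        omega
      have x1 : p1 ∉ X' := by rw [hX']; simp
      have x2 : p2 ∉ X' := by rw [hX']; simp
      have x3 : p3 ∉ X' := by rw [hX']; simp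
      have x4 : p4 ∉ X' := by rw [hX']; simp
      have hsub : X' ⊆ X := by rw [hX']; exact Finset.sdiff_subset
      have hev4 : Even (ins E S4).card := by
        rw [evenZ] at hev ⊢
        rw [key (ZMod 2) (fun _ => 1)] at hev
        linear_combination (norm := (ring_nf; reduce_mod_char)) hev
      obtain ⟨ψ, hψ, hs⟩ := ih S4.card (by omega) S4 X' rfl
        (fun v hv => hS v (s1 (s2 (s3 (s4 hv))))) hev4 (by omega) (hT.mono hsub)
      have m3' : v3 ∉ S4 := fun h => m3 (s4 h)
      have m2' : v2 ∉ S4 := fun h => m2 (s3 (s4 h))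
      have m1' : v1 ∉ S4 := fun h => m1 (s2 (s3 (s4 h)))
      have w43 : v4 ≠ v3 := fun h => m3 (h ▸ hm4)
      have w42 : v4 ≠ v2 := fun h => m2 (h ▸ s3 hm4)
      have w41 : v4 ≠ v1 := fun h => m1 (h ▸ s2 (s3 hm4))
      have w32 : v3 ≠ v2 := fun h => m2 (h ▸ hm3)
      have w31 : v3 ≠ v1 := fun h => m1 (h ▸ s2 hm3)
      have w21 : v2 ≠ v1 := fun h => m1 (h ▸ hm2)
      have g4 := hψ.ext1 m4 x4
      rw [← e4] at g4
      have g3 := g4.ext1 m3 (x := p3) (by rw [Finset.mem_insert, not_or]; exact ⟨n34, x3⟩)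
      rw [← e3] at g3
      have g2 := g3.ext1 m2 (x := p2) (by
        rw [Finset.mem_insert, Finset.mem_insert, not_or, not_or]; exact ⟨n23, n24, x2⟩)
      rw [← e2] at g2
      have g1 := g2.ext1 m1 (x := p1) (by
        rw [Finset.mem_insert, Finset.mem_insert, Finset.mem_insert, not_or, not_or, not_or]
        exact ⟨n12, n13, n14, x1⟩)
      rw [← e1] at g1
      refine ⟨_, g1.mono ?_, ?_⟩
      · intro z hz
        simp only [Finset.mem_insert] at hz
        rcases hz with rfl | rfl | rfl | rfl | hz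
        · exact r1.1
        · exact r2.1
        · exact r3.1
        · exact r4.1
        · exact hsub hz
      · rw [key M, update_sum c _ m1', update_sum c _ m2', update_sum c _ m3',
          update_sum c _ m4, hs, zero_add]
        have hval : ∀ w ∈ S4, update (update (update (update ψ v4 p4) v3 p3) v2 p2) v1 p1 w
            = ψ w := by
          intro w hw
          rw [update_of_ne (fun h : w = v1 => m1' (h ▸ hw)),
            update_of_ne (fun h : w = v2 => m2' (h ▸ hw)),
            update_of_ne (fun h : w = v3 => m3' (h ▸ hw)),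
            update_of_ne (fun h : w = v4 => m4 (h ▸ hw))]
        have hv1 : update (update (update (update ψ v4 p4) v3 p3) v2 p2) v1 p1 v1 = p1 := by
          rw [update_self]
        have hv2 : update (update (update (update ψ v4 p4) v3 p3) v2 p2) v1 p1 v2 = p2 := by
          rw [update_of_ne w21, update_self]
        have hv3 : update (update (update (update ψ v4 p4) v3 p3) v2 p2) v1 p1 v3 = p3 := by
          rw [update_of_ne w31, update_of_ne w32, update_self]
        have hv4 : update (update (update (update ψ v4 p4) v3 p3) v2 p2) v1 p1 v4 = p4 := by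
          rw [update_of_ne w41, update_of_ne w42, update_of_ne w43, update_self]
        have tw : ∀ p ∈ X, τ p = j → p ∉ X' → ∀ w ∈ S4, c s(p, ψ w) = c s(p1, ψ w) := by
          intro p hp hpj hpX w hw
          have := hψ.2 w hw
          exact hT p hp p1 r1.1 _ (hsub this) (hpj.trans r1.2.symm)
            (fun h => hpX (h ▸ this)) (fun h => x1 (h ▸ this))
        simp only [Sym2.map_mk, hv1, hv2, hv3, hv4]
        have t1 : ∑ w ∈ S4, c s(p1, update (update (update (update ψ v4 p4) v3 p3) v2 p2) v1 p1 w)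
            = ∑ w ∈ S4, c s(p1, ψ w) := Finset.sum_congr rfl fun w hw => by rw [hval w hw]
        have t2 : ∑ w ∈ S4, c s(p2, update (update (update (update ψ v4 p4) v3 p3) v2 p2) v1 p1 w)
            = ∑ w ∈ S4, c s(p1, ψ w) := Finset.sum_congr rfl fun w hw => by
              rw [hval w hw, tw p2 r2.1 r2.2 x2 w hw]
        have t3 : ∑ w ∈ S4, c s(p3, update (update (update (update ψ v4 p4) v3 p3) v2 p2) v1 p1 w)
            = ∑ w ∈ S4, c s(p1, ψ w) := Finset.sum_congr rfl fun w hw => by
              rw [hval w hw, tw p3 r3.1 r3.2 x3 w hw]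
        have t4 : ∑ w ∈ S4, c s(p4, update (update (update (update ψ v4 p4) v3 p3) v2 p2) v1 p1 w)
            = ∑ w ∈ S4, c s(p1, ψ w) := Finset.sum_congr rfl fun w hw => by
              rw [hval w hw, tw p4 r4.1 r4.2 x4 w hw]
        rw [t1, t2, t3, t4]
        have c13 : c s(p1, p3) = c s(p1, p2) := by
          rw [Sym2.eq_swap (a := p1), Sym2.eq_swap (a := p1)]
          exact hT p3 r3.1 p2 r2.1 p1 r1.1 (r3.2.trans r2.2.symm) n13 n12
        have c14 : c s(p1, p4) = c s(p1, p2) := by
          rw [Sym2.eq_swap (a := p1), Sym2.eq_swap (a := p1)]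
          exact hT p4 r4.1 p2 r2.1 p1 r1.1 (r4.2.trans r2.2.symm) n14 n12
        have c23 : c s(p2, p3) = c s(p1, p2) := by
          rw [Sym2.eq_swap (a := p2)]
          exact hT p3 r3.1 p1 r1.1 p2 r2.1 (r3.2.trans r1.2.symm) n23 (Ne.symm n12)
        have c24 : c s(p2, p4) = c s(p1, p2) := by
          rw [Sym2.eq_swap (a := p2)]
          exact hT p4 r4.1 p1 r1.1 p2 r2.1 (r4.2.trans r1.2.symm) n24 (Ne.symm n12)
        have c34 : c s(p3, p4) = c s(p1, p2) := by
          rw [← c14]
          exact hT p3 r3.1 p1 r1.1 p4 r4.1 (r3.2.trans r1.2.symm) (Ne.symm n34) (Ne.symm n14)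
        rw [c13, c14, c23, c24, c34]
        generalize c s(p1, p2) = B
        generalize ∑ w ∈ S4, c s(p1, ψ w) = A
        calc A + (B + A) + (B + (B + A)) + (B + (B + (B + A)))
            = (A + A) + (A + A) + ((B + B) + (B + B) + (B + B)) := by abel
          _ = 0 := by rw [h2 A, h2 B]; simp
    · -- small cliques
      have hsmall : S.card ≤ 1 := by
        by_contra hc
        obtain ⟨v1, S1, m1, e1, k1⟩ := take1 S (by omega)
        obtain ⟨v2, S2, m2, e2, k2⟩ := take1 S1 (by omega)
        have hm1 : v1 ∈ S := by rw [e1]; exact Finset.mem_insert_self _ _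
        have s1 : S1 ⊆ S := by rw [e1]; exact Finset.subset_insert _ _
        have s2 : S2 ⊆ S1 := by rw [e2]; exact Finset.subset_insert _ _
        have hm2 : v2 ∈ S1 := by rw [e2]; exact Finset.mem_insert_self _ _
        have a1 : ∀ w ∈ S1, s(v1, w) ∈ E := fun w hw =>
          hcl v1 hm1 w (s1 hw) (fun h => m1 (h ▸ hw))
        have a2 : ∀ w ∈ S2, s(v2, w) ∈ E := fun w hw =>
          hcl v2 (s1 hm2) w (s1 (s2 hw)) (fun h => m2 (h ▸ hw))
        have b1 := cl_insert hE m1 a1 (fun _ => (1 : ZMod 2))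
        have b2 := cl_insert hE m2 a2 (fun _ => (1 : ZMod 2))
        rw [← e1] at b1
        rw [← e2] at b2
        rw [evenZ, b1, b2] at hev
        by_cases hS2 : S2.card = 0
        · rw [Finset.card_eq_zero] at hS2
          subst hS2
          have : ins E (∅ : Finset V) = ∅ := by
            rw [Finset.eq_empty_iff_forall_notMem]
            intro e he
            induction e using Sym2.ind with
            | _ x y => exact absurd ((mem_ins.1 he).2 x (by simp)) (by simp)
          rw [this, Finset.sum_empty, Finset.sum_const, Finset.sum_const, k2,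
            Finset.card_empty] at hev
          revert hev
          decide
        · obtain ⟨v3, S3, m3, e3, k3⟩ := take1 S2 (by omega)
          have hS3 : S3.card = 0 := by omega
          rw [Finset.card_eq_zero] at hS3
          subst hS3
          have hi : ins E S2 = ∅ := by
            rw [Finset.eq_empty_iff_forall_notMem]
            intro e he
            have hd := hE e (mem_ins.1 he).1
            induction e using Sym2.ind with
            | _ x y =>
            rw [Sym2.mk_isDiag_iff] at hd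
            have hx := (mem_ins.1 he).2 x (by simp)
            have hy := (mem_ins.1 he).2 y (by simp)
            rw [e3] at hx hy
            simp only [Finset.mem_insert, Finset.notMem_empty, or_false] at hx hy
            exact hd (hx.trans hy.symm)
          rw [hi, Finset.sum_empty, Finset.sum_const, Finset.sum_const, k2, k3,
            Finset.card_empty] at hev
          revert hev
          decide
      have hpos : 0 < X.card := by omega
      obtain ⟨x, hx⟩ := Finset.card_pos.1 hpos
      refine ⟨fun _ => x, ⟨?_, fun _ _ => hx⟩, ?_⟩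
      · intro a ha b hb _
        exact Finset.card_le_one.1 hsmall a ha b hb
      · have : ins E S = ∅ := by
          rw [Finset.eq_empty_iff_forall_notMem]
          intro e he
          have hd := hE e (mem_ins.1 he).1
          induction e using Sym2.ind with
          | _ x y =>
          rw [Sym2.mk_isDiag_iff] at hd
          have hx := (mem_ins.1 he).2 x (by simp)
          have hy := (mem_ins.1 he).2 y (by simp)
          exact hd (Finset.card_le_one.1 hsmall _ hx _ hy)
        rw [this, Finset.sum_empty]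
  · -- remove two nonadjacent twins
    push Not at hcl
    obtain ⟨y, hy, y', hy', hyy, hna⟩ := hcl
    have hy'' : y' ∈ S.erase y := Finset.mem_erase.2 ⟨Ne.symm hyy, hy'⟩
    obtain ⟨S', hS'⟩ : ∃ S' : Finset V, S' = (S.erase y).erase y' := ⟨_, rfl⟩
    have e1 : insert y' S' = S.erase y := by rw [hS', Finset.insert_erase hy'']
    have e2 : insert y (S.erase y) = S := Finset.insert_erase hy
    have m1 : y' ∉ S' := by rw [hS']; exact Finset.notMem_erase _ _
    have m2 : y ∉ S.erase y := Finset.notMem_erase _ _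
    have m3 : y ∉ S' := by rw [hS']; simp
    have d1 := Finset.card_erase_of_mem hy
    have d2 := Finset.card_erase_of_mem hy''
    rw [← hS'] at d2
    have hpos : 0 < S.card := Finset.card_pos.2 ⟨y, hy⟩
    have hpos' : 0 < (S.erase y).card := Finset.card_pos.2 ⟨y', hy''⟩
    have hN : (S.erase y).filter (fun w => s(y, w) ∈ E) =
        S'.filter (fun w => s(y', w) ∈ E) := by
      ext w
      rw [Finset.mem_filter, Finset.mem_filter, ← e1, Finset.mem_insert]
      constructor
      · rintro ⟨h | h, hw⟩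
        · subst h; exact absurd hw hna
        · exact ⟨h, hCM.twin hE (hS y' hy') hyy hna hw⟩
      · rintro ⟨h, hw⟩
        refine ⟨Or.inr h, hCM.twin hE (hS y hy) (Ne.symm hyy) ?_ hw⟩
        rwa [Sym2.eq_swap]
    have key : ∀ (M' : Type) [AddCommMonoid M'] (g : Sym2 V → M'), ∑ e ∈ ins E S, g e =
        ∑ e ∈ ins E S', g e + ∑ w ∈ S'.filter (fun w => s(y', w) ∈ E), (g s(y', w) +
          g s(y, w)) := by
      intro M' _ g
      have b1 := ins_insert hE m2 g
      have b2 := ins_insert hE m1 g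
      rw [e2, hN] at b1
      rw [e1] at b2
      rw [b1, b2, Finset.sum_add_distrib, add_assoc]
    obtain ⟨p, hp, q, hq, hpq, hh⟩ := Finset.exists_ne_map_eq_of_card_lt_of_maps_to
      (s := X) (t := (Finset.univ : Finset J)) (f := τ)
      (by rw [Finset.card_univ]; omega) (fun a _ => Finset.mem_univ _)
    have hq' : q ∈ X.erase p := Finset.mem_erase.2 ⟨Ne.symm hpq, hq⟩
    have k1 := Finset.card_erase_of_mem hp
    have k2 := Finset.card_erase_of_mem hq'
    obtain ⟨X', hX'⟩ : ∃ X' : Finset P, X' = (X.erase p).erase q := ⟨_, rfl⟩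
    rw [← hX'] at k2
    have hsub : X' ⊆ X := by
      rw [hX']; exact (Finset.erase_subset _ _).trans (Finset.erase_subset _ _)
    have xp : p ∉ X' := by rw [hX']; simp
    have xq : q ∉ X' := by rw [hX']; simp
    have hev' : Even (ins E S').card := by
      rw [evenZ] at hev ⊢
      rw [key (ZMod 2) (fun _ => 1)] at hev
      rw [← hev]
      have : (1 : ZMod 2) + 1 = 0 := by decide
      simp only [this, Finset.sum_const_zero, add_zero]
    obtain ⟨ψ, hψ, hs⟩ := ih S'.card (by omega) S' X' rfl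
        (fun v hv => hS v (by
          rw [hS'] at hv
          exact Finset.mem_of_mem_erase (Finset.mem_of_mem_erase hv))) hev' (by omega)
        (hT.mono hsub)
    have g1 := hψ.ext1 m1 xq
    rw [e1] at g1
    have g2 := g1.ext1 m2 (x := p) (by rw [Finset.mem_insert, not_or]; exact ⟨hpq, xp⟩)
    rw [e2] at g2
    refine ⟨_, g2.mono ?_, ?_⟩
    · intro z hz
      simp only [Finset.mem_insert] at hz
      rcases hz with rfl | rfl | hz
      · exact hp
      · exact hq
      · exact hsub hz
    · rw [key M, update_sum c _ m3, update_sum c _ m1, hs, zero_add]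
      apply Finset.sum_eq_zero
      intro w hw
      rw [Finset.mem_filter] at hw
      have hw1 : w ≠ y := fun h => m3 (h ▸ hw.1)
      have hw2 : w ≠ y' := fun h => m1 (h ▸ hw.1)
      rw [Sym2.map_mk, Sym2.map_mk, update_self, update_of_ne (Ne.symm hyy), update_self,
        update_of_ne hw1, update_of_ne hw2]
      have := hψ.2 w hw.1
      rw [hT p hp q hq (ψ w) (hsub this) hh (fun h => xp (h ▸ this)) (fun h => xq (h ▸ this))]
      exact h2 _

/-- placement from twin classes -/
theorem FT [Fintype V] {J : Type} [Fintype J] [DecidableEq J] {E : Finset (Sym2 V)}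
    (hE : ∀ e ∈ E, ¬ e.IsDiag) (hev : Even E.card) (hCM : CM E) {c1 c2 : Sym2 P → ZMod 2}
    {X : Finset P} (τ : P → J) (hX : Fintype.card V + 3 * Fintype.card J + 1 ≤ X.card)
    (h1 : Tw c1 τ X) (h2 : Tw c2 τ X) : HZ E c1 c2 X := by
  classical
  obtain ⟨S, hS⟩ : ∃ S : Finset V, S = Finset.univ.filter (fun v => ∃ w, s(v, w) ∈ E) :=
    ⟨_, rfl⟩
  have hins : ins E S = E := by
    ext e
    rw [mem_ins]
    refine ⟨fun h => h.1, fun h => ⟨h, fun v hv => ?_⟩⟩
    rw [hS, Finset.mem_filter]
    refine ⟨Finset.mem_univ _, ?_⟩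
    obtain ⟨w, rfl⟩ := Sym2.mem_iff_exists.1 hv
    exact ⟨w, h⟩
  have hle : S.card ≤ Fintype.card V := Finset.card_le_univ _
  obtain ⟨ψ, hψ, hs⟩ := FT_ind K4_add_self hE hCM τ (fun e => (c1 e, c2 e)) S.card S X rfl
    (fun v hv => by rw [hS, Finset.mem_filter] at hv; exact hv.2) (by rwa [hins]) (by omega)
    (fun a ha b hb x hx hab hxa hxb => by
      show (c1 s(a, x), c2 s(a, x)) = (c1 s(b, x), c2 s(b, x))
      rw [h1 a ha b hb x hx hab hxa hxb, h2 a ha b hb x hx hab hxa hxb])
  rw [hins] at hs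
  obtain ⟨φ, g1, g2, g3⟩ := hψ.extend (by omega)
  have hF : ∀ c : Sym2 P → ZMod 2, F E c φ = ∑ e ∈ E, c (e.map ψ) := by
    intro c
    unfold F
    apply Finset.sum_congr rfl
    intro e he
    congr 1
    apply Sym2.map_congr
    intro w hw
    rw [← hins] at he
    exact g3 w ((mem_ins.1 he).2 w hw)
  refine ⟨φ, g1, g2, ?_, ?_⟩
  · rw [hF]
    have := congrArg Prod.fst hs
    rw [Prod.fst_sum] at this
    exact this
  · rw [hF]
    have := congrArg Prod.snd hs
    rw [Prod.snd_sum] at this
    exact this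

end Pool.Agent.R40.ZSR
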