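import Pool.Agent.R40.ZSRe

/-!
# Zero-sum placements over the Klein group: the additive bound
-/

namespace Pool.Agent.R40.ZSR

open Finset Function

set_option linter.unusedSectionVars false

variable {V P : Type} [DecidableEq V] [DecidableEq P]

theorem ne_zero_one : ∀ x : ZMod 2, x ≠ 0 → x = 1 := by decide

theorem not_flat {c : Sym2 P → ZMod 2} {X : Finset P} (h : ¬ Flat c X) :
    ∃ a ∈ X, ∃ b ∈ X, ∃ x ∈ X, ∃ y ∈ X, [a, b, x, y].Nodup ∧ sw c a b x y = 1 := by
  unfold Flat at h
  push Not at h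
  obtain ⟨a, ha, b, hb, x, hx, y, hy, hn, hs⟩ := h
  exact ⟨a, ha, b, hb, x, hx, y, hy, hn, ne_zero_one _ hs⟩

/-- if the first colour sum always vanishes -/
theorem zero_first [Fintype V] {E : Finset (Sym2 V)} (hE : ∀ e ∈ E, ¬ e.IsDiag)
    (hev : Even E.card) {c1 c2 : Sym2 P → ZMod 2} {X : Finset P}
    (hX : Fintype.card V + 4 ≤ X.card) (h1 : Flat c1 X)
    (h0 : ∀ φ : V → P, Injective φ → (∀ v, φ v ∈ X) → F E c1 φ = 0) : HZ E c1 c2 X := by
  by_contra hno
  by_cases h2 : Flat c2 X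
  · exact hno (both_flat hE hev hX h1 h2)
  obtain ⟨a, ha, b, hb, x, hx, y, hy, hn, hs⟩ := not_flat h2
  have hall : ∀ φ : V → P, Injective φ → (∀ v, φ v ∈ X) → F E c2 φ = 1 := by
    intro φ g1 g2
    apply ne_zero_one
    intro h
    exact hno ⟨φ, g1, g2, h0 φ g1 g2, h⟩
  obtain ⟨φ, hφi, hφX⟩ := exEmb (V := V) X ([a, b, x, y].toFinset)
    (by have := List.toFinset_card_le [a, b, x, y]
        simp only [List.length_cons, List.length_nil] at this
        omega)
  have hav : ∀ z ∈ [a, b, x, y], ∀ v, φ v ≠ z := by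
    intro z hz v h
    exact (hφX v).2 (by rw [h]; exact List.mem_toFinset.2 hz)
  by_cases hem : E = ∅
  · have := hall φ hφi (fun v => (hφX v).1)
    rw [hem] at this
    unfold F at this
    rw [Finset.sum_empty] at this
    exact absurd this (by decide)
  obtain ⟨e, he⟩ := Finset.nonempty_iff_ne_empty.2 hem
  have hd := hE e he
  induction e using Sym2.ind with
  | _ u v =>
  rw [Sym2.mk_isDiag_iff] at hd
  have hgood : ∀ x1 x2 : P, x1 ∈ X → x2 ∈ X → x1 ∈ [a, b, x, y] → x2 ∈ [a, b, x, y] → x1 ≠ x2 →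
      F E c2 (update (update φ u x1) v x2) = 1 := by
    intro x1 x2 i1 i2 m1 m2 n12
    apply hall
    · exact inj_update (inj_update hφi (hav _ m1)) (update_ne' n12 (hav _ m2))
    · exact update_mem' i2 (update_mem' i1 fun v => (hφX v).1)
  simp only [List.nodup_cons, List.mem_cons, List.not_mem_nil, or_false, not_or,
    not_false_eq_true, List.nodup_nil, and_true] at hn
  have sq := square E hE c2 hd (update (update φ u a) v x) (update (update φ u b) v x)
    (update (update φ u a) v y) (update (update φ u b) v y)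
    (by intro w hw1 hw2; simp [update_apply, hw1, hw2])
    (by simp [update_apply, hd])
    (by simp [update_apply, hd])
    (by simp [update_apply])
    (by simp [update_apply])
  rw [if_pos he, hgood a x ha hx (by simp) (by simp) hn.1.2.1,
    hgood b x hb hx (by simp) (by simp) hn.2.1.1, hgood a y ha hy (by simp) (by simp) hn.1.2.2,
    hgood b y hb hy (by simp) (by simp) hn.2.1.2, update_of_ne hd, update_self, update_of_ne hd,
    update_self, update_self, update_self, hs] at sq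
  exact absurd sq (by decide)

/-- one flat colouring -/
theorem lemI [Fintype V] {E : Finset (Sym2 V)} (hE : ∀ e ∈ E, ¬ e.IsDiag)
    (hev : Even E.card) (hD : ∃ x z y w, s(x, z) ∈ E ∧ s(y, w) ∈ E ∧ [x, z, y, w].Nodup)
    {c1 c2 : Sym2 P → ZMod 2} {X : Finset P}
    (hX : Fintype.card V + 27 ≤ X.card) (h1 : Flat c1 X) : HZ E c1 c2 X := by
  by_contra hno
  obtain ⟨f, t, hs⟩ := exists_str h1 (by omega)
  by_cases hO : ∀ v, dg E v = 0
  · apply hno
    apply zero_first hE hev (by omega) h1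
    intro φ g1 g2
    rw [F_str hE hev hs g1 g2]
    exact Finset.sum_eq_zero fun v _ => by rw [hO v, zero_mul]
  push Not at hO
  obtain ⟨o, ho⟩ := hO
  have hcard : (X.filter (fun x => f x = 0)).card + (X.filter (fun x => ¬ f x = 0)).card
      = X.card := Finset.card_filter_add_card_filter_not _
  by_cases hA : (X.filter (fun x => f x = 0)).card ≤ 4
  · apply hno
    apply HZ.mono _ (Finset.filter_subset (fun x => ¬ f x = 0) X)
    apply zero_first hE hev (by omega) (h1.mono (Finset.filter_subset _ _))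
    intro φ g1 g2
    rw [F_str hE hev (hs.mono (Finset.filter_subset _ _)) g1 g2, ← sum_dg hE hev]
    apply Finset.sum_congr rfl
    intro v _
    rw [ne_zero_one _ (Finset.mem_filter.1 (g2 v)).2, mul_one]
  by_cases hB : (X.filter (fun x => ¬ f x = 0)).card ≤ 4
  · apply hno
    apply HZ.mono _ (Finset.filter_subset (fun x => f x = 0) X)
    apply zero_first hE hev (by omega) (h1.mono (Finset.filter_subset _ _))
    intro φ g1 g2
    rw [F_str hE hev (hs.mono (Finset.filter_subset _ _)) g1 g2]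
    apply Finset.sum_eq_zero
    intro v _
    rw [(Finset.mem_filter.1 (g2 v)).2, mul_zero]
  by_cases h2 : Flat c2 X
  · exact hno (both_flat hE hev (by omega) h1 h2)
  have pick0 : ∀ B : Finset P, B.card ≤ 4 → ∃ a ∈ X, a ∉ B ∧ f a = 0 := by
    intro B hB'
    have := Finset.le_card_sdiff B (X.filter (fun x => f x = 0))
    obtain ⟨a, ha⟩ := Finset.card_pos.1
      (by omega : 0 < (X.filter (fun x => f x = 0) \ B).card)
    rw [Finset.mem_sdiff, Finset.mem_filter] at ha
    exact ⟨a, ha.1.1, ha.2, ha.1.2⟩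
  have pick1 : ∀ B : Finset P, B.card ≤ 4 → ∃ a ∈ X, a ∉ B ∧ f a = 1 := by
    intro B hB'
    have := Finset.le_card_sdiff B (X.filter (fun x => ¬ f x = 0))
    obtain ⟨a, ha⟩ := Finset.card_pos.1
      (by omega : 0 < (X.filter (fun x => ¬ f x = 0) \ B).card)
    rw [Finset.mem_sdiff, Finset.mem_filter] at ha
    exact ⟨a, ha.1.1, ha.2, ne_zero_one _ ha.1.2⟩
  have useK3 : ∀ u1 u2 u3 : V, [u1, u2, u3].Nodup → dg E u1 ≠ 0 → s(u2, u3) ∈ E →
      ∀ a2 ∈ X, ∀ b2 ∈ X, ∀ a3 ∈ X, ∀ b3 ∈ X, [a2, b2, a3, b3].Nodup →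
      (dg E u2 = 0 ∨ f a2 = f b2 ∨ s(u1, u3) ∉ E) →
      (dg E u3 = 0 ∨ f a3 = f b3 ∨ s(u1, u2) ∉ E) → sw c2 a2 b2 a3 b3 = 0 := by
    intro u1 u2 u3 hu hd he a2 ha2 b2 hb2 a3 ha3 b3 hb3 hn k2 k3
    obtain ⟨a1, ha1, na1, fa1⟩ := pick0 {a2, b2, a3, b3} Finset.card_le_four
    obtain ⟨b1, hb1, nb1, fb1⟩ := pick1 {a2, b2, a3, b3} Finset.card_le_four
    have hab : a1 ≠ b1 := by
      rintro rfl
      rw [fa1] at fb1
      exact absurd fb1 (by decide)
    refine K3 hE hev hno (by omega) hs hu (a1 := a1) (b1 := b1) ?_ ?_ hd ?_ he k2 k3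
    · simp only [List.nodup_cons, List.mem_cons, List.not_mem_nil, or_false, not_or,
        not_false_eq_true, List.nodup_nil, and_true, Finset.mem_insert,
        Finset.mem_singleton] at hn na1 nb1 ⊢
      exact ⟨⟨hab, na1⟩, nb1, hn⟩
    · intro x hx
      simp only [List.mem_cons, List.not_mem_nil, or_false] at hx
      rcases hx with rfl | rfl | rfl | rfl | rfl | rfl <;> assumption
    · rw [fa1, fb1]
      decide
  obtain ⟨a2, ha2, b2, hb2, a3, ha3, b3, hb3, hn, hsw⟩ := not_flat h2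
  have hneE : ∀ x y, s(x, y) ∈ E → x ≠ y := by
    rintro x y h rfl
    exact hE _ h (by simp)
  have no : ∀ u1 u2 u3 : V, [u1, u2, u3].Nodup → dg E u1 ≠ 0 → s(u2, u3) ∈ E →
      (dg E u2 = 0 ∨ s(u1, u3) ∉ E) → (dg E u3 = 0 ∨ s(u1, u2) ∉ E) → False := by
    intro u1 u2 u3 hu hd he k2 k3
    have := useK3 u1 u2 u3 hu hd he a2 ha2 b2 hb2 a3 ha3 b3 hb3 hn
      (k2.elim Or.inl fun h => Or.inr (Or.inr h)) (k3.elim Or.inl fun h => Or.inr (Or.inr h))
    rw [hsw] at this
    exact absurd this (by decide)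
  have hCM : CM E := by
    intro x z y w hxz hyw hyx hyz
    by_contra hc
    push Not at hc
    obtain ⟨nxy, nzy⟩ := hc
    have nyx : s(y, x) ∉ E := by rwa [Sym2.eq_swap]
    have nyz : s(y, z) ∉ E := by rwa [Sym2.eq_swap]
    have hwx : w ≠ x := by rintro rfl; exact nyx hyw
    have hwz : w ≠ z := by rintro rfl; exact nyz hyw
    have e1 := hneE _ _ hxz
    have e2 := hneE _ _ hyw
    have dy : dg E y = 0 := by
      by_contra hd
      exact no y x z (by simp [hyx, hyz, e1]) hd hxz (Or.inr nyz) (Or.inr nyx)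
    have dx : dg E x = 0 := by
      by_contra hd
      exact no x y w (by simp [hyx.symm, hwx.symm, e2]) hd hyw (Or.inl dy) (Or.inr nxy)
    have dz : dg E z = 0 := by
      by_contra hd
      exact no z y w (by simp [hyz.symm, hwz.symm, e2]) hd hyw (Or.inl dy) (Or.inr nzy)
    have hox : o ≠ x := by rintro rfl; exact ho dx
    have hoz : o ≠ z := by rintro rfl; exact ho dz
    exact no o x z (by simp [hox, hoz, e1]) ho hxz (Or.inl dx) (Or.inl dz)
  -- an edge avoiding the odd vertex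
  obtain ⟨u2, u3, hu23, hu⟩ : ∃ u2 u3, s(u2, u3) ∈ E ∧ [o, u2, u3].Nodup := by
    obtain ⟨x, z, y, w, k1, k2, k3⟩ := hD
    simp only [List.nodup_cons, List.mem_cons, List.not_mem_nil, or_false, not_or,
      not_false_eq_true, List.nodup_nil, and_true] at k3
    by_cases g : o = x ∨ o = z
    · refine ⟨y, w, k2, ?_⟩
      simp only [List.nodup_cons, List.mem_cons, List.not_mem_nil, or_false, not_or,
        not_false_eq_true, List.nodup_nil, and_true]
      rcases g with rfl | rfl
      · exact ⟨⟨k3.1.2.1, k3.1.2.2⟩, k3.2.2⟩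
      · exact ⟨⟨k3.2.1.1, k3.2.1.2⟩, k3.2.2⟩
    · push Not at g
      refine ⟨x, z, k1, ?_⟩
      simp only [List.nodup_cons, List.mem_cons, List.not_mem_nil, or_false, not_or,
        not_false_eq_true, List.nodup_nil, and_true]
      exact ⟨g, k3.1.1⟩
  have hcls : ∀ a ∈ X, ∀ b ∈ X, ∀ x ∈ X, ∀ y ∈ X, [a, b, x, y].Nodup → f a = f b → f x = f y →
      sw c2 a b x y = 0 := by
    intro a ha b hb x hx y hy hn' fab fxy
    exact useK3 o u2 u3 hu ho hu23 a ha b hb x hx y hy hn' (Or.inr (Or.inl fab))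
      (Or.inr (Or.inl fxy))
  obtain ⟨p0, hp0, -, fp0⟩ := pick0 ∅ (by simp)
  obtain ⟨p1, hp1, -, fp1⟩ := pick1 ∅ (by simp)
  have hX2 : X.card ≤ (X \ {p0, p1}).card + 2 := by
    have := Finset.le_card_sdiff {p0, p1} X
    have h4 : ({p0, p1} : Finset P).card ≤ 2 := Finset.card_le_two
    omega
  have hsub : X \ {p0, p1} ⊆ X := Finset.sdiff_subset
  apply hno
  apply HZ.mono _ hsub
  refine FT (J := ZMod 2 × ZMod 2 × ZMod 2) hE hev hCM
    (fun x => (f x, c2 s(x, p0), c2 s(x, p1))) ?_ ?_ ?_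
  · rw [Fintype.card_prod, Fintype.card_prod, ZMod.card]
    omega
  · intro a ha b hb x hx hab hxa hxb
    simp only [Prod.mk.injEq] at hab
    rw [hs a (hsub ha) x (hsub hx) (Ne.symm hxa), hs b (hsub hb) x (hsub hx) (Ne.symm hxb), hab.1]
  · intro a ha b hb x hx hab hxa hxb
    simp only [Prod.mk.injEq] at hab
    by_cases heq : a = b
    · rw [heq]
    rw [Finset.mem_sdiff, Finset.mem_insert, Finset.mem_singleton, not_or] at ha hb hx
    by_cases hfx : f x = 0
    · have := hcls a ha.1 b hb.1 p0 hp0 x hx.1 (by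
        simp only [List.nodup_cons, List.mem_cons, List.not_mem_nil, or_false, not_or,
          not_false_eq_true, List.nodup_nil, and_true]
        exact ⟨⟨heq, ha.2.1, Ne.symm hxa⟩, ⟨hb.2.1, Ne.symm hxb⟩, Ne.symm hx.2.1⟩) hab.1
        (fp0.trans hfx.symm)
      unfold sw at this
      rw [hab.2.1] at this
      linear_combination (norm := (ring_nf; reduce_mod_char)) this
    · have hfx1 := ne_zero_one _ hfx
      have := hcls a ha.1 b hb.1 p1 hp1 x hx.1 (by
        simp only [List.nodup_cons, List.mem_cons, List.not_mem_nil, or_false, not_or,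
          not_false_eq_true, List.nodup_nil, and_true]
        exact ⟨⟨heq, ha.2.2, Ne.symm hxa⟩, ⟨hb.2.2, Ne.symm hxb⟩, Ne.symm hx.2.2⟩) hab.1
        (fp1.trans hfx1.symm)
      unfold sw at this
      rw [hab.2.2] at this
      linear_combination (norm := (ring_nf; reduce_mod_char)) this

end Pool.Agent.R40.ZSR
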