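import Pool.Agent.R40.ZSRf

/-!
# Zero-sum placements over the Klein group: main theorem for finite sets of positions
-/

namespace Pool.Agent.R40.ZSR

open Finset Function

set_option linter.unusedSectionVars false

variable {V P : Type} [DecidableEq V] [DecidableEq P]

/-- colours seen from a pair -/
def hh (c1 c2 : Sym2 P → ZMod 2) (a b x : P) : ZMod 2 × ZMod 2 :=
  (c1 s(a, x) + c1 s(b, x), c2 s(a, x) + c2 s(b, x))

theorem hh_sw {c1 c2 : Sym2 P → ZMod 2} {a b x y : P} (h : hh c1 c2 a b x = hh c1 c2 a b y) :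
    sw c1 a b x y = 0 ∧ sw c2 a b x y = 0 := by
  unfold hh at h
  simp only [Prod.mk.injEq] at h
  unfold sw
  constructor
  · linear_combination (norm := (ring_nf; reduce_mod_char)) h.1
  · linear_combination (norm := (ring_nf; reduce_mod_char)) h.2

theorem main1 [Fintype V] {E : Finset (Sym2 V)} (hE : ∀ e ∈ E, ¬ e.IsDiag)
    (hev : Even E.card) (hD : ∃ x z y w, s(x, z) ∈ E ∧ s(y, w) ∈ E ∧ [x, z, y, w].Nodup)
    {c1 c2 : Sym2 P → ZMod 2} {X : Finset P}
    (hX : Fintype.card V + 3082 ≤ X.card) {a1 b1 a2 b2 : P} (ha1 : a1 ∈ X) (hb1 : b1 ∈ X)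
    (ha2 : a2 ∈ X) (hb2 : b2 ∈ X) (hn : [a1, b1, a2, b2].Nodup) (hs1 : sw c1 a1 b1 a2 b2 = 0)
    (hs2 : sw c2 a1 b1 a2 b2 = 1) : HZ E c1 c2 X := by
  by_contra hno
  obtain ⟨X1, hX1⟩ : ∃ X1 : Finset P, X1 = X \ {a1, b1, a2, b2} := ⟨_, rfl⟩
  have k1 : X.card ≤ X1.card + 4 := by
    have := Finset.le_card_sdiff {a1, b1, a2, b2} X
    have h4 : ({a1, b1, a2, b2} : Finset P).card ≤ 4 := Finset.card_le_four
    rw [hX1]
    omega
  have hsub1 : X1 ⊆ X := by rw [hX1]; exact Finset.sdiff_subset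
  by_cases hfl : Flat c1 X1
  · exact hno ((lemI hE hev hD (by omega) hfl).mono hsub1)
  obtain ⟨a3, ha3, b3, hb3, a4, ha4, b4, hb4, hn', hs1'⟩ := not_flat hfl
  have hne : ∀ x y, s(x, y) ∈ E → x ≠ y := by
    rintro x y h rfl
    exact hE _ h (by simp)
  -- all switches away from the first pair
  have use1 : ∀ a ∈ X1, ∀ b ∈ X1, ∀ x ∈ X1, ∀ y ∈ X1, [a, b, x, y].Nodup →
      ∀ u1 u2 u3 u4, [u1, u2, u3, u4].Nodup → s(u1, u2) ∈ E → s(u3, u4) ∈ E →
      (s(u1, u3) ∈ E → sw c1 a1 b1 a b = 0 ∧ sw c2 a1 b1 a b = 0) →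
      (s(u2, u3) ∈ E → sw c1 a2 b2 a b = 0 ∧ sw c2 a2 b2 a b = 0) → sw c1 a b x y = 0 := by
    intro a ha b hb x hx y hy hn'' u1 u2 u3 u4 hu k12 k34 k13 k23
    have := T4' hE hno (by omega) hu (a1 := a1) (b1 := b1) (a2 := a2) (b2 := b2) (a3 := a)
      (b3 := b) (a4 := x) (b4 := y) (by
        rw [hX1, Finset.mem_sdiff] at ha hb hx hy
        simp only [List.nodup_cons, List.mem_cons, List.not_mem_nil, or_false, not_or,
          not_false_eq_true, List.nodup_nil, and_true, Finset.mem_insert,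
          Finset.mem_singleton] at hn hn'' ha hb hx hy ⊢
        grind) (by
        intro z hz
        simp only [List.mem_cons, List.not_mem_nil, or_false] at hz
        rcases hz with rfl | rfl | rfl | rfl | rfl | rfl | rfl | rfl
        · exact ha1
        · exact hb1
        · exact ha2
        · exact hb2
        · exact hsub1 ha
        · exact hsub1 hb
        · exact hsub1 hx
        · exact hsub1 hy) k12 k34 k13 k23
    rw [hs1, hs2] at this
    linear_combination this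
  have hCM : CM E := by
    intro x z y w hxz hyw hyx hyz
    by_contra hc
    push Not at hc
    obtain ⟨nxy, nzy⟩ := hc
    have nyx : s(y, x) ∉ E := by rwa [Sym2.eq_swap]
    have nyz : s(y, z) ∉ E := by rwa [Sym2.eq_swap]
    have hwx : w ≠ x := by rintro rfl; exact nyx hyw
    have hwz : w ≠ z := by rintro rfl; exact nyz hyw
    have := use1 a3 ha3 b3 hb3 a4 ha4 b4 hb4 hn' x z y w
      (by simp [hyx.symm, hyz.symm, hwx.symm, hwz.symm, hne _ _ hxz, hne _ _ hyw]) hxz hyw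
      (fun h => absurd h nxy) (fun h => absurd h nzy)
    rw [hs1'] at this
    exact absurd this (by decide)
  obtain ⟨u1, u2, u3, u4, e12, e34, hu⟩ := hD
  obtain ⟨X2, hX2⟩ : ∃ X2 : Finset P, X2 = X1 \ {a3, b3, a4, b4} := ⟨_, rfl⟩
  have k2 : X1.card ≤ X2.card + 4 := by
    have := Finset.le_card_sdiff {a3, b3, a4, b4} X1
    have h4 : ({a3, b3, a4, b4} : Finset P).card ≤ 4 := Finset.card_le_four
    rw [hX2]
    omega
  have hsub2 : X2 ⊆ X1 := by rw [hX2]; exact Finset.sdiff_subset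
  obtain ⟨p, hp⟩ := Finset.card_pos.1 (by omega : 0 < X2.card)
  have k3 := Finset.card_erase_of_mem hp
  have hsub3 : X2.erase p ⊆ X2 := Finset.erase_subset _ _
  have use2 : ∀ a ∈ X2, ∀ b ∈ X2, ∀ x ∈ X2, ∀ y ∈ X2, [a, b, x, y].Nodup →
      sw c1 a3 b3 a b = 0 ∧ sw c2 a3 b3 a b = 0 → sw c1 a4 b4 a b = 0 ∧ sw c2 a4 b4 a b = 0 →
      sw c1 a b x y = 0 → sw c2 a b x y = 0 := by
    intro a ha b hb x hx y hy hn'' k13 k23 k0
    have := T4' hE hno (by omega) hu (a1 := a3) (b1 := b3) (a2 := a4) (b2 := b4) (a3 := a)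
      (b3 := b) (a4 := x) (b4 := y) (by
        rw [hX2, Finset.mem_sdiff] at ha hb hx hy
        simp only [List.nodup_cons, List.mem_cons, List.not_mem_nil, or_false, not_or,
          not_false_eq_true, List.nodup_nil, and_true, Finset.mem_insert,
          Finset.mem_singleton] at hn' hn'' ha hb hx hy ⊢
        grind) (by
        intro z hz
        simp only [List.mem_cons, List.not_mem_nil, or_false] at hz
        rcases hz with rfl | rfl | rfl | rfl | rfl | rfl | rfl | rfl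
        · exact hsub1 ha3
        · exact hsub1 hb3
        · exact hsub1 ha4
        · exact hsub1 hb4
        · exact hsub1 (hsub2 ha)
        · exact hsub1 (hsub2 hb)
        · exact hsub1 (hsub2 hx)
        · exact hsub1 (hsub2 hy)) e12 e34 (fun _ => k13) (fun _ => k23)
    rw [hs1', k0] at this
    linear_combination this
  have htw : ∀ a ∈ X2.erase p, ∀ b ∈ X2.erase p, ∀ x ∈ X2.erase p, a ≠ b → x ≠ a → x ≠ b →
      hh c1 c2 a1 b1 a = hh c1 c2 a1 b1 b → hh c1 c2 a2 b2 a = hh c1 c2 a2 b2 b →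
      hh c1 c2 a3 b3 a = hh c1 c2 a3 b3 b → hh c1 c2 a4 b4 a = hh c1 c2 a4 b4 b →
      sw c1 a b p x = 0 ∧ sw c2 a b p x = 0 := by
    intro a ha b hb x hx hab hxa hxb t1 t2 t3 t4
    rw [Finset.mem_erase] at ha hb hx
    have hnd : [a, b, p, x].Nodup := by
      simp only [List.nodup_cons, List.mem_cons, List.not_mem_nil, or_false, not_or,
        not_false_eq_true, List.nodup_nil, and_true]
      exact ⟨⟨hab, ha.1, Ne.symm hxa⟩, ⟨hb.1, Ne.symm hxb⟩, Ne.symm hx.1⟩
    have g1 := use1 a (hsub2 ha.2) b (hsub2 hb.2) p (hsub2 hp) x (hsub2 hx.2) hnd u1 u2 u3 u4 hu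
      e12 e34 (fun _ => hh_sw t1) (fun _ => hh_sw t2)
    exact ⟨g1, use2 a ha.2 b hb.2 p hp x hx.2 hnd (hh_sw t3) (hh_sw t4) g1⟩
  apply hno
  apply HZ.mono _ (hsub3.trans (hsub2.trans hsub1))
  refine FT (J := (ZMod 2 × ZMod 2) × (ZMod 2 × ZMod 2) × (ZMod 2 × ZMod 2) ×
    (ZMod 2 × ZMod 2) × (ZMod 2 × ZMod 2)) hE hev hCM
    (fun x => (hh c1 c2 a1 b1 x, hh c1 c2 a2 b2 x, hh c1 c2 a3 b3 x, hh c1 c2 a4 b4 x,
      (c1 s(x, p), c2 s(x, p)))) ?_ ?_ ?_
  · simp only [Fintype.card_prod, ZMod.card]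
    omega
  · intro a ha b hb x hx hab hxa hxb
    simp only [Prod.mk.injEq] at hab
    by_cases heq : a = b
    · rw [heq]
    obtain ⟨t1, t2, t3, t4, t5, t6⟩ := hab
    have := (htw a ha b hb x hx heq hxa hxb t1 t2 t3 t4).1
    unfold sw at this
    rw [t5] at this
    linear_combination (norm := (ring_nf; reduce_mod_char)) this
  · intro a ha b hb x hx hab hxa hxb
    simp only [Prod.mk.injEq] at hab
    by_cases heq : a = b
    · rw [heq]
    obtain ⟨t1, t2, t3, t4, t5, t6⟩ := hab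
    have := (htw a ha b hb x hx heq hxa hxb t1 t2 t3 t4).2
    unfold sw at this
    rw [t6] at this
    linear_combination (norm := (ring_nf; reduce_mod_char)) this

/-- the additive bound -/
theorem main2 [Fintype V] {E : Finset (Sym2 V)} (hE : ∀ e ∈ E, ¬ e.IsDiag)
    (hev : Even E.card) (c1 c2 : Sym2 P → ZMod 2) {X : Finset P}
    (hX : Fintype.card V + 3082 ≤ X.card) : HZ E c1 c2 X := by
  by_cases hD : ∃ x z y w, s(x, z) ∈ E ∧ s(y, w) ∈ E ∧ [x, z, y, w].Nodup
  swap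
  · rcases star_or hE hev hD with h | ⟨p, hp⟩
    · obtain ⟨φ, g1, g2⟩ := exEmb (V := V) X ∅ (by simp; omega)
      refine ⟨φ, g1, fun v => (g2 v).1, ?_, ?_⟩
      · unfold F; rw [h, Finset.sum_empty]
      · unfold F; rw [h, Finset.sum_empty]
    · exact star hE hev (by omega) hp
  by_cases hf : Flat c1 X ∧ Flat c2 X
  · exact both_flat hE hev (by omega) hf.1 hf.2
  have hex : ∃ a ∈ X, ∃ b ∈ X, ∃ x ∈ X, ∃ y ∈ X, [a, b, x, y].Nodup ∧
      (sw c1 a b x y ≠ 0 ∨ sw c2 a b x y ≠ 0) := by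
    by_cases h1 : Flat c1 X
    · have h2 : ¬ Flat c2 X := fun h => hf ⟨h1, h⟩
      obtain ⟨a, ha, b, hb, x, hx, y, hy, hn, hs⟩ := not_flat h2
      exact ⟨a, ha, b, hb, x, hx, y, hy, hn, Or.inr (by rw [hs]; decide)⟩
    · obtain ⟨a, ha, b, hb, x, hx, y, hy, hn, hs⟩ := not_flat h1
      exact ⟨a, ha, b, hb, x, hx, y, hy, hn, Or.inl (by rw [hs]; decide)⟩
  obtain ⟨a, ha, b, hb, x, hx, y, hy, hn, hs⟩ := hex
  by_cases h1 : sw c1 a b x y = 0
  · have h2 : sw c2 a b x y = 1 := ne_zero_one _ (hs.resolve_left fun h => h h1)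
    exact main1 hE hev hD hX ha hb hx hy hn h1 h2
  · have h1' := ne_zero_one _ h1
    by_cases h2 : sw c2 a b x y = 0
    · obtain ⟨φ, g1, g2, g3, g4⟩ := main1 hE hev hD hX ha hb hx hy hn h2 h1'
      exact ⟨φ, g1, g2, g4, g3⟩
    · have h2' := ne_zero_one _ h2
      obtain ⟨φ, g1, g2, g3, g4⟩ := main1 (c1 := fun e => c1 e + c2 e) (c2 := c2) hE hev hD hX
        ha hb hx hy hn (by
          have : sw (fun e => c1 e + c2 e) a b x y = sw c1 a b x y + sw c2 a b x y := by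
            unfold sw; ring
          rw [this, h1', h2']; decide) h2'
      refine ⟨φ, g1, g2, ?_, g4⟩
      have : F E (fun e => c1 e + c2 e) φ = F E c1 φ + F E c2 φ := by
        unfold F; rw [← Finset.sum_add_distrib]
      rw [this, g4, add_zero] at g3
      exact g3

end Pool.Agent.R40.ZSR
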